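import Mathlib

/-!
A version of the Farkas lemma for nonnegative systems whose rows have a constant sum.
-/

set_option autoImplicit false

namespace Pool.Agent.FracK

open Finset

lemma cone_closed {E F : Type*} [Fintype E] [Fintype F] (A : E → F → ℝ)
    (K : ℝ) (hK : 0 < K) (hsum : ∀ e, ∑ f, A e f = K) :
    IsClosed {x : F → ℝ | ∃ w : E → ℝ, (∀ e, 0 ≤ w e) ∧ ∀ f, ∑ e, w e * A e f = x f} := by
  classical
  set C : Set (F → ℝ) := {x : F → ℝ | ∃ w : E → ℝ, (∀ e, 0 ≤ w e) ∧ ∀ f, ∑ e, w e * A e f = x f}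
    with hC
  have hlin : Continuous (fun w : E → ℝ => (fun f => ∑ e, w e * A e f : F → ℝ)) := by
    fun_prop
  apply isClosed_of_closure_subset
  intro x hx
  set M : ℝ := ∑ f, x f + 1 with hM
  set B : Set (E → ℝ) := Set.Icc (fun _ => 0) (fun _ => M / K) with hB
  have hBc : IsCompact B := isCompact_Icc
  set D : Set (F → ℝ) := (fun w : E → ℝ => (fun f => ∑ e, w e * A e f : F → ℝ)) '' B with hD
  have hDc : IsCompact D := hBc.image hlin
  have hDC : D ⊆ C := by
    rintro _ ⟨w, hw, rfl⟩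
    exact ⟨w, fun e => hw.1 e, fun f => rfl⟩
  have hU : IsOpen {x' : F → ℝ | ∑ f, x' f < M} := by
    apply isOpen_lt _ continuous_const
    fun_prop
  have hxU : x ∈ {x' : F → ℝ | ∑ f, x' f < M} := by
    show ∑ f, x f < M
    rw [hM]; linarith
  have hsub : C ∩ {x' : F → ℝ | ∑ f, x' f < M} ⊆ D := by
    rintro x' ⟨⟨w, hw0, hw⟩, hx'⟩
    refine ⟨w, ⟨fun e => hw0 e, fun e => ?_⟩, by ext f; exact hw f⟩
    have h1 : ∑ f, x' f = K * ∑ e, w e := by
      calc ∑ f, x' f = ∑ f, ∑ e, w e * A e f := by simp only [hw]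
        _ = ∑ e, ∑ f, w e * A e f := sum_comm
        _ = ∑ e, w e * K := by
            apply sum_congr rfl
            intro e _
            rw [← mul_sum, hsum e]
        _ = _ := by rw [← sum_mul, mul_comm]
    have h2 : w e ≤ ∑ e, w e := single_le_sum (fun e _ => hw0 e) (mem_univ e)
    have h3 : ∑ f, x' f < M := hx'
    show w e ≤ M / K
    rw [le_div_iff₀ hK]
    nlinarith
  have hcl : x ∈ closure (C ∩ {x' : F → ℝ | ∑ f, x' f < M}) := by
    rw [mem_closure_iff] at hx ⊢
    intro o ho hxo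
    obtain ⟨z, hz1, hz2⟩ := hx (o ∩ {x' : F → ℝ | ∑ f, x' f < M}) (ho.inter hU) ⟨hxo, hxU⟩
    exact ⟨z, hz1.1, hz2, hz1.2⟩
  have : x ∈ D := by
    have h4 := closure_mono hsub hcl
    rwa [hDc.isClosed.closure_eq] at h4
  exact hDC this

theorem farkas {E F : Type*} [Fintype E] [Fintype F] (A : E → F → ℝ)
    (K : ℝ) (hK : 0 < K) (hsum : ∀ e, ∑ f, A e f = K) (b : F → ℝ)
    (h : ¬ ∃ w : E → ℝ, (∀ e, 0 ≤ w e) ∧ ∀ f, ∑ e, w e * A e f = b f) :
    ∃ y : F → ℝ, (∀ e, 0 ≤ ∑ f, A e f * y f) ∧ ∑ f, b f * y f < 0 := by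
  classical
  set C : Set (F → ℝ) := {x : F → ℝ | ∃ w : E → ℝ, (∀ e, 0 ≤ w e) ∧ ∀ f, ∑ e, w e * A e f = x f}
    with hC
  have hclosed : IsClosed C := cone_closed A K hK hsum
  have hconv : Convex ℝ C := by
    rintro x ⟨w, hw0, hw⟩ x' ⟨w', hw0', hw'⟩ a a' ha ha' _
    refine ⟨fun e => a * w e + a' * w' e, fun e => ?_, fun f => ?_⟩
    · have := hw0 e; have := hw0' e; positivity
    · simp only [Pi.add_apply, Pi.smul_apply, smul_eq_mul]
      rw [← hw f, ← hw' f, mul_sum, mul_sum, ← sum_add_distrib]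
      apply sum_congr rfl
      intro e _
      ring
  have hb : b ∉ C := fun hb => h hb
  obtain ⟨φ, u, hφ, hu⟩ := geometric_hahn_banach_closed_point hconv hclosed hb
  have hcone : ∀ e, φ (A e) ≤ 0 := by
    intro e
    by_contra hcon
    push Not at hcon
    have h0 : φ 0 < u := hφ 0 ⟨fun _ => 0, fun _ => le_refl _, fun f => by simp⟩
    rw [map_zero] at h0
    have h1 := hφ ((u / φ (A e)) • (A e)) ⟨Pi.single e (u / φ (A e)), fun e' => ?_, fun f => ?_⟩
    · rw [map_smul, smul_eq_mul, div_mul_cancel₀ _ hcon.ne'] at h1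
      exact lt_irrefl _ h1
    · by_cases he : e' = e
      · subst he
        rw [Pi.single_eq_same]
        positivity
      · rw [Pi.single_eq_of_ne he]
    · rw [sum_eq_single e]
      · rw [Pi.single_eq_same, Pi.smul_apply, smul_eq_mul]
      · intro e' _ he'
        rw [Pi.single_eq_of_ne he', zero_mul]
      · intro hne; exact absurd (mem_univ e) hne
  have hrep : ∀ x : F → ℝ, φ x = ∑ f, x f * φ (Pi.single f 1) := by
    intro x
    have : x = ∑ f, x f • (Pi.single f (1 : ℝ) : F → ℝ) := by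
      ext f
      rw [Finset.sum_apply, sum_eq_single f]
      · simp
      · intro f' _ hf'
        simp [Pi.single_eq_of_ne hf'.symm]
      · intro hne; exact absurd (mem_univ f) hne
    conv_lhs => rw [this]
    rw [map_sum]
    apply sum_congr rfl
    intro f _
    rw [map_smul, smul_eq_mul]
  refine ⟨fun f => - φ (Pi.single f 1), fun e => ?_, ?_⟩
  · have := hcone e
    rw [hrep] at this
    simp only [mul_neg, sum_neg_distrib]
    linarith
  · have h0 : φ 0 < u := hφ 0 ⟨fun _ => 0, fun _ => le_refl _, fun f => by simp⟩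
    rw [map_zero] at h0
    rw [hrep b] at hu
    simp only [mul_neg, sum_neg_distrib]
    linarith

end Pool.Agent.FracK
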