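import Mathlib

/-!
The inclusion map from `(s+1)`-sets to `(s+2)`-sets of a finite set is bounded below in `L¹`.
-/

set_option autoImplicit false

namespace Pool.Agent.FracK

open Finset

variable {V : Type*} [DecidableEq V]

/-- sum of `y` over the `(s+1)`-subsets of `e` -/
def ysum (s : ℕ) (y : Finset V → ℝ) (e : Finset V) : ℝ := ∑ f ∈ e.powersetCard (s + 1), y f

omit [DecidableEq V] in
lemma ysum_def (s : ℕ) (y : Finset V → ℝ) (e : Finset V) :
    ysum s y e = ∑ f ∈ e.powersetCard (s + 1), y f := rfl

/-- sum over the `(s+2)`-supersets of an `(s+1)`-set -/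
lemma sum_superset {s : ℕ} {β : Type*} [AddCommMonoid β] (t f : Finset V) (hf : f.card = s + 1)
    (hft : f ⊆ t) (g : Finset V → β) :
    ∑ e ∈ (t.powersetCard (s + 2)).filter (fun e => f ⊆ e), g e =
      ∑ x ∈ t \ f, g (insert x f) := by
  symm
  have himg : (t.powersetCard (s + 2)).filter (fun e => f ⊆ e) =
      (t \ f).image (fun x => insert x f) := by
    ext e
    simp only [mem_filter, mem_powersetCard, mem_image, mem_sdiff]
    constructor
    · rintro ⟨⟨het, hec⟩, hfe⟩
      have hc : (e \ f).card = 1 := by rw [card_sdiff_of_subset hfe]; omega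
      rw [card_eq_one] at hc
      obtain ⟨x, hx⟩ := hc
      have hx' : x ∈ e \ f := by rw [hx]; exact mem_singleton_self x
      rw [mem_sdiff] at hx'
      refine ⟨x, ⟨het hx'.1, hx'.2⟩, ?_⟩
      rw [insert_eq, ← hx, sdiff_union_of_subset hfe]
    · rintro ⟨x, ⟨hxt, hxf⟩, rfl⟩
      refine ⟨⟨insert_subset hxt hft, ?_⟩, subset_insert _ _⟩
      rw [card_insert_of_notMem hxf, hf]
  rw [himg, sum_image]
  intro x hx x' hx' h
  simp only [coe_sdiff, Set.mem_sdiff, mem_coe] at hx hx'
  have h' : insert x f = insert x' f := h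
  have : x ∈ insert x' f := by rw [← h']; exact mem_insert_self _ _
  rw [mem_insert] at this
  rcases this with h2 | h2
  · exact h2
  · exact absurd h2 hx.2

/-- gadget coefficients -/
noncomputable def acoef (s i : ℕ) : ℝ :=
  (-1) ^ (s + 1 - i) * ((s + 1 - i).factorial * i.factorial : ℝ) / ((s + 2).factorial : ℝ)

lemma acoef_top (s : ℕ) : ((s : ℝ) + 2) * acoef s (s + 1) = 1 := by
  unfold acoef
  rw [Nat.sub_self, pow_zero, Nat.factorial_zero, Nat.factorial_succ (s + 1)]
  push_cast
  have h : ((s + 1).factorial : ℝ) ≠ 0 := by positivity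
  have h2 : (s : ℝ) + 1 + 1 ≠ 0 := by positivity
  field_simp
  ring

lemma acoef_rec (s i : ℕ) (hi : i < s + 1) :
    ((s + 1 - i : ℕ) : ℝ) * acoef s (i + 1) + ((i : ℝ) + 1) * acoef s i = 0 := by
  unfold acoef
  obtain ⟨j, hj⟩ : ∃ j, s + 1 - i = j + 1 := ⟨s - i, by omega⟩
  have hj' : s + 1 - (i + 1) = j := by omega
  rw [hj, hj', Nat.factorial_succ j, Nat.factorial_succ i, pow_succ]
  push_cast
  have h : ((s + 2).factorial : ℝ) ≠ 0 := by positivity
  field_simp
  ring

lemma acoef_abs (s i : ℕ) (hi : i ≤ s + 1) : |acoef s i| ≤ 1 := by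
  unfold acoef
  rw [abs_div, abs_mul, abs_pow, abs_neg, abs_one, one_pow, one_mul, abs_of_nonneg (by positivity),
    abs_of_nonneg (by positivity), div_le_one (by positivity)]
  have h1 : (s + 1 - i).factorial * i.factorial ≤ (s + 2).factorial := by
    have h2 := Nat.factorial_mul_factorial_dvd_factorial hi
    have h3 := Nat.le_of_dvd (Nat.factorial_pos _) h2
    have h4 : (s + 1).factorial ≤ (s + 2).factorial := Nat.factorial_le (by omega)
    rw [mul_comm]
    exact h3.trans h4
  exact_mod_cast h1

/-- the gadget identity on a `(2s+3)`-set -/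
lemma gadget (s : ℕ) (X f : Finset V) (hX : X.card = 2 * s + 3) (hfX : f ⊆ X)
    (hf : f.card = s + 1) (y : Finset V → ℝ) :
    ∑ e ∈ X.powersetCard (s + 2), acoef s (e ∩ f).card * ysum s y e = y f := by
  have h1 : ∑ e ∈ X.powersetCard (s + 2), acoef s (e ∩ f).card * ysum s y e =
      ∑ f' ∈ X.powersetCard (s + 1), y f' *
        ∑ e ∈ (X.powersetCard (s + 2)).filter (fun e => f' ⊆ e), acoef s (e ∩ f).card := by
    have h2 : ∀ e ∈ X.powersetCard (s + 2), acoef s (e ∩ f).card * ysum s y e =
        ∑ f' ∈ X.powersetCard (s + 1), if f' ⊆ e then acoef s (e ∩ f).card * y f' else 0 := by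
      intro e he
      rw [mem_powersetCard] at he
      rw [ysum_def, mul_sum, ← sum_filter]
      apply sum_congr _ (fun _ _ => rfl)
      ext f'
      simp only [mem_powersetCard, mem_filter]
      constructor
      · rintro ⟨h3, h4⟩; exact ⟨⟨h3.trans he.1, h4⟩, h3⟩
      · rintro ⟨⟨_, h4⟩, h3⟩; exact ⟨h3, h4⟩
    rw [sum_congr rfl h2, sum_comm]
    apply sum_congr rfl
    intro f' _
    rw [mul_sum, sum_filter]
    apply sum_congr rfl
    intro e _
    split_ifs
    · ring
    · rfl
  rw [h1]
  have h3 : ∀ f' ∈ X.powersetCard (s + 1),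
      ∑ e ∈ (X.powersetCard (s + 2)).filter (fun e => f' ⊆ e), acoef s (e ∩ f).card =
        if f' = f then 1 else 0 := by
    intro f' hf'
    rw [mem_powersetCard] at hf'
    rw [sum_superset X f' hf'.2 hf'.1]
    set i := (f' ∩ f).card with hi
    have hi_le : i ≤ s + 1 := by
      rw [hi, ← hf]; exact card_le_card inter_subset_right
    have h4 : ∀ x ∈ X \ f', acoef s (insert x f' ∩ f).card =
        if x ∈ f then acoef s (i + 1) else acoef s i := by
      intro x hx
      rw [mem_sdiff] at hx
      split_ifs with hxf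
      · rw [insert_inter_of_mem hxf, card_insert_of_notMem]
        intro h; exact hx.2 (mem_inter.mp h).1
      · rw [insert_inter_of_notMem hxf]
    rw [sum_congr rfl h4, sum_ite, sum_const, sum_const, nsmul_eq_mul, nsmul_eq_mul]
    have h5 : ((X \ f').filter (fun x => x ∈ f)).card = s + 1 - i := by
      have : (X \ f').filter (fun x => x ∈ f) = f \ (f' ∩ f) := by
        ext x
        simp only [mem_filter, mem_sdiff, mem_inter, not_and]
        constructor
        · rintro ⟨⟨_, h6⟩, h7⟩; exact ⟨h7, fun h8 => absurd h8 h6⟩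
        · rintro ⟨h7, h8⟩; exact ⟨⟨hfX h7, fun h6 => (h8 h6) h7⟩, h7⟩
      rw [this, card_sdiff_of_subset inter_subset_right, hf]
    have h6 : ((X \ f').filter (fun x => x ∉ f)).card = i + 1 := by
      have h7 := card_filter_add_card_filter_not (s := X \ f') (fun x => x ∈ f)
      rw [h5, card_sdiff_of_subset hf'.1, hX, hf'.2] at h7
      omega
    rw [h5, h6]
    by_cases hff : f' = f
    · rw [if_pos hff]
      have : i = s + 1 := by rw [hi, hff, inter_self, hf]
      rw [this, Nat.sub_self]
      have := acoef_top s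
      push_cast
      linarith
    · rw [if_neg hff]
      have hlt : i < s + 1 := by
        rcases Nat.lt_or_ge i (s + 1) with h | h
        · exact h
        · exfalso
          have h8 : f' ∩ f = f := by
            apply eq_of_subset_of_card_le inter_subset_right
            rw [hf]; exact h
          have h9 : f' ∩ f = f' := by
            apply eq_of_subset_of_card_le inter_subset_left
            rw [hf'.2]; exact h
          exact hff (h9.symm.trans h8)
      have := acoef_rec s i hlt
      push_cast at this ⊢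
      linarith
  rw [sum_congr rfl (fun f' hf' => by rw [h3 f' hf'])]
  rw [sum_eq_single f]
  · simp
  · intro f' _ hne; simp [hne]
  · intro hne
    exfalso; apply hne
    rw [mem_powersetCard]; exact ⟨hfX, hf⟩

lemma l1_local (s : ℕ) (X : Finset V) (hX : X.card = 2 * s + 3) (y : Finset V → ℝ) :
    ∑ f ∈ X.powersetCard (s + 1), |y f| ≤
      ((2 * s + 3).choose (s + 1) : ℝ) * ∑ e ∈ X.powersetCard (s + 2), |ysum s y e| := by
  calc ∑ f ∈ X.powersetCard (s + 1), |y f|
      ≤ ∑ f ∈ X.powersetCard (s + 1), ∑ e ∈ X.powersetCard (s + 2), |ysum s y e| := by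
        apply sum_le_sum
        intro f hf
        rw [mem_powersetCard] at hf
        rw [← gadget s X f hX hf.1 hf.2 y]
        refine (abs_sum_le_sum_abs _ _).trans ?_
        apply sum_le_sum
        intro e _
        rw [abs_mul]
        have h1 : |acoef s (e ∩ f).card| ≤ 1 := by
          apply acoef_abs
          rw [← hf.2]; exact card_le_card inter_subset_right
        have h2 : 0 ≤ |ysum s y e| := abs_nonneg _
        nlinarith
    _ = _ := by
        rw [sum_const, card_powersetCard, hX, nsmul_eq_mul]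

/-- The inclusion map is bounded below in `L¹`. -/
theorem l1_global [Fintype V] (s : ℕ) (hV : 2 * s + 3 ≤ Fintype.card V) (y : Finset V → ℝ) :
    ((Fintype.card V : ℝ) - s - 1) * ∑ f ∈ (univ : Finset V).powersetCard (s + 1), |y f| ≤
      ((s : ℝ) + 2) * ((2 * s + 3).choose (s + 1) : ℝ) *
        ∑ e ∈ (univ : Finset V).powersetCard (s + 2), |ysum s y e| := by
  set n := Fintype.card V with hn
  -- double counting
  have hcount : ∀ (j : ℕ) (hj : j ≤ 2 * s + 3) (g : Finset V → ℝ),
      ∑ X ∈ (univ : Finset V).powersetCard (2 * s + 3), ∑ f ∈ X.powersetCard j, g f =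
        ((n - j).choose (2 * s + 3 - j) : ℝ) * ∑ f ∈ (univ : Finset V).powersetCard j, g f := by
    intro j hj g
    have h1 : ∀ X ∈ (univ : Finset V).powersetCard (2 * s + 3), ∑ f ∈ X.powersetCard j, g f =
        ∑ f ∈ (univ : Finset V).powersetCard j, if f ⊆ X then g f else 0 := by
      intro X _
      rw [← sum_filter]
      apply sum_congr _ (fun _ _ => rfl)
      ext f
      simp only [mem_powersetCard, mem_filter, subset_univ, true_and]
      tauto
    rw [sum_congr rfl h1, sum_comm, mul_sum]
    apply sum_congr rfl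
    intro f hf
    rw [mem_powersetCard] at hf
    rw [← sum_filter, sum_const, card_filter_powersetCard_subset f univ (2 * s + 3)
      (subset_univ _) (by omega), nsmul_eq_mul, hf.2, card_univ]
  have hsum := sum_le_sum (fun X (hX : X ∈ (univ : Finset V).powersetCard (2 * s + 3)) =>
    l1_local s X (mem_powersetCard.mp hX).2 y)
  rw [hcount (s + 1) (by omega) (fun f => |y f|), ← mul_sum,
    hcount (s + 2) (by omega) (fun e => |ysum s y e|)] at hsum
  have e1 : 2 * s + 3 - (s + 1) = s + 2 := by omega
  have e2 : 2 * s + 3 - (s + 2) = s + 1 := by omega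
  rw [e1, e2] at hsum
  have hch : ((n - (s + 1)).choose (s + 2) : ℝ) * ((s : ℝ) + 2) =
      ((n : ℝ) - s - 1) * ((n - (s + 2)).choose (s + 1) : ℝ) := by
    obtain ⟨r, hr⟩ : ∃ r, n - (s + 1) = r + 1 := ⟨n - (s + 2), by omega⟩
    have hr' : n - (s + 2) = r := by omega
    rw [hr, hr']
    have h2 := Nat.add_one_mul_choose_eq r (s + 1)
    have h3 : (n : ℝ) - s - 1 = (r : ℝ) + 1 := by
      have : n = r + 1 + (s + 1) := by omega
      rw [this]; push_cast; ring
    rw [h3]
    have h4 : ((r + 1 : ℕ) : ℝ) * (r.choose (s + 1) : ℝ) =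
        ((r + 1).choose (s + 1 + 1) : ℝ) * ((s + 1 + 1 : ℕ) : ℝ) := by exact_mod_cast h2
    push_cast at h4
    have h5 : (s : ℝ) + 1 + 1 = s + 2 := by ring
    rw [h5] at h4
    linarith
  have hpos : (0 : ℝ) < ((n - (s + 2)).choose (s + 1) : ℝ) := by
    have : 0 < (n - (s + 2)).choose (s + 1) := Nat.choose_pos (by omega)
    exact_mod_cast this
  set a := ∑ f ∈ (univ : Finset V).powersetCard (s + 1), |y f| with ha
  set b := ∑ e ∈ (univ : Finset V).powersetCard (s + 2), |ysum s y e| with hb
  have h6 : (((n : ℝ) - s - 1) * a) * ((n - (s + 2)).choose (s + 1) : ℝ) ≤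
      (((s : ℝ) + 2) * ((2 * s + 3).choose (s + 1) : ℝ) * b) *
        ((n - (s + 2)).choose (s + 1) : ℝ) := by
    calc (((n : ℝ) - s - 1) * a) * ((n - (s + 2)).choose (s + 1) : ℝ)
        = (((n - (s + 1)).choose (s + 2) : ℝ) * a) * ((s : ℝ) + 2) := by
          rw [mul_right_comm, ← hch]; ring
      _ ≤ (((2 * s + 3).choose (s + 1) : ℝ) *
          (((n - (s + 2)).choose (s + 1) : ℝ) * b)) * ((s : ℝ) + 2) := by
          gcongr
      _ = _ := by ring
  exact le_of_mul_le_mul_right h6 hpos

end Pool.Agent.FracK
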