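import Mathlib
import Pool.Agent.Work.MP_1ae8db_pr.L1

/-!
Selection of a good scale for a vector with negative sum.
-/

set_option autoImplicit false

namespace Pool.Agent.FracK

open Finset MeasureTheory

variable {V : Type*} [DecidableEq V] [Fintype V]

lemma sum_ysum (s : ℕ) (hV : s + 2 ≤ Fintype.card V) (g : Finset V → ℝ) :
    ∑ e ∈ (univ : Finset V).powersetCard (s + 2), ∑ f ∈ e.powersetCard (s + 1), g f =
      ((Fintype.card V : ℝ) - s - 1) * ∑ f ∈ (univ : Finset V).powersetCard (s + 1), g f := by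
  have h1 : ∀ e ∈ (univ : Finset V).powersetCard (s + 2), ∑ f ∈ e.powersetCard (s + 1), g f =
      ∑ f ∈ (univ : Finset V).powersetCard (s + 1), if f ⊆ e then g f else 0 := by
    intro e _
    rw [← sum_filter]
    apply sum_congr _ (fun _ _ => rfl)
    ext f
    simp only [mem_powersetCard, mem_filter, subset_univ, true_and]
    tauto
  rw [sum_congr rfl h1, sum_comm, mul_sum]
  apply sum_congr rfl
  intro f hf
  rw [mem_powersetCard] at hf
  rw [← sum_filter, sum_const, card_filter_powersetCard_subset f univ (s + 2)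
    (subset_univ _) (by omega), nsmul_eq_mul, hf.2, card_univ]
  have e1 : s + 2 - (s + 1) = 1 := by omega
  rw [e1, Nat.choose_one_right, Nat.cast_sub (by omega)]
  push_cast
  ring

/-- number of `(s+2)`-sets containing an `(s+1)`-set -/
lemma card_edges_at (s : ℕ) (f : Finset V) (hf : f.card = s + 1) :
    (((univ : Finset V).powersetCard (s + 2)).filter (fun e => f ⊆ e)).card =
      Fintype.card V - (s + 1) := by
  rw [card_filter_powersetCard_subset f univ (s + 2) (subset_univ _) (by omega), hf, card_univ]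
  have e1 : s + 2 - (s + 1) = 1 := by omega
  rw [e1, Nat.choose_one_right]

/-- Scale selection. -/
theorem scale_select (s : ℕ) (hV : s + 2 ≤ Fintype.card V) (y : Finset V → ℝ)
    (c β η' : ℝ) (hc : 0 < c) (hβ : β = c / 6) (hη' : 0 < η') (hη'' : η' * (s + 2) ≤ β)
    (hL1 : c * (Fintype.card V : ℝ) * ∑ f ∈ (univ : Finset V).powersetCard (s + 1), |y f| ≤
      ∑ e ∈ (univ : Finset V).powersetCard (s + 2), |ysum s y e|)
    (hneg : ∑ f ∈ (univ : Finset V).powersetCard (s + 1), y f < 0) :
    ∃ σ : ℝ, 0 < σ ∧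
      0 < (((univ : Finset V).powersetCard (s + 1)).filter (fun f => η' * σ ≤ |y f|)).card ∧
      η' * (Fintype.card V : ℝ) *
        ((((univ : Finset V).powersetCard (s + 1)).filter (fun f => η' * σ ≤ |y f|)).card : ℝ) ≤
      ((((univ : Finset V).powersetCard (s + 2)).filter (fun e =>
        (∀ f ∈ e.powersetCard (s + 1), |y f| ≤ σ) ∧ ysum s y e ≤ - (β * σ))).card : ℝ) := by
  classical
  set n : ℝ := (Fintype.card V : ℝ) with hn
  have hβpos : 0 < β := by rw [hβ]; positivity
  have hnpos : 0 < n := by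
    have : 0 < Fintype.card V := by omega
    rw [hn]; exact_mod_cast this
  set F := (univ : Finset V).powersetCard (s + 1) with hF
  set E := (univ : Finset V).powersetCard (s + 2) with hE
  set Mn : Finset V → NNReal := fun e => (e.powersetCard (s + 1)).sup (fun f => ‖y f‖₊) with hMn
  set M : Finset V → ℝ := fun e => (Mn e : ℝ) with hM
  have hM0 : ∀ e, 0 ≤ M e := fun e => (Mn e).2
  have hM1 : ∀ e, ∀ f ∈ e.powersetCard (s + 1), |y f| ≤ M e := by
    intro e f hf
    have : ‖y f‖₊ ≤ Mn e := le_sup (f := fun f => ‖y f‖₊) hf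
    have h2 : (‖y f‖₊ : ℝ) ≤ (Mn e : ℝ) := by exact_mod_cast this
    simpa using h2
  have hM2 : ∀ e, M e ≤ ∑ f ∈ e.powersetCard (s + 1), |y f| := by
    intro e
    have : Mn e ≤ ∑ f ∈ e.powersetCard (s + 1), ‖y f‖₊ := by
      apply Finset.sup_le
      intro f hf
      exact single_le_sum (f := fun f => ‖y f‖₊) (fun _ _ => bot_le) hf
    have h2 : (Mn e : ℝ) ≤ ((∑ f ∈ e.powersetCard (s + 1), ‖y f‖₊ : NNReal) : ℝ) := by
      exact_mod_cast this
    rw [NNReal.coe_sum] at h2
    simpa using h2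
  -- the function to integrate
  set φ : Finset V → ℝ → ℝ := fun e => (Set.Ioc (M e) (-(ysum s y e) / β)).indicator 1 with hφ
  set ψ : Finset V → ℝ → ℝ := fun f => (Set.Ioc 0 (|y f| / η')).indicator 1 with hψ
  have hφi : ∀ e, Integrable (φ e) := by
    intro e
    apply (integrable_indicator_iff measurableSet_Ioc).mpr
    exact integrableOn_const (by simp) (by simp)
  have hψi : ∀ f, Integrable (ψ f) := by
    intro f
    apply (integrable_indicator_iff measurableSet_Ioc).mpr
    exact integrableOn_const (by simp) (by simp)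
  have hφint : ∀ e, ∫ x, φ e x = max (-(ysum s y e) / β - M e) 0 := by
    intro e
    rw [hφ]
    simp only
    rw [integral_indicator_one measurableSet_Ioc, Real.volume_real_Ioc]
  have hψint : ∀ f, ∫ x, ψ f x = |y f| / η' := by
    intro f
    rw [hψ]
    simp only
    rw [integral_indicator_one measurableSet_Ioc, Real.volume_real_Ioc, sub_zero]
    exact max_eq_left (by positivity)
  set Φ : ℝ → ℝ := fun x => ∑ e ∈ E, φ e x - η' * n * ∑ f ∈ F, ψ f x with hΦ
  have hΦint : ∫ x, Φ x = ∑ e ∈ E, max (-(ysum s y e) / β - M e) 0 -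
      η' * n * ∑ f ∈ F, |y f| / η' := by
    rw [hΦ]
    rw [integral_sub (integrable_finsetSum _ (fun e _ => hφi e))
      ((integrable_finsetSum _ (fun f _ => hψi f)).const_mul _),
      integral_finsetSum _ (fun e _ => hφi e), integral_const_mul,
      integral_finsetSum _ (fun f _ => hψi f)]
    simp only [hφint, hψint]
  set Y := ∑ f ∈ F, |y f| with hY
  have hYpos : 0 < Y := by
    have h1 : - ∑ f ∈ F, y f ≤ Y := by
      rw [← sum_neg_distrib]
      exact sum_le_sum (fun f _ => neg_le_abs (y f))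
    linarith
  have hsumE : ∑ e ∈ E, ysum s y e = (n - s - 1) * ∑ f ∈ F, y f := sum_ysum s hV y
  have hns : 0 ≤ n - s - 1 := by
    have : (s + 2 : ℝ) ≤ n := by rw [hn]; exact_mod_cast hV
    linarith
  have hMsum : ∑ e ∈ E, M e ≤ n * Y := by
    calc ∑ e ∈ E, M e ≤ ∑ e ∈ E, ∑ f ∈ e.powersetCard (s + 1), |y f| :=
          sum_le_sum (fun e _ => hM2 e)
      _ = (n - s - 1) * Y := sum_ysum s hV (fun f => |y f|)
      _ ≤ n * Y := by
          have : (0 : ℝ) ≤ s := by positivity
          apply mul_le_mul_of_nonneg_right _ hYpos.le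
          linarith
  have hpt : ∀ e, |ysum s y e| / (2 * β) - ysum s y e / (2 * β) - M e ≤
      max (-(ysum s y e) / β - M e) 0 := by
    intro e
    rcases le_total 0 (ysum s y e) with h | h
    · rw [abs_of_nonneg h]
      have := hM0 e
      have h2 : (0 : ℝ) ≤ max (-(ysum s y e) / β - M e) 0 := le_max_right _ _
      linarith
    · rw [abs_of_nonpos h]
      refine le_trans (le_of_eq ?_) (le_max_left _ _)
      field_simp
      ring
  have hposint : 0 < ∫ x, Φ x := by
    rw [hΦint]
    have h1 : η' * n * ∑ f ∈ F, |y f| / η' = n * Y := by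
      rw [← sum_div, ← hY]
      field_simp
    rw [h1]
    have h2 : ∑ e ∈ E, (|ysum s y e| / (2 * β) - ysum s y e / (2 * β) - M e) ≤
        ∑ e ∈ E, max (-(ysum s y e) / β - M e) 0 := sum_le_sum (fun e _ => hpt e)
    rw [sum_sub_distrib, sum_sub_distrib, ← sum_div, ← sum_div, hsumE] at h2
    have h3 : (n - s - 1) * ∑ f ∈ F, y f ≤ 0 := mul_nonpos_of_nonneg_of_nonpos hns hneg.le
    have h4 : (n - s - 1) * ∑ f ∈ F, y f / (2 * β) ≤ 0 := by
      rw [← sum_div, mul_div_assoc']
      exact div_nonpos_of_nonpos_of_nonneg h3 (by positivity)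
    have h5 : ((n - s - 1) * ∑ f ∈ F, y f) / (2 * β) ≤ 0 :=
      div_nonpos_of_nonpos_of_nonneg h3 (by positivity)
    have h6 : 3 * (n * Y) ≤ (∑ e ∈ E, |ysum s y e|) / (2 * β) := by
      rw [le_div_iff₀ (by positivity), hβ]
      calc 3 * (n * Y) * (2 * (c / 6)) = c * n * Y := by ring
        _ ≤ _ := hL1
    have h7 : 0 < n * Y := by positivity
    linarith
  obtain ⟨σ, hσ⟩ : ∃ x, 0 < Φ x := by
    by_contra hcon
    push Not at hcon
    have := integral_nonpos (μ := volume) (f := Φ) (fun x => hcon x)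
    linarith
  -- counts
  have hc1 : ∀ x, ∑ e ∈ E, φ e x =
      ((E.filter (fun e => x ∈ Set.Ioc (M e) (-(ysum s y e) / β))).card : ℝ) := by
    intro x
    rw [← sum_boole]
    apply sum_congr rfl
    intro e _
    simp only [hφ, Set.indicator_apply, Pi.one_apply]
  have hc2 : ∀ x, ∑ f ∈ F, ψ f x =
      ((F.filter (fun f => x ∈ Set.Ioc 0 (|y f| / η'))).card : ℝ) := by
    intro x
    rw [← sum_boole]
    apply sum_congr rfl
    intro e _
    simp only [hψ, Set.indicator_apply, Pi.one_apply]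
  have hσ' : η' * n * ((F.filter (fun f => σ ∈ Set.Ioc 0 (|y f| / η'))).card : ℝ) <
      ((E.filter (fun e => σ ∈ Set.Ioc (M e) (-(ysum s y e) / β))).card : ℝ) := by
    have := hσ
    simp only [hΦ] at this
    rw [hc1, hc2] at this
    linarith
  have hcardpos : 0 < (E.filter (fun e => σ ∈ Set.Ioc (M e) (-(ysum s y e) / β))).card := by
    have h1 : (0 : ℝ) ≤ η' * n * ((F.filter (fun f => σ ∈ Set.Ioc 0 (|y f| / η'))).card : ℝ) := by
      positivity
    have h2 := lt_of_le_of_lt h1 hσ'
    exact_mod_cast h2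
  obtain ⟨e₀, he₀⟩ := card_pos.mp hcardpos
  rw [mem_filter] at he₀
  have hσpos : 0 < σ := lt_of_le_of_lt (hM0 e₀) he₀.2.1
  have hFeq : F.filter (fun f => σ ∈ Set.Ioc 0 (|y f| / η')) =
      F.filter (fun f => η' * σ ≤ |y f|) := by
    apply filter_congr
    intro f _
    rw [Set.mem_Ioc, le_div_iff₀ hη', mul_comm σ η']
    exact ⟨fun h => h.2, fun h => ⟨hσpos, h⟩⟩
  have hEsub : E.filter (fun e => σ ∈ Set.Ioc (M e) (-(ysum s y e) / β)) ⊆
      E.filter (fun e => (∀ f ∈ e.powersetCard (s + 1), |y f| ≤ σ) ∧ ysum s y e ≤ - (β * σ)) := by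
    intro e he
    rw [mem_filter] at he ⊢
    refine ⟨he.1, fun f hf => (hM1 e f hf).trans he.2.1.le, ?_⟩
    have h1 := he.2.2
    rw [le_div_iff₀ hβpos] at h1
    linarith
  rw [hFeq] at hσ'
  refine ⟨σ, hσpos, ?_, hσ'.le.trans (by exact_mod_cast card_le_card hEsub)⟩
  -- nonempty
  have he₁ := hEsub (mem_filter.mpr he₀)
  rw [mem_filter] at he₁
  obtain ⟨heE, hbd, hle⟩ := he₁
  have hcard : (e₀.powersetCard (s + 1)).card = s + 2 := by
    rw [hE, mem_powersetCard] at heE
    rw [card_powersetCard, heE.2]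
    exact Nat.choose_succ_self_right (s + 1)
  by_contra hcon
  have hemp : F.filter (fun f => η' * σ ≤ |y f|) = ∅ := by
    rw [← card_eq_zero]; omega
  have hsmall : ∀ f ∈ e₀.powersetCard (s + 1), - (η' * σ) < y f := by
    intro f hf
    have hfF : f ∈ F := by
      rw [hF, mem_powersetCard]
      rw [mem_powersetCard] at hf
      exact ⟨subset_univ _, hf.2⟩
    have : f ∉ F.filter (fun f => η' * σ ≤ |y f|) := by rw [hemp]; exact notMem_empty f
    rw [mem_filter, not_and, not_le] at this
    have h1 := this hfF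
    have h2 := neg_abs_le (y f)
    linarith
  have hne : (e₀.powersetCard (s + 1)).Nonempty := by
    rw [← card_pos, hcard]; omega
  have h3 : ∑ f ∈ e₀.powersetCard (s + 1), (-(η' * σ)) < ysum s y e₀ := by
    rw [ysum_def]
    exact sum_lt_sum_of_nonempty hne hsmall
  rw [sum_const, hcard, nsmul_eq_mul] at h3
  push_cast at h3
  have h4 : η' * (s + 2) * σ ≤ β * σ := mul_le_mul_of_nonneg_right hη'' hσpos.le
  nlinarith

end Pool.Agent.FracK
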