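import Mathlib
import Pool.Agent.Work.MP_1ae8db_pr.Scale
import Pool.Agent.Work.MP_1ae8db_pr.Farkas

/-!
The pseudo-random properties used in the deterministic part.
-/

set_option autoImplicit false

namespace Pool.Agent.FracK

open Finset
open scoped Classical

variable {V : Type*} [Fintype V]

/-- number of members of `U` that contain `g` -/
noncomputable def deg (U : Finset (Finset V)) (g : Finset V) : ℕ :=
  (U.filter (fun f => g ⊆ f)).card

/-- `f` is light in `U` -/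
def Light (s : ℕ) (ε : ℝ) (U : Finset (Finset V)) (f : Finset V) : Prop :=
  ∀ g ∈ f.powersetCard s, (deg U g : ℝ) < ε * (Fintype.card V : ℝ)

/-- the `(s+2)`-sets containing a light member of `U` and another member of `U` -/
noncomputable def QL (s : ℕ) (ε : ℝ) (U : Finset (Finset V)) : Finset (Finset V) :=
  ((univ : Finset V).powersetCard (s + 2)).filter
    (fun e => ∃ f ∈ U, Light s ε U f ∧ f ⊆ e ∧ ∃ f' ∈ U, f' ≠ f ∧ f' ⊆ e)

/-- few edges at light members -/
def P2 (s : ℕ) (ε γ L : ℝ) (Hp : Finset (Finset V)) : Prop :=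
  ∀ U ⊆ (univ : Finset V).powersetCard (s + 1),
    ((Hp ∩ QL s ε U).card : ℝ) ≤ γ * (U.card : ℝ) * L

/-- equal or contained in a common edge -/
def Near (Hp : Finset (Finset V)) (f f' : Finset V) : Prop :=
  f = f' ∨ ∃ e ∈ Hp, f ⊆ e ∧ f' ⊆ e

/-- low degree facets -/
noncomputable def Low (s : ℕ) (γ' L : ℝ) (Hm : Finset (Finset V)) : Finset (Finset V) :=
  ((univ : Finset V).powersetCard (s + 1)).filter
    (fun f => ((Hm.filter (fun e => f ⊆ e)).card : ℝ) ≤ γ' * L)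

/-- low degree facets are far apart -/
def P3 (s : ℕ) (γ' L : ℝ) (Hm Hp : Finset (Finset V)) : Prop :=
  ∀ f₀ ∈ Low s γ' L Hm, ∀ f₄ ∈ Low s γ' L Hm,
    ∀ f₁ ∈ (univ : Finset V).powersetCard (s + 1),
    ∀ f₂ ∈ (univ : Finset V).powersetCard (s + 1),
    ∀ f₃ ∈ (univ : Finset V).powersetCard (s + 1),
    Near Hp f₀ f₁ → Near Hp f₁ f₂ → Near Hp f₂ f₃ → Near Hp f₃ f₄ → f₀ = f₄

/-- integer version of `ysum` -/
def qsum (s : ℕ) (q : Finset V → ℤ) (e : Finset V) : ℤ := ∑ f ∈ e.powersetCard (s + 1), q f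

/-- certified negative edges -/
noncomputable def Qneg (s : ℕ) (q : Finset V → ℤ) : Finset (Finset V) :=
  ((univ : Finset V).powersetCard (s + 2)).filter (fun e => qsum s q e ≤ -(2 * ((s : ℤ) + 2)))

/-- every structured family of certified negative edges meets `Hm` -/
def P1 (s : ℕ) (a : ℤ) (κ ω L : ℝ) (Hm : Finset (Finset V)) : Prop :=
  ∀ G ⊆ (univ : Finset V).powersetCard s, ∀ q : Finset V → ℤ,
    (∀ f, -a ≤ q f ∧ q f ≤ ((s : ℤ) + 2) * a) →
    (∀ f, q f ≠ 0 → f ∈ (univ : Finset V).powersetCard (s + 1) ∧ ∃ g ∈ G, g ⊆ f) →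
    (Qneg s q).Nonempty →
    κ * (Fintype.card V : ℝ) ^ 2 * (G.card : ℝ) ≤ ((Qneg s q).card : ℝ) →
    ω * ((Qneg s q).card : ℝ) * L < (Fintype.card V : ℝ) * ((Hm ∩ Qneg s q).card : ℝ)

end Pool.Agent.FracK
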