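import Mathlib
import Pool.Agent.Work.MP_1ae8db_pr.Defs

/-!
Deterministic part, first half: duality and removal of the low degree facets.
-/

set_option autoImplicit false

namespace Pool.Agent.FracK

open Finset
open scoped Classical

variable {V : Type*} [Fintype V]

omit [Fintype V] in
lemma card_facets {s : ℕ} {e : Finset V} (he : e.card = s + 2) :
    (e.powersetCard (s + 1)).card = s + 2 := by
  rw [card_powersetCard, he]
  exact Nat.choose_succ_self_right (s + 1)

/-- Farkas for the facet-edge system. -/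
lemma exists_violator (s : ℕ) (H : Finset (Finset V))
    (hE : H ⊆ (univ : Finset V).powersetCard (s + 2))
    (h : ¬ ∃ w : Finset V → ℝ, (∀ e, 0 ≤ w e) ∧
      ∀ f ∈ (univ : Finset V).powersetCard (s + 1), ∑ e ∈ H.filter (fun e => f ⊆ e), w e = 1) :
    ∃ y : Finset V → ℝ, (∀ e ∈ H, 0 ≤ ysum s y e) ∧
      ∑ f ∈ (univ : Finset V).powersetCard (s + 1), y f < 0 := by
  set F := (univ : Finset V).powersetCard (s + 1) with hF
  have key := farkas (E := {e // e ∈ H}) (F := {f // f ∈ F})
    (fun e f => if f.1 ⊆ e.1 then (1 : ℝ) else 0) ((s : ℝ) + 2) (by positivity)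
    (fun e => by
      have he := hE e.2
      rw [mem_powersetCard] at he
      rw [sum_boole]
      have h1 : (univ.filter (fun f : {f // f ∈ F} => f.1 ⊆ e.1)).card =
          (e.1.powersetCard (s + 1)).card := by
        refine card_bij (fun f _ => f.1) ?_ ?_ ?_
        · intro f hf
          rw [mem_filter] at hf
          have := mem_powersetCard.mp f.2
          rw [mem_powersetCard]
          exact ⟨hf.2, this.2⟩
        · intro f _ f' _ hff
          exact Subtype.ext hff
        · intro f hf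
          rw [mem_powersetCard] at hf
          refine ⟨⟨f, ?_⟩, ?_, rfl⟩
          · rw [hF, mem_powersetCard]; exact ⟨subset_univ _, hf.2⟩
          · rw [mem_filter]; exact ⟨mem_univ _, hf.1⟩
      rw [h1, card_facets he.2]
      push_cast
      ring)
    (fun _ => 1)
    (by
      rintro ⟨w, hw0, hw⟩
      apply h
      refine ⟨fun e => if he : e ∈ H then w ⟨e, he⟩ else 0, fun e => ?_, fun f hf => ?_⟩
      · show 0 ≤ (if he : e ∈ H then w ⟨e, he⟩ else 0)
        split_ifs with he
        · exact hw0 _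
        · exact le_refl _
      · have h1 := hw ⟨f, hf⟩
        rw [← h1]
        have h2 : ∑ e : {e // e ∈ H}, w e * (if f ⊆ e.1 then (1 : ℝ) else 0) =
            ∑ e ∈ H.attach, (fun e : Finset V =>
              (if he : e ∈ H then w ⟨e, he⟩ else 0) * (if f ⊆ e then (1 : ℝ) else 0)) e.1 := by
          apply sum_congr rfl
          intro e _
          simp only [e.2, dif_pos]
        rw [h2, sum_attach H (fun e : Finset V =>
              (if he : e ∈ H then w ⟨e, he⟩ else 0) * (if f ⊆ e then (1 : ℝ) else 0)), sum_filter]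
        apply sum_congr rfl
        intro e _
        split_ifs <;> simp)
  obtain ⟨y, hy, hneg⟩ := key
  refine ⟨fun f => if hf : f ∈ F then y ⟨f, hf⟩ else 0, fun e he => ?_, ?_⟩
  · have h1 := hy ⟨e, he⟩
    have heE := hE he
    rw [mem_powersetCard] at heE
    have h2 : ysum s (fun f => if hf : f ∈ F then y ⟨f, hf⟩ else 0) e =
        ∑ f : {f // f ∈ F}, (if f.1 ⊆ e then (1 : ℝ) else 0) * y f := by
      have h3 : ∑ f : {f // f ∈ F}, (if f.1 ⊆ e then (1 : ℝ) else 0) * y f =
          ∑ f ∈ F.attach, (fun f : Finset V => (if f ⊆ e then (1 : ℝ) else 0) *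
            (if hf : f ∈ F then y ⟨f, hf⟩ else 0)) f.1 := by
        apply sum_congr rfl
        intro f _
        simp only [f.2, dif_pos]
      rw [h3, sum_attach F (fun f : Finset V => (if f ⊆ e then (1 : ℝ) else 0) *
            (if hf : f ∈ F then y ⟨f, hf⟩ else 0)), ysum_def]
      have h4 : e.powersetCard (s + 1) = F.filter (fun f => f ⊆ e) := by
        ext f
        rw [mem_filter, hF, mem_powersetCard, mem_powersetCard]
        simp only [subset_univ, true_and]
        tauto
      rw [h4, sum_filter]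
      apply sum_congr rfl
      intro f _
      split_ifs <;> simp
    rw [h2]
    exact h1
  · have h5 : ∑ f ∈ F, (if hf : f ∈ F then y ⟨f, hf⟩ else 0) = ∑ f : {f // f ∈ F}, 1 * y f := by
      rw [← sum_attach]
      apply sum_congr rfl
      intro f _
      simp only [f.2, dif_pos, one_mul]
    rw [h5]
    exact hneg

/-- removal of the low degree facets -/
lemma removal (s : ℕ) (γ' L : ℝ) (Hm H Hp : Finset (Finset V))
    (h3 : P3 s γ' L Hm Hp) (hHp : H ⊆ Hp)
    (hE : Hp ⊆ (univ : Finset V).powersetCard (s + 2))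
    (hcov : ∀ f ∈ (univ : Finset V).powersetCard (s + 1), ∃ e ∈ H, f ⊆ e)
    (y : Finset V → ℝ) (hy : ∀ e ∈ H, 0 ≤ ysum s y e)
    (hneg : ∑ f ∈ (univ : Finset V).powersetCard (s + 1), y f < 0) :
    ∃ (R : Finset (Finset V)) (z : Finset V → ℝ),
      Low s γ' L Hm ⊆ R ∧ (∀ f ∈ R, z f = 0) ∧
      (∀ e ∈ H, Disjoint (e.powersetCard (s + 1)) R → 0 ≤ ysum s z e) ∧
      ∑ f ∈ (univ : Finset V).powersetCard (s + 1), z f < 0 ∧
      (∀ f ∈ (univ : Finset V).powersetCard (s + 1), f ∉ R →
        (H.filter (fun e => f ⊆ e ∧ ¬ Disjoint (e.powersetCard (s + 1)) R)).card ≤ s + 2) := by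
  set F := (univ : Finset V).powersetCard (s + 1) with hF
  choose! E0 hE0H hE0 using hcov
  have hLowF : Low s γ' L Hm ⊆ F := filter_subset _ _
  set R := (Low s γ' L Hm).biUnion (fun f => (E0 f).powersetCard (s + 1)) with hR
  have hRF : R ⊆ F := by
    intro r hr
    rw [hR, mem_biUnion] at hr
    obtain ⟨f, _, hr⟩ := hr
    rw [mem_powersetCard] at hr
    rw [hF, mem_powersetCard]
    exact ⟨subset_univ _, hr.2⟩
  have hmemR : ∀ f₀ ∈ Low s γ' L Hm, ∀ r ∈ (E0 f₀).powersetCard (s + 1), r ∈ F := by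
    intro f₀ _ r hr
    rw [mem_powersetCard] at hr
    rw [hF, mem_powersetCard]
    exact ⟨subset_univ _, hr.2⟩
  have hnear : ∀ f₀ ∈ Low s γ' L Hm, ∀ r ∈ (E0 f₀).powersetCard (s + 1), Near Hp f₀ r := by
    intro f₀ hf₀ r hr
    rw [mem_powersetCard] at hr
    exact Or.inr ⟨E0 f₀, hHp (hE0H f₀ (hLowF hf₀)), hE0 f₀ (hLowF hf₀), hr.1⟩
  have hnear' : ∀ f₀ ∈ Low s γ' L Hm, ∀ r ∈ (E0 f₀).powersetCard (s + 1), Near Hp r f₀ := by
    intro f₀ hf₀ r hr
    rw [mem_powersetCard] at hr
    exact Or.inr ⟨E0 f₀, hHp (hE0H f₀ (hLowF hf₀)), hr.1, hE0 f₀ (hLowF hf₀)⟩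
  have hdisj : ∀ f₀ ∈ Low s γ' L Hm, ∀ f₁ ∈ Low s γ' L Hm, f₀ ≠ f₁ →
      Disjoint ((E0 f₀).powersetCard (s + 1)) ((E0 f₁).powersetCard (s + 1)) := by
    intro f₀ hf₀ f₁ hf₁ hne
    rw [disjoint_left]
    intro r hr0 hr1
    apply hne
    exact h3 f₀ hf₀ f₁ hf₁ r (hmemR f₀ hf₀ r hr0) r (hmemR f₀ hf₀ r hr0) r (hmemR f₀ hf₀ r hr0)
      (hnear f₀ hf₀ r hr0) (Or.inl rfl) (Or.inl rfl) (hnear' f₁ hf₁ r hr1)
  refine ⟨R, fun f => if f ∈ R then 0 else y f, ?_, ?_, ?_, ?_, ?_⟩
  · intro f hf
    rw [hR, mem_biUnion]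
    refine ⟨f, hf, ?_⟩
    have h4 := hLowF hf
    have h5 := hE0 f h4
    rw [hF, mem_powersetCard] at h4
    rw [mem_powersetCard]
    exact ⟨h5, h4.2⟩
  · intro f hf
    simp [hf]
  · intro e he hd
    have h6 : ysum s (fun f => if f ∈ R then 0 else y f) e = ysum s y e := by
      rw [ysum_def, ysum_def]
      apply sum_congr rfl
      intro f hf
      rw [if_neg (disjoint_left.mp hd hf)]
    rw [h6]
    exact hy e he
  · have h7 : ∑ f ∈ F, (if f ∈ R then 0 else y f) = ∑ f ∈ F, y f - ∑ f ∈ R, y f := by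
      have h8 : ∑ f ∈ R, y f = ∑ f ∈ F, if f ∈ R then y f else 0 := by
        rw [← sum_filter]
        apply sum_congr _ (fun _ _ => rfl)
        ext f
        rw [mem_filter]
        exact ⟨fun h => ⟨hRF h, h⟩, fun h => h.2⟩
      rw [h8, ← sum_sub_distrib]
      apply sum_congr rfl
      intro f _
      split_ifs <;> simp
    have h9 : 0 ≤ ∑ f ∈ R, y f := by
      rw [hR, sum_biUnion]
      · apply sum_nonneg
        intro f hf
        exact hy _ (hE0H f (hLowF hf))
      · intro f₀ hf₀ f₁ hf₁ hne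
        exact hdisj f₀ hf₀ f₁ hf₁ hne
    rw [h7]
    linarith
  · intro f hf hfR
    rcases (H.filter (fun e => f ⊆ e ∧ ¬ Disjoint (e.powersetCard (s + 1)) R)).eq_empty_or_nonempty
      with h0 | ⟨e₀, he₀⟩
    · rw [h0]; simp
    · rw [mem_filter] at he₀
      obtain ⟨he₀H, hfe₀, hnd⟩ := he₀
      rw [not_disjoint_iff] at hnd
      obtain ⟨r₀, hr₀e, hr₀R⟩ := hnd
      rw [hR, mem_biUnion] at hr₀R
      obtain ⟨f₀, hf₀, hr₀⟩ := hr₀R
      have hE0card : ((E0 f₀).powersetCard (s + 1)).card = s + 2 := by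
        apply card_facets
        have := hE (hHp (hE0H f₀ (hLowF hf₀)))
        rw [mem_powersetCard] at this
        exact this.2
      have hsub : (H.filter (fun e => f ⊆ e ∧ ¬ Disjoint (e.powersetCard (s + 1)) R)) ⊆
          ((E0 f₀).powersetCard (s + 1)).image (fun r => f ∪ r) := by
        intro e he
        rw [mem_filter] at he
        obtain ⟨heH, hfe, hnd⟩ := he
        rw [not_disjoint_iff] at hnd
        obtain ⟨r, hre, hrR⟩ := hnd
        have hrR' := hrR
        rw [hR, mem_biUnion] at hrR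
        obtain ⟨f₁, hf₁, hr⟩ := hrR
        have heq : f₀ = f₁ := by
          refine h3 f₀ hf₀ f₁ hf₁ r₀ (hmemR f₀ hf₀ r₀ hr₀) f hf r (hmemR f₁ hf₁ r hr)
            (hnear f₀ hf₀ r₀ hr₀) ?_ ?_ (hnear' f₁ hf₁ r hr)
          · rw [mem_powersetCard] at hr₀e
            exact Or.inr ⟨e₀, hHp he₀H, hr₀e.1, hfe₀⟩
          · rw [mem_powersetCard] at hre
            exact Or.inr ⟨e, hHp heH, hfe, hre.1⟩
        rw [mem_image]
        refine ⟨r, by rw [heq]; exact hr, ?_⟩
        rw [mem_powersetCard] at hre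
        rw [hF, mem_powersetCard] at hf
        have hec := hE (hHp heH)
        rw [mem_powersetCard] at hec
        apply eq_of_subset_of_card_le (union_subset hfe hre.1)
        rw [hec.2]
        have hne : f ≠ r := fun h => hfR (h ▸ hrR')
        have hss : f ⊂ f ∪ r := by
          refine ⟨subset_union_left, fun h => hne ?_⟩
          have hrf : r ⊆ f := (subset_union_right).trans h
          exact (eq_of_subset_of_card_le hrf (by rw [hf.2, hre.2])).symm
        have := card_lt_card hss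
        omega
      calc _ ≤ _ := card_le_card hsub
        _ ≤ _ := card_image_le
        _ = s + 2 := hE0card

end Pool.Agent.FracK
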