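import Mathlib
import Pool.Agent.Work.MP_1ae8db_pr.DetA

/-!
Deterministic part, second half.
-/

set_option autoImplicit false

namespace Pool.Agent.FracK

open Finset
open scoped Classical

variable {V : Type*} [Fintype V]

/-- few rich ridges -/
lemma card_rich (s : ℕ) (x : ℝ) (U : Finset (Finset V))
    (hU : U ⊆ (univ : Finset V).powersetCard (s + 1)) :
    ((((univ : Finset V).powersetCard s).filter (fun g => x ≤ (deg U g : ℝ))).card : ℝ) * x ≤
      ((s : ℝ) + 1) * (U.card : ℝ) := by
  set G := ((univ : Finset V).powersetCard s).filter (fun g => x ≤ (deg U g : ℝ)) with hG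
  have h1 : (G.card : ℝ) * x ≤ ∑ g ∈ G, (deg U g : ℝ) := by
    rw [← nsmul_eq_mul, ← sum_const]
    apply sum_le_sum
    intro g hg
    rw [hG, mem_filter] at hg
    exact hg.2
  have h2 : ∑ g ∈ G, (deg U g : ℝ) ≤ ∑ g ∈ (univ : Finset V).powersetCard s, (deg U g : ℝ) := by
    apply sum_le_sum_of_subset_of_nonneg (filter_subset _ _)
    intro g _ _
    positivity
  have h3 : ∑ g ∈ (univ : Finset V).powersetCard s, (deg U g : ℝ) = ((s : ℝ) + 1) * (U.card : ℝ) := by
    have h4 : ∀ g ∈ (univ : Finset V).powersetCard s, (deg U g : ℝ) =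
        ∑ f ∈ U, if g ⊆ f then (1 : ℝ) else 0 := by
      intro g _
      rw [sum_boole]
      rfl
    rw [sum_congr rfl h4, sum_comm]
    have h5 : ∀ f ∈ U, ∑ g ∈ (univ : Finset V).powersetCard s, (if g ⊆ f then (1 : ℝ) else 0) =
        (s : ℝ) + 1 := by
      intro f hf
      have hfc := mem_powersetCard.mp (hU hf)
      rw [sum_boole]
      have h6 : ((univ : Finset V).powersetCard s).filter (fun g => g ⊆ f) = f.powersetCard s := by
        ext g
        rw [mem_filter, mem_powersetCard, mem_powersetCard]
        simp only [subset_univ, true_and]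
        tauto
      rw [h6, card_powersetCard, hfc.2, Nat.choose_succ_self_right]
      push_cast
      ring
    rw [sum_congr rfl h5, sum_const, nsmul_eq_mul]
    ring
  linarith

set_option maxHeartbeats 4000000 in
theorem det (s : ℕ) (c β η η' γ' γ ε L : ℝ) (a : ℤ) (Hm H Hp : Finset (Finset V))
    (hn : 2 * s + 3 ≤ Fintype.card V)
    (hc : 0 < c) (hβ : β = c / 6) (hη : η * (4 * ((s : ℝ) + 2)) = β) (hη' : η' * ((s : ℝ) + 2) = η)
    (ha : 1 / η ≤ (a : ℝ)) (hγ' : 0 < γ') (hγ : 0 < γ)
    (hγγ : 4 * ((s : ℝ) + 2) * γ ≤ η' * γ')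
    (_hε : 0 < ε) (hL : 0 < L) (hL1 : 2 * ((s : ℝ) + 2) ≤ γ' * L) (hL2 : (s : ℝ) + 2 ≤ γ * L)
    (hinv : ∀ y : Finset V → ℝ, c * (Fintype.card V : ℝ) *
      ∑ f ∈ (univ : Finset V).powersetCard (s + 1), |y f| ≤
      ∑ e ∈ (univ : Finset V).powersetCard (s + 2), |ysum s y e|)
    (h1 : P1 s a (η' * ε / (2 * ((s : ℝ) + 1))) (4 * γ / η') L Hm)
    (h2 : P2 s ε γ L Hp) (h3 : P3 s γ' L Hm Hp)
    (hmH : Hm ⊆ H) (hHp : H ⊆ Hp)
    (hE : Hp ⊆ (univ : Finset V).powersetCard (s + 2))
    (hcov : ∀ f ∈ (univ : Finset V).powersetCard (s + 1), ∃ e ∈ H, f ⊆ e) :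
    ∃ w : Finset V → ℝ, (∀ e, 0 ≤ w e) ∧
      ∀ f ∈ (univ : Finset V).powersetCard (s + 1), ∑ e ∈ H.filter (fun e => f ⊆ e), w e = 1 := by
  by_contra hcon
  obtain ⟨y, hy, hneg⟩ := exists_violator s H (hHp.trans hE) hcon
  obtain ⟨R, z, hLow, hzR, hzH, hzneg, hR⟩ := removal s γ' L Hm H Hp h3 hHp hE hcov y hy hneg
  have hk : (0 : ℝ) < (s : ℝ) + 2 := by positivity
  have hβpos : 0 < β := by rw [hβ]; positivity
  have hηpos : 0 < η := by
    by_contra h
    push Not at h
    have : η * (4 * ((s : ℝ) + 2)) ≤ 0 := mul_nonpos_of_nonpos_of_nonneg h (by positivity)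
    linarith
  have hη'pos : 0 < η' := by
    by_contra h
    push Not at h
    have : η' * ((s : ℝ) + 2) ≤ 0 := mul_nonpos_of_nonpos_of_nonneg h (by positivity)
    linarith
  have hη'β : η' * ((s : ℝ) + 2) ≤ β := by
    rw [hη', ← hη]
    have : (0 : ℝ) ≤ s := by positivity
    nlinarith
  obtain ⟨σ, hσ, hUpos, hNeg⟩ := scale_select s (by omega) z c β η' hc hβ hη'pos hη'β (hinv z) hzneg
  set n : ℝ := (Fintype.card V : ℝ) with hndef
  have hnpos : 0 < n := by
    have : 0 < Fintype.card V := by omega
    rw [hndef]; exact_mod_cast this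
  set F := (univ : Finset V).powersetCard (s + 1) with hF
  set E := (univ : Finset V).powersetCard (s + 2) with hEdef
  set U := F.filter (fun f => η' * σ ≤ |z f|) with hU
  set Neg := E.filter (fun e => (∀ f ∈ e.powersetCard (s + 1), |z f| ≤ σ) ∧
    ysum s z e ≤ -(β * σ)) with hNegdef
  have hUF : U ⊆ F := filter_subset _ _
  have hUcard : (0 : ℝ) < U.card := by exact_mod_cast hUpos
  set W := U.filter (fun f => ¬ Light s ε U f) with hW
  set G := ((univ : Finset V).powersetCard s).filter (fun g => ε * n ≤ (deg U g : ℝ)) with hG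
  set q : Finset V → ℤ := fun f =>
    if f ∈ W then max (-a) (min ⌈z f / (η * σ)⌉ (((s : ℤ) + 2) * a)) else 0 with hq
  set SLN := U.filter (fun f => Light s ε U f ∧ z f ≤ -(η * σ)) with hSLN
  have hησ : 0 < η * σ := by positivity
  have hη'σ : 0 < η' * σ := by positivity
  have hη'η : η' ≤ η := by
    rw [← hη']
    have : (0 : ℝ) ≤ s := by positivity
    nlinarith
  have hη'ησ : η' * σ ≤ η * σ := mul_le_mul_of_nonneg_right hη'η hσ.le
  have hapos : (0 : ℝ) < a := lt_of_lt_of_le (by positivity) ha
  have haZ : 0 < a := by exact_mod_cast hapos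
  -- zero outside U etc
  have hUR : ∀ f ∈ U, f ∉ R := by
    intro f hf hfR
    rw [hU, mem_filter, hzR f hfR, abs_zero] at hf
    linarith [hf.2]
  have hmemF : ∀ e ∈ E, ∀ f ∈ e.powersetCard (s + 1), f ∈ F := by
    intro e _ f hf
    rw [mem_powersetCard] at hf
    rw [hF, mem_powersetCard]
    exact ⟨subset_univ _, hf.2⟩
  -- (1)
  have hGcard : (G.card : ℝ) * (ε * n) ≤ ((s : ℝ) + 1) * (U.card : ℝ) := card_rich s (ε * n) U hUF
  -- (3)
  have hqb : ∀ f, -a ≤ q f ∧ q f ≤ ((s : ℤ) + 2) * a := by
    intro f
    have h0 : (0 : ℤ) ≤ ((s : ℤ) + 2) * a := by positivity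
    have h0' : -a ≤ ((s : ℤ) + 2) * a := by linarith
    show -a ≤ (if f ∈ W then _ else _) ∧ (if f ∈ W then _ else _) ≤ _
    split_ifs with h
    · exact ⟨le_max_left _ _, max_le h0' (min_le_right _ _)⟩
    · exact ⟨by linarith, h0⟩
  have hqsupp : ∀ f, q f ≠ 0 → f ∈ W := by
    intro f hf
    by_contra h
    apply hf
    show (if f ∈ W then _ else _) = _
    rw [if_neg h]
  have hqsupp' : ∀ f, q f ≠ 0 → f ∈ F ∧ ∃ g ∈ G, g ⊆ f := by
    intro f hf
    have hfW := hqsupp f hf
    rw [hW, mem_filter] at hfW
    refine ⟨hUF hfW.1, ?_⟩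
    have h4 := hfW.2
    unfold Light at h4
    push Not at h4
    obtain ⟨g, hg, hgd⟩ := h4
    rw [mem_powersetCard] at hg
    refine ⟨g, ?_, hg.1⟩
    rw [hG, mem_filter, mem_powersetCard]
    exact ⟨⟨subset_univ _, hg.2⟩, hgd⟩
  -- (4)
  have hSLNcard : (SLN.card : ℝ) ≤ η' / 2 * U.card := by
    set X := Hp ∩ QL s ε U with hX
    have hXcard : (X.card : ℝ) ≤ γ * U.card * L := h2 U hUF
    have hD : ∀ f ∈ SLN, γ' * L - (s + 2) ≤ ((X.filter (fun e => f ⊆ e)).card : ℝ) := by
      intro f hf
      rw [hSLN, mem_filter] at hf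
      obtain ⟨hfU, hlight, hzf⟩ := hf
      have hfR := hUR f hfU
      have hfF := hUF hfU
      have hfLow : f ∉ Low s γ' L Hm := fun h => hfR (hLow h)
      unfold Low at hfLow
      rw [mem_filter, not_and, not_le] at hfLow
      have h5 := hfLow hfF
      have h6 := hR f hfF hfR
      have h7 : Hm.filter (fun e => f ⊆ e) ⊆ (X.filter (fun e => f ⊆ e)) ∪
          (H.filter (fun e => f ⊆ e ∧ ¬ Disjoint (e.powersetCard (s + 1)) R)) := by
        intro e he
        rw [mem_filter] at he
        rw [mem_union]
        by_cases hd : Disjoint (e.powersetCard (s + 1)) R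
        · left
          rw [mem_filter]
          refine ⟨?_, he.2⟩
          have heH := hmH he.1
          have heE : e ∈ E := hE (hHp heH)
          have hye := hzH e heH hd
          rw [hX, mem_inter]
          refine ⟨hHp heH, ?_⟩
          unfold QL
          rw [mem_filter]
          refine ⟨heE, f, hfU, hlight, he.2, ?_⟩
          by_contra hno
          push Not at hno
          have hec := (mem_powersetCard.mp heE).2
          have hfc := (mem_powersetCard.mp hfF).2
          have hfe : f ∈ e.powersetCard (s + 1) := by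
            rw [mem_powersetCard]; exact ⟨he.2, hfc⟩
          have h8 : ysum s z e < 0 := by
            rw [ysum_def, ← add_sum_erase _ _ hfe]
            have h9 : ∑ f' ∈ (e.powersetCard (s + 1)).erase f, z f' ≤
                ∑ f' ∈ (e.powersetCard (s + 1)).erase f, η' * σ := by
              apply sum_le_sum
              intro f' hf'
              rw [mem_erase] at hf'
              have hf'F := hmemF e heE f' hf'.2
              by_contra h10
              push Not at h10
              have hf'U : f' ∈ U := by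
                rw [hU, mem_filter]
                exact ⟨hf'F, h10.le.trans (le_abs_self _)⟩
              exact hno f' hf'U hf'.1 (mem_powersetCard.mp hf'.2).1
            rw [sum_const, card_erase_of_mem hfe, card_facets hec, nsmul_eq_mul] at h9
            have e3 : s + 2 - 1 = s + 1 := by omega
            rw [e3] at h9
            push_cast at h9
            have h11 : η * σ = ((s : ℝ) + 2) * (η' * σ) := by rw [← hη']; ring
            linarith
          linarith
        · right
          rw [mem_filter]
          exact ⟨hmH he.1, he.2, hd⟩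
      have h8 := (card_le_card h7).trans (card_union_le _ _)
      have h9 : ((Hm.filter (fun e => f ⊆ e)).card : ℝ) ≤
          ((X.filter (fun e => f ⊆ e)).card : ℝ) + ((s : ℝ) + 2) := by
        have : ((Hm.filter (fun e => f ⊆ e)).card) ≤
          (X.filter (fun e => f ⊆ e)).card + (s + 2) := h8.trans (by omega)
        exact_mod_cast this
      linarith
    have hsum1 : (SLN.card : ℝ) * (γ' * L - (s + 2)) ≤
        ∑ f ∈ SLN, ((X.filter (fun e => f ⊆ e)).card : ℝ) := by
      rw [← nsmul_eq_mul, ← sum_const]
      exact sum_le_sum hD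
    have hsum2 : ∑ f ∈ SLN, ((X.filter (fun e => f ⊆ e)).card : ℝ) ≤
        (X.card : ℝ) * ((s : ℝ) + 2) := by
      have h5 : ∀ f ∈ SLN, ((X.filter (fun e => f ⊆ e)).card : ℝ) =
          ∑ e ∈ X, if f ⊆ e then (1 : ℝ) else 0 := by
        intro f _; rw [sum_boole]
      rw [sum_congr rfl h5, sum_comm, ← nsmul_eq_mul, ← sum_const]
      apply sum_le_sum
      intro e he
      rw [sum_boole]
      have heE : e ∈ E := hE (mem_inter.mp he).1
      have hec := (mem_powersetCard.mp heE).2
      have h6 : SLN.filter (fun f => f ⊆ e) ⊆ e.powersetCard (s + 1) := by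
        intro f hf
        rw [mem_filter] at hf
        have hfF := hUF (mem_filter.mp hf.1).1
        rw [mem_powersetCard]
        exact ⟨hf.2, (mem_powersetCard.mp hfF).2⟩
      have h7 := card_le_card h6
      rw [card_facets hec] at h7
      exact_mod_cast h7
    have h5 : (SLN.card : ℝ) * (γ' * L / 2) ≤ (SLN.card : ℝ) * (γ' * L - (s + 2)) := by
      apply mul_le_mul_of_nonneg_left _ (by positivity)
      linarith
    have h6 : (SLN.card : ℝ) * (γ' * L / 2) ≤ γ * U.card * L * ((s : ℝ) + 2) := by
      refine h5.trans (hsum1.trans (hsum2.trans ?_))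
      exact mul_le_mul_of_nonneg_right hXcard hk.le
    have h7 : γ * U.card * L * ((s : ℝ) + 2) ≤ η' / 2 * U.card * (γ' * L / 2) := by
      have h8 := mul_le_mul_of_nonneg_right hγγ (by positivity : (0 : ℝ) ≤ U.card * L / 4)
      calc γ * U.card * L * ((s : ℝ) + 2) = 4 * ((s : ℝ) + 2) * γ * (U.card * L / 4) := by ring
        _ ≤ η' * γ' * (U.card * L / 4) := h8
        _ = _ := by ring
    have h8 : 0 < γ' * L / 2 := by positivity
    exact le_of_mul_le_mul_right (h6.trans h7) h8
  -- (5)
  have hNegsub : Neg ⊆ Qneg s q ∪ SLN.biUnion (fun f => E.filter (fun e => f ⊆ e)) := by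
    intro e he
    rw [hNegdef, mem_filter] at he
    obtain ⟨heE, hbd, hle⟩ := he
    rw [mem_union]
    by_cases hex : ∃ f ∈ SLN, f ⊆ e
    · right
      obtain ⟨f, hf, hfe⟩ := hex
      rw [mem_biUnion]
      exact ⟨f, hf, mem_filter.mpr ⟨heE, hfe⟩⟩
    · left
      push Not at hex
      unfold Qneg
      rw [mem_filter]
      refine ⟨heE, ?_⟩
      have hec := (mem_powersetCard.mp heE).2
      have hpt : ∀ f ∈ e.powersetCard (s + 1), (q f : ℝ) ≤ z f / (η * σ) + 1 := by
        intro f hf
        have hfF := hmemF e heE f hf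
        have hfe := (mem_powersetCard.mp hf).1
        have hbf := hbd f hf
        show ((if f ∈ W then max (-a) (min ⌈z f / (η * σ)⌉ (((s : ℤ) + 2) * a)) else 0 : ℤ) : ℝ) ≤ _
        split_ifs with hfW
        · push_cast
          apply max_le
          · have h5 : -(1 / η) ≤ z f / (η * σ) := by
              rw [le_div_iff₀ hησ]
              have h6 : -(1 / η) * (η * σ) = -σ := by field_simp
              rw [h6]
              linarith [neg_abs_le (z f)]
            linarith
          · exact (min_le_left _ _).trans (Int.ceil_lt_add_one _).le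
        · have h5 : -(η * σ) ≤ z f := by
            by_cases hfU : f ∈ U
            · have hlf : Light s ε U f := by
                by_contra h
                exact hfW (mem_filter.mpr ⟨hfU, h⟩)
              by_contra h
              push Not at h
              exact hex f (mem_filter.mpr ⟨hfU, hlf, h.le⟩) hfe
            · have h6 : |z f| < η' * σ := by
                by_contra h
                push Not at h
                exact hfU (mem_filter.mpr ⟨hfF, h⟩)
              linarith [neg_abs_le (z f)]
          have h6 : -1 ≤ z f / (η * σ) := by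
            rw [le_div_iff₀ hησ]; linarith
          push_cast
          linarith
      have h5 : ((qsum s q e : ℤ) : ℝ) ≤ ysum s z e / (η * σ) + ((s : ℝ) + 2) := by
        unfold qsum
        push_cast
        refine (sum_le_sum hpt).trans ?_
        rw [sum_add_distrib, sum_const, card_facets hec, nsmul_eq_mul, ← sum_div, ysum_def]
        push_cast
        linarith
      have h6 : ysum s z e / (η * σ) ≤ -(4 * ((s : ℝ) + 2)) := by
        rw [div_le_iff₀ hησ]
        calc ysum s z e ≤ -(β * σ) := hle
          _ = _ := by rw [← hη]; ring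
      have h7 : ((qsum s q e : ℤ) : ℝ) ≤ ((-(2 * ((s : ℤ) + 2)) : ℤ) : ℝ) := by
        push_cast
        linarith
      exact_mod_cast h7
  have hQcard : η' / 2 * n * U.card ≤ ((Qneg s q).card : ℝ) := by
    have h5 := (card_le_card hNegsub).trans (card_union_le _ _)
    have h6 : ((SLN.biUnion (fun f => E.filter (fun e => f ⊆ e))).card : ℝ) ≤ SLN.card * n := by
      have h7 : (SLN.biUnion (fun f => E.filter (fun e => f ⊆ e))).card ≤
          ∑ f ∈ SLN, (E.filter (fun e => f ⊆ e)).card := card_biUnion_le
      have h8 : ∀ f ∈ SLN, (E.filter (fun e => f ⊆ e)).card ≤ Fintype.card V := by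
        intro f hf
        have hfF := hUF (mem_filter.mp hf).1
        have := card_edges_at s f (mem_powersetCard.mp hfF).2
        have h9 : (E.filter (fun e => f ⊆ e)).card = Fintype.card V - (s + 1) := by
          rw [hEdef]; convert this
        omega
      have h9 := h7.trans (sum_le_sum h8)
      rw [sum_const, smul_eq_mul] at h9
      rw [hndef]
      exact_mod_cast h9
    have h7 : (Neg.card : ℝ) ≤ (Qneg s q).card + SLN.card * n := by
      have h8 : (Neg.card : ℝ) ≤ (Qneg s q).card +
          ((SLN.biUnion (fun f => E.filter (fun e => f ⊆ e))).card : ℝ) := by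
        exact_mod_cast h5
      linarith
    have h8 : (SLN.card : ℝ) * n ≤ η' / 2 * U.card * n :=
      mul_le_mul_of_nonneg_right hSLNcard hnpos.le
    have h9 : η' * n * U.card ≤ Neg.card := hNeg
    linarith
  -- (6)
  have hHQ : ((Hm ∩ Qneg s q).card : ℝ) ≤ 2 * γ * U.card * L := by
    have hsub : Hm ∩ Qneg s q ⊆ (Hp ∩ QL s ε U) ∪
        U.biUnion (fun f => H.filter (fun e => f ⊆ e ∧ ¬ Disjoint (e.powersetCard (s + 1)) R)) := by
      intro e he
      rw [mem_inter] at he
      obtain ⟨heHm, heQ⟩ := he
      have heH := hmH heHm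
      have heE : e ∈ E := hE (hHp heH)
      have hec := (mem_powersetCard.mp heE).2
      unfold Qneg at heQ
      rw [mem_filter] at heQ
      have hqe := heQ.2
      -- some W-facet
      obtain ⟨w, hwe, hwq⟩ : ∃ f ∈ e.powersetCard (s + 1), q f ≠ 0 := by
        by_contra hno
        push Not at hno
        have : qsum s q e = 0 := sum_eq_zero hno
        rw [this] at hqe
        have : (0 : ℤ) ≤ s := by positivity
        linarith
      have hwW := hqsupp w hwq
      have hwU : w ∈ U := (mem_filter.mp hwW).1
      have hwe' := (mem_powersetCard.mp hwe).1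
      rw [mem_union]
      by_cases hd : Disjoint (e.powersetCard (s + 1)) R
      · left
        have hye := hzH e heH hd
        rw [mem_inter]
        refine ⟨hHp heH, ?_⟩
        unfold QL
        rw [mem_filter]
        refine ⟨heE, ?_⟩
        by_contra hno
        push Not at hno
        -- no light member of U in e
        have hnolight : ∀ f ∈ e.powersetCard (s + 1), f ∈ U → f ∈ W := by
          intro f hf hfU
          by_contra hfW
          have hlf : Light s ε U f := by
            by_contra h
            exact hfW (mem_filter.mpr ⟨hfU, h⟩)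
          have hne : w ≠ f := fun h => hfW (h ▸ hwW)
          exact hno f hfU hlf (mem_powersetCard.mp hf).1 w hwU hne hwe'
        have hnotop : ∀ f ∈ e.powersetCard (s + 1), q f < ((s : ℤ) + 2) * a := by
          intro f hf
          by_contra h
          push Not at h
          have h5 : qsum s q e = q f + ∑ f' ∈ (e.powersetCard (s + 1)).erase f, q f' := by
            unfold qsum
            rw [add_sum_erase _ _ hf]
          have h6 : ∑ f' ∈ (e.powersetCard (s + 1)).erase f, (-a) ≤
              ∑ f' ∈ (e.powersetCard (s + 1)).erase f, q f' :=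
            sum_le_sum (fun f' _ => (hqb f').1)
          rw [sum_const, card_erase_of_mem hf, card_facets hec, nsmul_eq_mul] at h6
          have e3 : s + 2 - 1 = s + 1 := by omega
          rw [e3] at h6
          push_cast at h6
          have h7 : (0 : ℤ) ≤ s := by positivity
          nlinarith
        have hpt : ∀ f ∈ e.powersetCard (s + 1), z f / (η * σ) ≤ (q f : ℝ) + 1 := by
          intro f hf
          have hfF := hmemF e heE f hf
          have hnt := hnotop f hf
          by_cases hfW : f ∈ W
          · have hqf : q f = max (-a) (min ⌈z f / (η * σ)⌉ (((s : ℤ) + 2) * a)) := by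
              show (if f ∈ W then _ else _) = _
              rw [if_pos hfW]
            have h5 : ⌈z f / (η * σ)⌉ ≤ q f := by
              rw [hqf] at hnt ⊢
              have h6 : min ⌈z f / (η * σ)⌉ (((s : ℤ) + 2) * a) < ((s : ℤ) + 2) * a :=
                lt_of_le_of_lt (le_max_right _ _) hnt
              have h7 : ⌈z f / (η * σ)⌉ < ((s : ℤ) + 2) * a := by
                rcases min_lt_iff.mp h6 with h | h
                · exact h
                · exact absurd h (lt_irrefl _)
              rw [min_eq_left h7.le]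
              exact le_max_right _ _
            have h6 : z f / (η * σ) ≤ (⌈z f / (η * σ)⌉ : ℝ) := Int.le_ceil _
            have h7 : ((⌈z f / (η * σ)⌉ : ℤ) : ℝ) ≤ (q f : ℝ) := by exact_mod_cast h5
            linarith
          · have hqf : q f = 0 := by
              show (if f ∈ W then _ else _) = _
              rw [if_neg hfW]
            have hfU : f ∉ U := fun h => hfW (hnolight f hf h)
            have h6 : |z f| < η' * σ := by
              by_contra h
              push Not at h
              exact hfU (mem_filter.mpr ⟨hfF, h⟩)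
            rw [hqf, div_le_iff₀ hησ]
            push_cast
            linarith [le_abs_self (z f)]
        have h5 : ysum s z e / (η * σ) ≤ ((qsum s q e : ℤ) : ℝ) + ((s : ℝ) + 2) := by
          rw [ysum_def, sum_div]
          refine (sum_le_sum hpt).trans ?_
          rw [sum_add_distrib, sum_const, card_facets hec, nsmul_eq_mul]
          unfold qsum
          push_cast
          linarith
        have h6 : ((qsum s q e : ℤ) : ℝ) ≤ ((-(2 * ((s : ℤ) + 2)) : ℤ) : ℝ) := by exact_mod_cast hqe
        push_cast at h6
        have h7 : 0 ≤ ysum s z e / (η * σ) := div_nonneg hye hησ.le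
        linarith
      · right
        rw [mem_biUnion]
        exact ⟨w, hwU, mem_filter.mpr ⟨heH, hwe', hd⟩⟩
    have h5 := (card_le_card hsub).trans (card_union_le _ _)
    have h6 : (U.biUnion (fun f => H.filter
        (fun e => f ⊆ e ∧ ¬ Disjoint (e.powersetCard (s + 1)) R))).card ≤ U.card * (s + 2) := by
      refine card_biUnion_le.trans ?_
      rw [← smul_eq_mul, ← sum_const]
      apply sum_le_sum
      intro f hf
      exact hR f (hUF hf) (hUR f hf)
    have h7 : ((Hm ∩ Qneg s q).card : ℝ) ≤ ((Hp ∩ QL s ε U).card : ℝ) + U.card * ((s : ℝ) + 2) := by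
      have : (Hm ∩ Qneg s q).card ≤ (Hp ∩ QL s ε U).card + U.card * (s + 2) := h5.trans (by omega)
      exact_mod_cast this
    have h8 := h2 U hUF
    have h9 : (U.card : ℝ) * ((s : ℝ) + 2) ≤ U.card * (γ * L) :=
      mul_le_mul_of_nonneg_left hL2 hUcard.le
    linarith
  -- (7)
  have hQpos : (0 : ℝ) < (Qneg s q).card := lt_of_lt_of_le (by positivity) hQcard
  have hQne : (Qneg s q).Nonempty := by
    rw [← card_pos]; exact_mod_cast hQpos
  have hκ : η' * ε / (2 * ((s : ℝ) + 1)) * n ^ 2 * (G.card : ℝ) ≤ ((Qneg s q).card : ℝ) := by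
    refine le_trans ?_ hQcard
    have hs1 : (0 : ℝ) < (s : ℝ) + 1 := by positivity
    have h5 := mul_le_mul_of_nonneg_left hGcard (by positivity : 0 ≤ η' * n / (2 * ((s : ℝ) + 1)))
    calc η' * ε / (2 * ((s : ℝ) + 1)) * n ^ 2 * (G.card : ℝ)
        = η' * n / (2 * ((s : ℝ) + 1)) * ((G.card : ℝ) * (ε * n)) := by ring
      _ ≤ η' * n / (2 * ((s : ℝ) + 1)) * (((s : ℝ) + 1) * (U.card : ℝ)) := h5
      _ = _ := by field_simp
  have hfin := h1 G (filter_subset _ _) q hqb hqsupp' hQne hκ
  have h5 : 4 * γ / η' * (η' / 2 * n * U.card) * L ≤ 4 * γ / η' * ((Qneg s q).card : ℝ) * L := by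
    apply mul_le_mul_of_nonneg_right _ hL.le
    exact mul_le_mul_of_nonneg_left hQcard (by positivity)
  have h6 : 4 * γ / η' * (η' / 2 * n * U.card) * L = n * (2 * γ * U.card * L) := by
    field_simp
    ring
  have h7 : n * ((Hm ∩ Qneg s q).card : ℝ) ≤ n * (2 * γ * U.card * L) :=
    mul_le_mul_of_nonneg_left hHQ hnpos.le
  linarith

end Pool.Agent.FracK
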