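import Mathlib

/-!
Counting orderings of a finite set: tail bounds for the uniform random ordering process.
-/

set_option autoImplicit false

namespace Pool.Agent.FracK

open Finset

section Count

set_option linter.unusedSectionVars false

variable {α : Type*} [Fintype α] [DecidableEq α] {T : ℕ}

/-- orderings `σ` such that the position of every `x ∈ X` lies in `S x` -/
def good (S : α → Finset (Fin T)) (X : Finset α) : Finset (Fin T ≃ α) :=
  univ.filter (fun σ => ∀ x ∈ X, σ.symm x ∈ S x)

lemma mem_good {S : α → Finset (Fin T)} {X : Finset α} {σ : Fin T ≃ α} :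
    σ ∈ good S X ↔ ∀ x ∈ X, σ.symm x ∈ S x := by
  simp [good]

lemma step_eq (S : α → Finset (Fin T)) (X : Finset α) (q : α) (hq : q ∉ X) :
    (good S (insert q X)).card * (Fintype.card α - X.card) =
      ∑ σ ∈ good S X, (S q \ X.image σ.symm).card := by
  have h1 : (good S (insert q X)).card * (Fintype.card α - X.card) =
      ((good S (insert q X)) ×ˢ (univ \ X)).card := by
    rw [card_product, card_sdiff_of_subset (subset_univ X), card_univ]
  rw [h1, ← card_sigma]
  refine card_bij'
    (fun p _ => (⟨p.1.trans (Equiv.swap q p.2), p.1.symm q⟩ : Σ _ : Fin T ≃ α, Fin T))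
    (fun p _ => ((p.1.trans (Equiv.swap q (p.1 p.2)), p.1 p.2) : (Fin T ≃ α) × α))
    ?_ ?_ ?_ ?_
  · rintro ⟨σ, r⟩ hp
    simp only [mem_product, mem_good, mem_insert, forall_eq_or_imp, mem_sdiff, mem_univ,
      true_and] at hp
    obtain ⟨⟨hq', hX⟩, hr⟩ := hp
    have key : ∀ x ∈ X, (σ.trans (Equiv.swap q r)).symm x = σ.symm x := by
      intro x hx
      have hxq : x ≠ q := fun h => hq (h ▸ hx)
      have hxr : x ≠ r := fun h => hr (h ▸ hx)
      show σ.symm ((Equiv.swap q r).symm x) = _
      rw [Equiv.symm_swap, Equiv.swap_apply_of_ne_of_ne hxq hxr]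
    simp only [mem_sigma, mem_good, mem_sdiff, mem_image, not_exists, not_and]
    refine ⟨fun x hx => by rw [key x hx]; exact hX x hx, hq', ?_⟩
    intro x hx h
    rw [key x hx] at h
    exact hq ((σ.symm.injective h) ▸ hx)
  · rintro ⟨σ, j⟩ hp
    simp only [mem_sigma, mem_good, mem_sdiff, mem_image, not_exists, not_and] at hp
    obtain ⟨hX, hj, hj'⟩ := hp
    have hr : σ j ∉ X := fun h => hj' _ h (by simp)
    simp only [mem_product, mem_good, mem_insert, forall_eq_or_imp, mem_sdiff, mem_univ,
      true_and]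
    refine ⟨⟨?_, ?_⟩, hr⟩
    · show σ.symm ((Equiv.swap q (σ j)).symm q) ∈ _
      rw [Equiv.symm_swap, Equiv.swap_apply_left]
      simpa using hj
    · intro x hx
      have hxq : x ≠ q := fun h => hq (h ▸ hx)
      have hxr : x ≠ σ j := fun h => hr (h ▸ hx)
      show σ.symm ((Equiv.swap q (σ j)).symm x) ∈ _
      rw [Equiv.symm_swap, Equiv.swap_apply_of_ne_of_ne hxq hxr]
      exact hX x hx
  · rintro ⟨σ, r⟩ _
    simp only [Equiv.trans_apply, Equiv.apply_symm_apply, Equiv.swap_apply_left, Prod.mk.injEq,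
      and_true]
    ext i
    simp
  · rintro ⟨σ, j⟩ _
    have h1 : (σ.trans (Equiv.swap q (σ j))).symm q = j := by
      show σ.symm ((Equiv.swap q (σ j)).symm q) = _
      rw [Equiv.symm_swap, Equiv.swap_apply_left]
      simp
    have h2 : (σ.trans (Equiv.swap q (σ j))).trans (Equiv.swap q (σ j)) = σ := by
      ext i
      simp
    simp only [h1, h2]

/-- the set of elements that appear before time `t` -/
def early (σ : Fin T ≃ α) (t : ℕ) : Finset α := univ.filter (fun a => (σ.symm a).val < t)

lemma mem_early {σ : Fin T ≃ α} {t : ℕ} {a : α} : a ∈ early σ t ↔ (σ.symm a).val < t := by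
  simp [early]

lemma early_mono (σ : Fin T ≃ α) {t t' : ℕ} (h : t ≤ t') : early σ t ⊆ early σ t' := by
  intro a ha
  rw [mem_early] at *
  omega

/-- the set of orderings satisfying `P` -/
noncomputable def evt (P : (Fin T ≃ α) → Prop) : Finset (Fin T ≃ α) :=
  @Finset.filter _ P (Classical.decPred P) univ

lemma mem_evt {P : (Fin T ≃ α) → Prop} {σ : Fin T ≃ α} : σ ∈ evt P ↔ P σ := by
  classical
  unfold evt
  simp

/-- the probability of an event for a uniformly random ordering -/
noncomputable def prob (P : (Fin T ≃ α) → Prop) : ℝ :=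
  ((evt P).card : ℝ) / (Fintype.card (Fin T ≃ α) : ℝ)

lemma prob_nonneg (P : (Fin T ≃ α) → Prop) : 0 ≤ prob P := by
  unfold prob; positivity

lemma prob_mono {P Q : (Fin T ≃ α) → Prop} (h : ∀ σ, P σ → Q σ) : prob P ≤ prob Q := by
  unfold prob
  gcongr
  intro σ hσ
  rw [mem_evt] at *
  exact h _ hσ

lemma card_omega (hT : Fintype.card α = T) : 0 < (Fintype.card (Fin T ≃ α) : ℝ) := by
  have : Nonempty (Fin T ≃ α) := ⟨(Fintype.equivFinOfCardEq hT).symm⟩
  have := Fintype.card_pos (α := Fin T ≃ α)
  exact_mod_cast this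

lemma prob_true (hT : Fintype.card α = T) : prob (fun _ : Fin T ≃ α => True) = 1 := by
  unfold prob
  have : (evt (fun _ : Fin T ≃ α => True)) = univ := by
    ext σ; simp [mem_evt]
  rw [this, card_univ]
  exact div_self (card_omega hT).ne'

lemma prob_not (hT : Fintype.card α = T) (P : (Fin T ≃ α) → Prop) :
    prob (fun σ => ¬ P σ) = 1 - prob P := by
  have h : (evt (fun σ => ¬ P σ)) = (evt P)ᶜ := by
    ext σ; simp [mem_evt]
  unfold prob
  rw [h, card_compl, Nat.cast_sub (card_le_univ _), sub_div, div_self (card_omega hT).ne']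

lemma prob_or_le (P Q : (Fin T ≃ α) → Prop) :
    prob (fun σ => P σ ∨ Q σ) ≤ prob P + prob Q := by
  unfold prob
  rw [← add_div]
  gcongr
  have : (evt (fun σ => P σ ∨ Q σ)) ⊆ (evt P) ∪ (evt Q) := by
    intro σ hσ
    rw [mem_union]
    simpa [mem_evt] using hσ
  have h2 := (card_le_card this).trans (card_union_le _ _)
  exact_mod_cast h2

lemma prob_exists_le {ι : Type*} (I : Finset ι) (P : ι → (Fin T ≃ α) → Prop) :
    prob (fun σ => ∃ i ∈ I, P i σ) ≤ ∑ i ∈ I, prob (P i) := by
  unfold prob
  rw [← sum_div]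
  gcongr
  have : (evt (fun σ => ∃ i ∈ I, P i σ)) ⊆ I.biUnion (fun i => evt (P i)) := by
    intro σ hσ
    rw [mem_biUnion]
    simpa [mem_evt] using hσ
  have h2 := (card_le_card this).trans card_biUnion_le
  exact_mod_cast h2

lemma card_ltset (t : ℕ) (ht : t ≤ T) :
    (univ.filter (fun i : Fin T => i.val < t)).card = t := by
  rcases Nat.lt_or_ge t T with h | h
  · have : (univ.filter (fun i : Fin T => i.val < t)) = Finset.Iio (⟨t, h⟩ : Fin T) := by
      ext i; simp [Fin.lt_def]
    rw [this, Fin.card_Iio]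
  · have : t = T := le_antisymm ht h
    subst this
    rw [filter_true_of_mem (by intro i _; exact i.isLt)]
    simp

lemma card_geset (t : ℕ) (ht : t ≤ T) :
    (univ.filter (fun i : Fin T => t ≤ i.val)).card = T - t := by
  have h := card_filter_add_card_filter_not (s := (univ : Finset (Fin T))) (fun i => i.val < t)
  rw [card_ltset t ht] at h
  simp only [not_lt, card_univ, Fintype.card_fin] at h
  omega

/-- upper bound on the number of orderings with `A` early and `Q` late -/
lemma card_good_le (hT : Fintype.card α = T) {tp : ℕ} (htp : tp ≤ T)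
    (S : α → Finset (Fin T)) (A : Finset α)
    (hSA : ∀ a ∈ A, S a = univ.filter (fun i : Fin T => i.val < tp)) :
    ∀ A' ⊆ A, ((good S A').card : ℝ) ≤
      ((tp : ℝ) / T) ^ A'.card * (Fintype.card (Fin T ≃ α) : ℝ) := by
  intro A' hA'
  induction A' using Finset.induction_on with
  | empty => simp [good]
  | insert a A' ha ih =>
    have hA'' : A' ⊆ A := (subset_insert _ _).trans hA'
    have haA : a ∈ A := hA' (mem_insert_self _ _)
    have ih' := ih hA''
    have hstep := step_eq S A' a ha
    have hcard : A'.card < T := by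
      rw [← hT]
      have := card_lt_card (ssubset_insert ha)
      exact lt_of_lt_of_le this (card_le_univ _)
    have hle : ∀ σ ∈ good S A', ((S a \ A'.image σ.symm).card : ℝ) ≤
        (tp : ℝ) / T * ((T : ℝ) - A'.card) := by
      intro σ hσ
      rw [mem_good] at hσ
      have hsub : A'.image σ.symm ⊆ S a := by
        intro i hi
        rw [mem_image] at hi
        obtain ⟨x, hx, rfl⟩ := hi
        have := hσ x hx
        rw [hSA x (hA'' hx)] at this
        rw [hSA a haA]; exact this
      rw [card_sdiff_of_subset hsub, card_image_of_injective _ σ.symm.injective, hSA a haA,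
        card_ltset tp htp]
      have hle2 : A'.card ≤ tp := by
        have := card_le_card hsub
        rwa [card_image_of_injective _ σ.symm.injective, hSA a haA, card_ltset tp htp] at this
      rw [Nat.cast_sub hle2]
      have hTpos : (0 : ℝ) < T := by
        have : 0 < T := by omega
        exact_mod_cast this
      have htp' : (tp : ℝ) ≤ T := by exact_mod_cast htp
      have hA0 : (0 : ℝ) ≤ A'.card := by positivity
      rw [div_mul_eq_mul_div, le_div_iff₀ hTpos]
      nlinarith
    have hsum : ((good S (insert a A')).card : ℝ) * ((T : ℝ) - A'.card) ≤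
        ((good S A').card : ℝ) * ((tp : ℝ) / T * ((T : ℝ) - A'.card)) := by
      have h1 : (((good S (insert a A')).card * (Fintype.card α - A'.card) : ℕ) : ℝ) =
          ((good S (insert a A')).card : ℝ) * ((T : ℝ) - A'.card) := by
        rw [hT]
        push_cast [Nat.cast_sub hcard.le]
        ring
      rw [← h1, hstep]
      push_cast
      calc ∑ σ ∈ good S A', ((S a \ A'.image σ.symm).card : ℝ)
          ≤ ∑ σ ∈ good S A', ((tp : ℝ) / T * ((T : ℝ) - A'.card)) := sum_le_sum hle
        _ = _ := by rw [sum_const, nsmul_eq_mul]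
    have hpos : (0 : ℝ) < (T : ℝ) - A'.card := by
      have : (A'.card : ℝ) < T := by exact_mod_cast hcard
      linarith
    have h3 : ((good S (insert a A')).card : ℝ) ≤ ((good S A').card : ℝ) * ((tp : ℝ) / T) := by
      rw [← mul_assoc] at hsum
      exact le_of_mul_le_mul_right hsum hpos
    rw [card_insert_of_notMem ha, pow_succ]
    calc ((good S (insert a A')).card : ℝ) ≤ ((good S A').card : ℝ) * ((tp : ℝ) / T) := h3
      _ ≤ (((tp : ℝ) / T) ^ A'.card * (Fintype.card (Fin T ≃ α) : ℝ)) * ((tp : ℝ) / T) := by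
          gcongr
      _ = _ := by ring

lemma card_good_union_le (hT : Fintype.card α = T) {tm : ℕ} (htm : tm ≤ T)
    (S : α → Finset (Fin T)) (A Q : Finset α) (hAQ : Disjoint A Q) (hA : A.card ≤ tm)
    (hAT : A.card < T)
    (hSQ : ∀ q ∈ Q, S q = univ.filter (fun i : Fin T => tm ≤ i.val)) :
    ∀ Q' ⊆ Q, ((good S (A ∪ Q')).card : ℝ) ≤
      (((T : ℝ) - tm) / ((T : ℝ) - A.card)) ^ Q'.card * ((good S A).card : ℝ) := by
  intro Q' hQ'
  have hTA : (0 : ℝ) < (T : ℝ) - A.card := by
    have : (A.card : ℝ) < T := by exact_mod_cast hAT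
    linarith
  have htm' : (tm : ℝ) ≤ T := by exact_mod_cast htm
  have hA' : (A.card : ℝ) ≤ tm := by exact_mod_cast hA
  induction Q' using Finset.induction_on with
  | empty => simp
  | insert q Q' hq ih =>
    have hQ'' : Q' ⊆ Q := (subset_insert _ _).trans hQ'
    have hqQ : q ∈ Q := hQ' (mem_insert_self _ _)
    have ih' := ih hQ''
    have hqA : q ∉ A := fun h => (disjoint_left.mp hAQ h) hqQ
    have hqX : q ∉ A ∪ Q' := by simp [hqA, hq]
    have hdisj : Disjoint A Q' := disjoint_of_subset_right hQ'' hAQ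
    have hXcard : (A ∪ Q').card = A.card + Q'.card := card_union_of_disjoint hdisj
    have hstep := step_eq S (A ∪ Q') q hqX
    rw [← union_insert] at hstep
    have hcard : A.card + Q'.card < T := by
      rw [← hT, ← hXcard]
      have := card_lt_card (ssubset_insert hqX)
      exact lt_of_lt_of_le this (card_le_univ _)
    have hle : ∀ σ ∈ good S (A ∪ Q'), ((S q \ (A ∪ Q').image σ.symm).card : ℝ) ≤
        ((T : ℝ) - tm) / ((T : ℝ) - A.card) * ((T : ℝ) - A.card - Q'.card) := by
      intro σ hσ
      rw [mem_good] at hσ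
      have hsub : Q'.image σ.symm ⊆ S q := by
        intro i hi
        rw [mem_image] at hi
        obtain ⟨x, hx, rfl⟩ := hi
        have := hσ x (mem_union_right _ hx)
        rw [hSQ x (hQ'' hx)] at this
        rw [hSQ q hqQ]; exact this
      have h1 : (S q \ (A ∪ Q').image σ.symm).card ≤ (S q \ Q'.image σ.symm).card := by
        apply card_le_card
        apply sdiff_subset_sdiff (subset_refl _)
        apply image_subset_image
        exact subset_union_right
      rw [card_sdiff_of_subset hsub, card_image_of_injective _ σ.symm.injective, hSQ q hqQ,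
        card_geset tm htm] at h1
      have hle2 : Q'.card ≤ T - tm := by
        have := card_le_card hsub
        rwa [card_image_of_injective _ σ.symm.injective, hSQ q hqQ, card_geset tm htm] at this
      have h2 : ((S q \ (A ∪ Q').image σ.symm).card : ℝ) ≤ ((T - tm - Q'.card : ℕ) : ℝ) := by
        rw [hSQ q hqQ]
        exact_mod_cast h1
      rw [Nat.cast_sub hle2, Nat.cast_sub htm] at h2
      refine h2.trans ?_
      have hQ0 : (0 : ℝ) ≤ Q'.card := by positivity
      rw [div_mul_eq_mul_div, le_div_iff₀ hTA]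
      nlinarith
    have hsum : ((good S (A ∪ insert q Q')).card : ℝ) * ((T : ℝ) - A.card - Q'.card) ≤
        ((good S (A ∪ Q')).card : ℝ) *
          (((T : ℝ) - tm) / ((T : ℝ) - A.card) * ((T : ℝ) - A.card - Q'.card)) := by
      have h1 : (((good S (A ∪ insert q Q')).card * (Fintype.card α - (A ∪ Q').card) : ℕ) : ℝ) =
          ((good S (A ∪ insert q Q')).card : ℝ) * ((T : ℝ) - A.card - Q'.card) := by
        rw [hT, hXcard]
        push_cast [Nat.cast_sub hcard.le]
        ring
      rw [← h1, hstep]
      push_cast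
      calc ∑ σ ∈ good S (A ∪ Q'), ((S q \ (A ∪ Q').image σ.symm).card : ℝ)
          ≤ ∑ σ ∈ good S (A ∪ Q'),
            (((T : ℝ) - tm) / ((T : ℝ) - A.card) * ((T : ℝ) - A.card - Q'.card)) :=
              sum_le_sum hle
        _ = _ := by rw [sum_const, nsmul_eq_mul]
    have hpos : (0 : ℝ) < (T : ℝ) - A.card - Q'.card := by
      have : ((A.card + Q'.card : ℕ) : ℝ) < T := by exact_mod_cast hcard
      push_cast at this
      linarith
    have h3 : ((good S (A ∪ insert q Q')).card : ℝ) ≤
        ((good S (A ∪ Q')).card : ℝ) * (((T : ℝ) - tm) / ((T : ℝ) - A.card)) := by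
      rw [← mul_assoc] at hsum
      exact le_of_mul_le_mul_right hsum hpos
    rw [card_insert_of_notMem hq, pow_succ]
    have hr0 : 0 ≤ ((T : ℝ) - tm) / ((T : ℝ) - A.card) := by
      apply div_nonneg _ hTA.le
      linarith
    calc ((good S (A ∪ insert q Q')).card : ℝ)
        ≤ ((good S (A ∪ Q')).card : ℝ) * (((T : ℝ) - tm) / ((T : ℝ) - A.card)) := h3
      _ ≤ ((((T : ℝ) - tm) / ((T : ℝ) - A.card)) ^ Q'.card * ((good S A).card : ℝ)) *
            (((T : ℝ) - tm) / ((T : ℝ) - A.card)) := by
          gcongr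
      _ = _ := by ring

/-- exact number of orderings with `Q` late -/
lemma card_good_late (hT : Fintype.card α = T) {t : ℕ} (ht : t ≤ T)
    (Q : Finset α) (hQ : Q.card ≤ T - t) :
    ((good (fun _ => univ.filter (fun i : Fin T => t ≤ i.val)) Q).card : ℝ) =
      (∏ i ∈ range Q.card, (((T : ℝ) - t - i) / ((T : ℝ) - i))) *
        (Fintype.card (Fin T ≃ α) : ℝ) := by
  induction Q using Finset.induction_on with
  | empty => simp [good]
  | insert q Q hq ih =>
    rw [card_insert_of_notMem hq] at hQ
    have ih' := ih (by omega)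
    set S : α → Finset (Fin T) := fun _ => univ.filter (fun i : Fin T => t ≤ i.val) with hS
    have hstep := step_eq S Q q hq
    have hcard : Q.card < T := by
      rw [← hT]
      exact lt_of_lt_of_le (card_lt_card (ssubset_insert hq)) (card_le_univ _)
    have hle : ∀ σ ∈ good S Q, ((S q \ Q.image σ.symm).card : ℝ) = (T : ℝ) - t - Q.card := by
      intro σ hσ
      rw [mem_good] at hσ
      have hsub : Q.image σ.symm ⊆ S q := by
        intro i hi
        rw [mem_image] at hi
        obtain ⟨x, hx, rfl⟩ := hi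
        exact hσ x hx
      rw [card_sdiff_of_subset hsub, card_image_of_injective _ σ.symm.injective]
      simp only [hS]
      rw [card_geset t ht, Nat.cast_sub (by omega), Nat.cast_sub ht]
    have h1 : (((good S (insert q Q)).card * (Fintype.card α - Q.card) : ℕ) : ℝ) =
        ((good S (insert q Q)).card : ℝ) * ((T : ℝ) - Q.card) := by
      rw [hT]
      push_cast [Nat.cast_sub hcard.le]
      ring
    have h2 : ((good S (insert q Q)).card : ℝ) * ((T : ℝ) - Q.card) =
        ((good S Q).card : ℝ) * ((T : ℝ) - t - Q.card) := by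
      rw [← h1, hstep]
      push_cast
      rw [sum_congr rfl hle, sum_const, nsmul_eq_mul]
    have hpos : (0 : ℝ) < (T : ℝ) - Q.card := by
      have : (Q.card : ℝ) < T := by exact_mod_cast hcard
      linarith
    rw [card_insert_of_notMem hq, prod_range_succ]
    rw [ih'] at h2
    have h4 : ((good S (insert q Q)).card : ℝ) =
      ((∏ i ∈ range Q.card, (((T : ℝ) - t - i) / ((T : ℝ) - i))) *
        (Fintype.card (Fin T ≃ α) : ℝ)) * ((T : ℝ) - t - Q.card) / ((T : ℝ) - Q.card) := by
      rw [eq_div_iff hpos.ne']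
      exact h2
    rw [h4]
    ring

lemma prob_late_eq (hT : Fintype.card α = T) {t : ℕ} (ht : t ≤ T)
    (Q : Finset α) (hQ : Q.card ≤ T - t) :
    prob (fun σ : Fin T ≃ α => Disjoint Q (early σ t)) =
      ∏ i ∈ range Q.card, (((T : ℝ) - t - i) / ((T : ℝ) - i)) := by
  classical
  have h := card_good_late hT ht Q hQ
  have h2 : (evt (fun σ : Fin T ≃ α => Disjoint Q (early σ t))) =
      good (fun _ => univ.filter (fun i : Fin T => t ≤ i.val)) Q := by
    ext σ
    simp only [mem_evt, mem_filter, mem_univ, true_and, mem_good, disjoint_left, mem_early, not_lt]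
  unfold prob
  rw [h2, h, mul_div_assoc, div_self (card_omega hT).ne', mul_one]

/-- joint bound: `A` early (before `tp`) and `Q` late (not before `tm`) -/
lemma prob_early_late_le (hT : Fintype.card α = T) {tp tm : ℕ} (htp : tp ≤ T) (htm : tm ≤ T)
    (A Q : Finset α) (hAQ : Disjoint A Q) (hA : A.card ≤ tm) (hAT : A.card < T) :
    prob (fun σ : Fin T ≃ α => A ⊆ early σ tp ∧ Disjoint Q (early σ tm)) ≤
      ((tp : ℝ) / T) ^ A.card * (((T : ℝ) - tm) / ((T : ℝ) - A.card)) ^ Q.card := by
  classical
  set S : α → Finset (Fin T) := fun a =>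
    if a ∈ A then univ.filter (fun i : Fin T => i.val < tp)
    else univ.filter (fun i : Fin T => tm ≤ i.val) with hS
  have hSA : ∀ a ∈ A, S a = univ.filter (fun i : Fin T => i.val < tp) := by
    intro a ha
    simp [hS, ha]
  have hSQ : ∀ q ∈ Q, S q = univ.filter (fun i : Fin T => tm ≤ i.val) := by
    intro q hq
    have : q ∉ A := fun h => (disjoint_left.mp hAQ h) hq
    simp [hS, this]
  have h2 : (evt (fun σ : Fin T ≃ α => A ⊆ early σ tp ∧ Disjoint Q (early σ tm))) ⊆
      good S (A ∪ Q) := by
    intro σ hσ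
    rw [mem_evt] at hσ
    rw [mem_good]
    intro x hx
    rw [mem_union] at hx
    rcases hx with hx | hx
    · rw [hSA x hx]
      simp only [mem_filter, mem_univ, true_and]
      exact mem_early.mp (hσ.1 hx)
    · rw [hSQ x hx]
      simp only [mem_filter, mem_univ, true_and]
      have := disjoint_left.mp hσ.2 hx
      rw [mem_early] at this
      omega
  have h3 := card_good_le hT htp S A hSA A (subset_refl _)
  have h4 := card_good_union_le hT htm S A Q hAQ hA hAT hSQ Q (subset_refl _)
  have hpos := card_omega (α := α) hT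
  unfold prob
  rw [div_le_iff₀ hpos]
  have h5 : ((evt (fun σ : Fin T ≃ α =>
      A ⊆ early σ tp ∧ Disjoint Q (early σ tm))).card : ℝ) ≤ ((good S (A ∪ Q)).card : ℝ) := by
    exact_mod_cast card_le_card h2
  refine h5.trans (h4.trans ?_)
  have hr0 : 0 ≤ (((T : ℝ) - tm) / ((T : ℝ) - A.card)) ^ Q.card := by
    apply pow_nonneg
    apply div_nonneg
    · have : (tm : ℝ) ≤ T := by exact_mod_cast htm
      linarith
    · have : (A.card : ℝ) < T := by exact_mod_cast hAT
      linarith
  calc _ ≤ (((T : ℝ) - tm) / ((T : ℝ) - A.card)) ^ Q.card *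
        (((tp : ℝ) / T) ^ A.card * (Fintype.card (Fin T ≃ α) : ℝ)) := by
        gcongr
    _ = _ := by ring

lemma prob_early_le (hT : Fintype.card α = T) {tp : ℕ} (htp : tp ≤ T) (A : Finset α) :
    prob (fun σ : Fin T ≃ α => A ⊆ early σ tp) ≤ ((tp : ℝ) / T) ^ A.card := by
  set S : α → Finset (Fin T) := fun _ => univ.filter (fun i : Fin T => i.val < tp) with hS
  have h2 : (evt (fun σ : Fin T ≃ α => A ⊆ early σ tp)) = good S A := by
    ext σ
    rw [mem_evt, mem_good]
    constructor
    · intro h x hx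
      simp only [hS, mem_filter, mem_univ, true_and]
      exact mem_early.mp (h hx)
    · intro h x hx
      have := h x hx
      simp only [hS, mem_filter, mem_univ, true_and] at this
      exact mem_early.mpr this
  have h3 := card_good_le hT htp S A (fun _ _ => rfl) A (subset_refl _)
  have hpos := card_omega (α := α) hT
  unfold prob
  rw [div_le_iff₀ hpos, h2]
  exact h3

lemma prob_inter_ge (hT : Fintype.card α = T) {tp : ℕ} (htp : tp ≤ T) (Q : Finset α) (x : ℕ) :
    prob (fun σ : Fin T ≃ α => x ≤ (Q ∩ early σ tp).card) ≤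
      (Q.card.choose x : ℝ) * ((tp : ℝ) / T) ^ x := by
  have h1 : prob (fun σ : Fin T ≃ α => x ≤ (Q ∩ early σ tp).card) ≤
      prob (fun σ : Fin T ≃ α => ∃ A ∈ Q.powersetCard x, A ⊆ early σ tp) := by
    apply prob_mono
    intro σ hσ
    obtain ⟨A, hA, hAc⟩ := exists_subset_card_eq hσ
    refine ⟨A, ?_, hA.trans inter_subset_right⟩
    rw [mem_powersetCard]
    exact ⟨hA.trans inter_subset_left, hAc⟩
  refine h1.trans ((prob_exists_le _ _).trans ?_)
  calc ∑ A ∈ Q.powersetCard x, prob (fun σ : Fin T ≃ α => A ⊆ early σ tp)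
      ≤ ∑ A ∈ Q.powersetCard x, ((tp : ℝ) / T) ^ x := by
        apply sum_le_sum
        intro A hA
        rw [mem_powersetCard] at hA
        have := prob_early_le hT htp A
        rwa [hA.2] at this
    _ = _ := by rw [sum_const, card_powersetCard, nsmul_eq_mul]

lemma prob_eq_sum (P : (Fin T ≃ α) → Prop) [DecidablePred P] :
    prob P = (∑ σ : Fin T ≃ α, if P σ then (1 : ℝ) else 0) / (Fintype.card (Fin T ≃ α) : ℝ) := by
  unfold prob
  congr 1
  rw [sum_boole]
  congr 2
  ext σ
  simp [mem_evt]

/-- lower tail: joint with an early set -/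
lemma prob_inter_le (hT : Fintype.card α = T) {tp tm : ℕ} (htp : tp ≤ T) (htm : tm ≤ T)
    (A Q : Finset α) (hAQ : Disjoint A Q) (hA : A.card ≤ tm) (hAT : A.card < T)
    (x : ℕ) (lam : ℝ) (hl0 : 0 < lam) (hl1 : lam ≤ 1) :
    prob (fun σ : Fin T ≃ α => A ⊆ early σ tp ∧ (Q ∩ early σ tm).card ≤ x) ≤
      (lam⁻¹) ^ x * (((tp : ℝ) / T) ^ A.card *
        (lam + (1 - lam) * (((T : ℝ) - tm) / ((T : ℝ) - A.card))) ^ Q.card) := by
  classical
  set ρ : ℝ := ((T : ℝ) - tm) / ((T : ℝ) - A.card) with hρ
  have hpos := card_omega (α := α) hT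
  -- pointwise
  have hpt : ∀ σ : Fin T ≃ α, lam ^ x *
      (if (A ⊆ early σ tp ∧ (Q ∩ early σ tm).card ≤ x) then (1 : ℝ) else 0) ≤
      ∑ Q' ∈ Q.powerset, ((1 - lam) ^ Q'.card * lam ^ (Q.card - Q'.card)) *
        (if (A ⊆ early σ tp ∧ Disjoint Q' (early σ tm)) then (1 : ℝ) else 0) := by
    intro σ
    by_cases hAs : A ⊆ early σ tp
    · have hprod : ∏ q ∈ Q, ((1 - lam) * (if q ∉ early σ tm then (1 : ℝ) else 0) + lam) =
          lam ^ (Q ∩ early σ tm).card := by
        rw [← prod_filter_mul_prod_filter_not Q (fun q => q ∈ early σ tm)]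
        have h1 : ∏ q ∈ Q.filter (fun q => q ∈ early σ tm),
            ((1 - lam) * (if q ∉ early σ tm then (1 : ℝ) else 0) + lam) =
            lam ^ (Q ∩ early σ tm).card := by
          rw [filter_mem_eq_inter]
          rw [prod_congr rfl (g := fun _ => lam)]
          · rw [prod_const]
          · intro q hq
            rw [mem_inter] at hq
            simp [hq.2]
        have h2 : ∏ q ∈ Q.filter (fun q => ¬ q ∈ early σ tm),
            ((1 - lam) * (if q ∉ early σ tm then (1 : ℝ) else 0) + lam) = 1 := by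
          apply prod_eq_one
          intro q hq
          rw [mem_filter] at hq
          simp [hq.2]
        rw [h1, h2, mul_one]
      have hexp : ∏ q ∈ Q, ((1 - lam) * (if q ∉ early σ tm then (1 : ℝ) else 0) + lam) =
          ∑ Q' ∈ Q.powerset, ((1 - lam) ^ Q'.card * lam ^ (Q.card - Q'.card)) *
            (if (A ⊆ early σ tp ∧ Disjoint Q' (early σ tm)) then (1 : ℝ) else 0) := by
        rw [prod_add]
        apply sum_congr rfl
        intro Q' hQ'
        rw [mem_powerset] at hQ'
        rw [prod_mul_distrib, prod_const, prod_const, card_sdiff_of_subset hQ']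
        have h3 : ∏ q ∈ Q', (if q ∉ early σ tm then (1 : ℝ) else 0) =
            (if (A ⊆ early σ tp ∧ Disjoint Q' (early σ tm)) then (1 : ℝ) else 0) := by
          by_cases hd : Disjoint Q' (early σ tm)
          · rw [if_pos ⟨hAs, hd⟩]
            apply prod_eq_one
            intro q hq
            rw [if_pos (disjoint_left.mp hd hq)]
          · rw [if_neg (fun h => hd h.2)]
            rw [not_disjoint_iff] at hd
            obtain ⟨q, hq, hq'⟩ := hd
            apply prod_eq_zero hq
            rw [if_neg (by simpa using hq')]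
        rw [h3]
        ring
      rw [← hexp, hprod]
      split_ifs with h
      · rw [mul_one]
        exact pow_le_pow_of_le_one hl0.le hl1 h.2
      · rw [mul_zero]; positivity
    · rw [if_neg (fun h => hAs h.1), mul_zero]
      apply sum_nonneg
      intro Q' _
      have : (0 : ℝ) ≤ 1 - lam := by linarith
      positivity
  have hsum : lam ^ x * prob (fun σ : Fin T ≃ α => A ⊆ early σ tp ∧ (Q ∩ early σ tm).card ≤ x) ≤
      ∑ Q' ∈ Q.powerset, ((1 - lam) ^ Q'.card * lam ^ (Q.card - Q'.card)) *
        prob (fun σ : Fin T ≃ α => A ⊆ early σ tp ∧ Disjoint Q' (early σ tm)) := by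
    rw [prob_eq_sum, mul_div_assoc', div_le_iff₀ hpos, mul_sum]
    have h4 : (∑ Q' ∈ Q.powerset, ((1 - lam) ^ Q'.card * lam ^ (Q.card - Q'.card)) *
        prob (fun σ : Fin T ≃ α => A ⊆ early σ tp ∧ Disjoint Q' (early σ tm))) *
        (Fintype.card (Fin T ≃ α) : ℝ) =
        ∑ σ : Fin T ≃ α, ∑ Q' ∈ Q.powerset, ((1 - lam) ^ Q'.card * lam ^ (Q.card - Q'.card)) *
        (if (A ⊆ early σ tp ∧ Disjoint Q' (early σ tm)) then (1 : ℝ) else 0) := by
      rw [sum_comm, sum_mul]
      apply sum_congr rfl
      intro Q' _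
      rw [← mul_sum, prob_eq_sum, mul_assoc, div_mul_cancel₀ _ hpos.ne']
    rw [h4]
    exact sum_le_sum (fun σ _ => hpt σ)
  have hbd : ∑ Q' ∈ Q.powerset, ((1 - lam) ^ Q'.card * lam ^ (Q.card - Q'.card)) *
        prob (fun σ : Fin T ≃ α => A ⊆ early σ tp ∧ Disjoint Q' (early σ tm)) ≤
      ((tp : ℝ) / T) ^ A.card * (lam + (1 - lam) * ρ) ^ Q.card := by
    have h5 : ((tp : ℝ) / T) ^ A.card * (lam + (1 - lam) * ρ) ^ Q.card =
        ∑ Q' ∈ Q.powerset, ((1 - lam) ^ Q'.card * lam ^ (Q.card - Q'.card)) *
          (((tp : ℝ) / T) ^ A.card * ρ ^ Q'.card) := by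
      rw [add_comm lam, ← sum_pow_mul_eq_add_pow, mul_sum]
      apply sum_congr rfl
      intro Q' _
      rw [mul_pow]
      ring
    rw [h5]
    apply sum_le_sum
    intro Q' hQ'
    rw [mem_powerset] at hQ'
    have h6 := prob_early_late_le hT htp htm A Q' (disjoint_of_subset_right hQ' hAQ) hA hAT
    have : (0 : ℝ) ≤ 1 - lam := by linarith
    gcongr
  have hfin := hsum.trans hbd
  rw [inv_pow]
  rw [← div_eq_inv_mul, le_div_iff₀ (pow_pos hl0 x), mul_comm]
  exact hfin

end Count

end Pool.Agent.FracK
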