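import Mathlib
import Pool.Agent.Work.MP_1ae8db_pr.Defs
import Pool.Agent.Work.MP_1ae8db_pr.Perm

/-!
Parameters of the random process and the statements of the probabilistic part.
-/

set_option autoImplicit false

namespace Pool.Agent.FracK

open Finset
open scoped Classical

/-- edges -/
abbrev Edg (s n : ℕ) : Type := {e : Finset (Fin n) // e.card = s + 2}

/-- orderings -/
abbrev Ord (s n : ℕ) : Type := Fin (n.choose (s + 2)) ≃ Edg s n

/-- lower time -/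
noncomputable def tmin (s n : ℕ) : ℕ :=
  ⌊(3 / 4 : ℝ) * ((s : ℝ) + 1) * Real.log n * (n.choose (s + 2) : ℝ) / (n : ℝ)⌋₊

/-- upper time -/
noncomputable def tmax (s n : ℕ) : ℕ :=
  ⌈(3 : ℝ) * ((s : ℝ) + 1) * Real.log n * (n.choose (s + 2) : ℝ) / (n : ℝ)⌉₊

/-- the hypergraph of the first `t` edges -/
noncomputable def Hset {s n : ℕ} (σ : Ord s n) (t : ℕ) : Finset (Finset (Fin n)) :=
  (early σ t).image Subtype.val

lemma mem_Hset {s n : ℕ} {σ : Ord s n} {t : ℕ} {e : Finset (Fin n)} :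
    e ∈ Hset σ t ↔ ∃ h : e.card = s + 2, (σ.symm ⟨e, h⟩).val < t := by
  unfold Hset
  rw [mem_image]
  constructor
  · rintro ⟨a, ha, rfl⟩
    rw [mem_early] at ha
    exact ⟨a.2, ha⟩
  · rintro ⟨h, ht⟩
    exact ⟨⟨e, h⟩, mem_early.mpr ht, rfl⟩

lemma card_Edg (s n : ℕ) : Fintype.card (Edg s n) = n.choose (s + 2) := by
  have := Fintype.card_finset_len (α := Fin n) (s + 2)
  rw [Fintype.card_fin] at this
  convert this

/-- every facet is covered -/
def Cov (s : ℕ) {n : ℕ} (H : Finset (Finset (Fin n))) : Prop :=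
  ∀ f ∈ (univ : Finset (Fin n)).powersetCard (s + 1), ∃ e ∈ H, f ⊆ e

/-! The five probabilistic statements (as propositions). -/

/-- helper20 -/
def StmtE1 (s : ℕ) : Prop :=
  Filter.Tendsto (fun n : ℕ => prob (fun σ : Ord s n => ¬ Cov s (Hset σ (tmax s n))))
    Filter.atTop (nhds 0)

/-- helper20 -/
def StmtE2 (s : ℕ) : Prop :=
  Filter.Tendsto (fun n : ℕ => prob (fun σ : Ord s n => Cov s (Hset σ (tmin s n))))
    Filter.atTop (nhds 0)

/-- helper77 -/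
def StmtE3 (s : ℕ) : Prop :=
  ∀ γ : ℝ, 0 < γ → ∃ ε : ℝ, 0 < ε ∧
    Filter.Tendsto (fun n : ℕ => prob (fun σ : Ord s n =>
      ¬ P2 s ε γ (Real.log n) (Hset σ (tmax s n)))) Filter.atTop (nhds 0)

/-- helper20 -/
def StmtE4 (s : ℕ) : Prop :=
  ∃ γ' : ℝ, 0 < γ' ∧
    Filter.Tendsto (fun n : ℕ => prob (fun σ : Ord s n =>
      ¬ P3 s γ' (Real.log n) (Hset σ (tmin s n)) (Hset σ (tmax s n)))) Filter.atTop (nhds 0)

/-- helper77 -/
def StmtE5 (s : ℕ) : Prop :=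
  ∀ (a : ℤ) (κ ω : ℝ), 0 < κ → 0 < ω → ω ≤ 1 / 100 →
    Filter.Tendsto (fun n : ℕ => prob (fun σ : Ord s n =>
      ¬ P1 s a κ ω (Real.log n) (Hset σ (tmin s n)))) Filter.atTop (nhds 0)

end Pool.Agent.FracK
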