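import Mathlib
import Pool.Agent.Work.MP_1ae8db_pr.Params

/-!
Asymptotic facts on the parameters and some counting lemmas.
-/

set_option autoImplicit false

namespace Pool.Agent.FracK

open Finset Filter
open scoped Classical

lemma choose_ge (s n : ℕ) (hn : 2 * s + 4 ≤ n) : n ≤ n.choose (s + 2) := by
  have h : ∀ j, j ≤ s + 1 → n ≤ n.choose (j + 1) := by
    intro j
    induction j with
    | zero => intro _; simp
    | succ j ih =>
      intro hj
      have h1 := ih (by omega)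
      have h2 : n.choose (j + 1) ≤ n.choose (j + 1 + 1) :=
        Nat.choose_le_succ_of_lt_half_left (by omega)
      omega
  exact h (s + 1) (le_refl _)

lemma ev_log_ge (c : ℝ) : ∀ᶠ n : ℕ in atTop, c ≤ Real.log n :=
  (Real.tendsto_log_atTop.comp tendsto_natCast_atTop_atTop).eventually_ge_atTop c

lemma ev_log_le (c : ℝ) (hc : 0 < c) : ∀ᶠ n : ℕ in atTop, Real.log n ≤ c * n := by
  have h := (Real.isLittleO_log_id_atTop.bound hc)
  have h2 := tendsto_natCast_atTop_atTop (R := ℝ) |>.eventually h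
  filter_upwards [h2, eventually_ge_atTop 1] with n hn hn1
  simp only [id, Real.norm_eq_abs] at hn
  have h3 : (0 : ℝ) ≤ n := by positivity
  rw [abs_of_nonneg h3] at hn
  exact (le_abs_self _).trans hn

lemma tmax_le (s : ℕ) : ∀ᶠ n : ℕ in atTop, tmax s n ≤ n.choose (s + 2) := by
  filter_upwards [ev_log_le (1 / (6 * ((s : ℝ) + 1))) (by positivity),
    eventually_ge_atTop (2 * s + 4)] with n hn hn2
  have hn0 : (0 : ℝ) < n := by
    have : 0 < n := by omega
    exact_mod_cast this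
  have hT : (n : ℝ) ≤ n.choose (s + 2) := by exact_mod_cast choose_ge s n hn2
  have hTn : (4 : ℝ) ≤ n := by
    have : 4 ≤ n := by omega
    exact_mod_cast this
  unfold tmax
  rw [Nat.ceil_le]
  have h1 : (3 : ℝ) * ((s : ℝ) + 1) * Real.log n * (n.choose (s + 2) : ℝ) / (n : ℝ) ≤
      (n.choose (s + 2) : ℝ) / 2 := by
    rw [div_le_iff₀ hn0]
    have h2 : (3 : ℝ) * ((s : ℝ) + 1) * Real.log n ≤ n / 2 := by
      have hs : (0 : ℝ) < (s : ℝ) + 1 := by positivity
      calc (3 : ℝ) * ((s : ℝ) + 1) * Real.log n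
          ≤ 3 * ((s : ℝ) + 1) * (1 / (6 * ((s : ℝ) + 1)) * n) := by gcongr
        _ = n / 2 := by field_simp; ring
    calc (3 : ℝ) * ((s : ℝ) + 1) * Real.log n * (n.choose (s + 2) : ℝ)
        ≤ n / 2 * (n.choose (s + 2) : ℝ) := by gcongr
      _ = _ := by ring
  linarith

lemma tmax_ratio (s : ℕ) : ∀ᶠ n : ℕ in atTop,
    ((tmax s n : ℕ) : ℝ) / (n.choose (s + 2) : ℝ) ≤ 4 * ((s : ℝ) + 1) * Real.log n / n := by
  filter_upwards [ev_log_ge 1, eventually_ge_atTop (2 * s + 4)] with n hL hn2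
  have hn0 : (0 : ℝ) < n := by
    have : 0 < n := by omega
    exact_mod_cast this
  have hT : (n : ℝ) ≤ n.choose (s + 2) := by exact_mod_cast choose_ge s n hn2
  have hT0 : (0 : ℝ) < n.choose (s + 2) := lt_of_lt_of_le hn0 hT
  have h1 : ((tmax s n : ℕ) : ℝ) ≤
      (3 : ℝ) * ((s : ℝ) + 1) * Real.log n * (n.choose (s + 2) : ℝ) / (n : ℝ) + 1 := by
    unfold tmax
    exact (Nat.ceil_lt_add_one (by positivity)).le
  rw [div_le_iff₀ hT0]
  refine h1.trans ?_
  have h2 : (1 : ℝ) ≤ ((s : ℝ) + 1) * Real.log n * (n.choose (s + 2) : ℝ) / n := by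
    rw [le_div_iff₀ hn0]
    have hs : (1 : ℝ) ≤ (s : ℝ) + 1 := by
      have : (0 : ℝ) ≤ s := by positivity
      linarith
    have h3 : (1 : ℝ) ≤ ((s : ℝ) + 1) * Real.log n := by nlinarith
    nlinarith
  have h4 : 4 * ((s : ℝ) + 1) * Real.log n / n * (n.choose (s + 2) : ℝ) =
      (3 : ℝ) * ((s : ℝ) + 1) * Real.log n * (n.choose (s + 2) : ℝ) / (n : ℝ) +
        ((s : ℝ) + 1) * Real.log n * (n.choose (s + 2) : ℝ) / n := by ring
  linarith

lemma tmin_le_tmax (s n : ℕ) : tmin s n ≤ tmax s n := by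
  unfold tmin tmax
  have h1 : (3 / 4 : ℝ) * ((s : ℝ) + 1) * Real.log n * (n.choose (s + 2) : ℝ) / (n : ℝ) ≤
      (3 : ℝ) * ((s : ℝ) + 1) * Real.log n * (n.choose (s + 2) : ℝ) / (n : ℝ) := by
    have h0 : 0 ≤ ((s : ℝ) + 1) * Real.log n * (n.choose (s + 2) : ℝ) / (n : ℝ) := by
      have := Real.log_natCast_nonneg n
      positivity
    have e1 : (3 / 4 : ℝ) * ((s : ℝ) + 1) * Real.log n * (n.choose (s + 2) : ℝ) / (n : ℝ) =
      3 / 4 * (((s : ℝ) + 1) * Real.log n * (n.choose (s + 2) : ℝ) / (n : ℝ)) := by ring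
    have e2 : (3 : ℝ) * ((s : ℝ) + 1) * Real.log n * (n.choose (s + 2) : ℝ) / (n : ℝ) =
      3 * (((s : ℝ) + 1) * Real.log n * (n.choose (s + 2) : ℝ) / (n : ℝ)) := by ring
    rw [e1, e2]
    linarith
  exact (Nat.floor_le_floor h1).trans (Nat.floor_le_ceil _)

lemma tmin_ratio (s : ℕ) : ∀ᶠ n : ℕ in atTop,
    2 / 3 * Real.log n / n ≤ ((tmin s n : ℕ) : ℝ) / (n.choose (s + 2) : ℝ) := by
  filter_upwards [ev_log_ge 12, eventually_ge_atTop (2 * s + 4)] with n hL hn2
  have hn0 : (0 : ℝ) < n := by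
    have : 0 < n := by omega
    exact_mod_cast this
  have hT : (n : ℝ) ≤ n.choose (s + 2) := by exact_mod_cast choose_ge s n hn2
  have hT0 : (0 : ℝ) < n.choose (s + 2) := lt_of_lt_of_le hn0 hT
  have h1 : (3 / 4 : ℝ) * ((s : ℝ) + 1) * Real.log n * (n.choose (s + 2) : ℝ) / (n : ℝ) - 1 ≤
      ((tmin s n : ℕ) : ℝ) := by
    unfold tmin
    linarith [Nat.lt_floor_add_one
      ((3 / 4 : ℝ) * ((s : ℝ) + 1) * Real.log n * (n.choose (s + 2) : ℝ) / (n : ℝ))]
  rw [le_div_iff₀ hT0]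
  refine le_trans ?_ h1
  have h2 : (1 : ℝ) ≤ 1 / 12 * Real.log n * (n.choose (s + 2) : ℝ) / n := by
    rw [le_div_iff₀ hn0]
    nlinarith
  have h3 : (3 / 4 : ℝ) * 1 * Real.log n * (n.choose (s + 2) : ℝ) / (n : ℝ) ≤
      (3 / 4 : ℝ) * ((s : ℝ) + 1) * Real.log n * (n.choose (s + 2) : ℝ) / (n : ℝ) := by
    have : (1 : ℝ) ≤ (s : ℝ) + 1 := by
      have : (0 : ℝ) ≤ s := by positivity
      linarith
    gcongr
  have h4 : 2 / 3 * Real.log n / n * (n.choose (s + 2) : ℝ) =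
      (3 / 4 : ℝ) * 1 * Real.log n * (n.choose (s + 2) : ℝ) / (n : ℝ) -
        1 / 12 * Real.log n * (n.choose (s + 2) : ℝ) / n := by ring
  linarith

lemma sum_powerset_le {ι : Type*} (S : Finset ι) (t : ℝ) (ht : 0 ≤ t) :
    ∑ U ∈ S.powerset.filter (fun U => U.Nonempty), t ^ U.card ≤ Real.exp (S.card * t) - 1 := by
  have h1 : ∑ U ∈ S.powerset, t ^ U.card = (t + 1) ^ S.card := by
    rw [← sum_pow_mul_eq_add_pow]
    apply sum_congr rfl
    intro U _
    rw [one_pow, mul_one]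
  have h2 : ∑ U ∈ S.powerset, t ^ U.card =
      ∑ U ∈ S.powerset.filter (fun U => U.Nonempty), t ^ U.card + 1 := by
    rw [← sum_filter_add_sum_filter_not S.powerset (fun U => U.Nonempty)]
    congr 1
    have h3 : S.powerset.filter (fun U => ¬ U.Nonempty) = {∅} := by
      ext U
      rw [mem_filter, mem_powerset, mem_singleton, not_nonempty_iff_eq_empty]
      constructor
      · rintro ⟨_, h⟩; exact h
      · rintro rfl; exact ⟨empty_subset _, rfl⟩
    rw [h3, sum_singleton, card_empty, pow_zero]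
  have h4 : (t + 1) ^ S.card ≤ Real.exp (S.card * t) := by
    rw [mul_comm, Real.exp_mul, Real.rpow_natCast]
    exact pow_le_pow_left₀ (by linarith) (Real.add_one_le_exp t) _
  linarith

/-- edges of a family as a set of elements of the edge type -/
noncomputable def lift (s : ℕ) {n : ℕ} (Q : Finset (Finset (Fin n))) : Finset (Edg s n) :=
  univ.filter (fun a => a.1 ∈ Q)

lemma mem_lift {s n : ℕ} {Q : Finset (Finset (Fin n))} {a : Edg s n} :
    a ∈ lift s Q ↔ a.1 ∈ Q := by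
  simp [lift]

lemma card_lift_le {s n : ℕ} (Q : Finset (Finset (Fin n))) : (lift s Q).card ≤ Q.card := by
  rw [← card_map ⟨Subtype.val, Subtype.val_injective⟩]
  apply card_le_card
  intro e he
  rw [Finset.mem_map] at he
  obtain ⟨a, ha, rfl⟩ := he
  exact mem_lift.mp ha

lemma card_lift {s n : ℕ} (Q : Finset (Finset (Fin n)))
    (hQ : Q ⊆ (univ : Finset (Fin n)).powersetCard (s + 2)) : (lift s Q).card = Q.card := by
  apply le_antisymm (card_lift_le Q)
  rw [← card_map (s := lift s Q) ⟨Subtype.val, Subtype.val_injective⟩]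
  apply card_le_card
  intro e he
  rw [Finset.mem_map]
  exact ⟨⟨e, (mem_powersetCard.mp (hQ he)).2⟩, mem_lift.mpr he, rfl⟩

lemma card_Hset_inter {s n : ℕ} (σ : Ord s n) (t : ℕ) (Q : Finset (Finset (Fin n))) :
    (Hset σ t ∩ Q).card = (lift s Q ∩ early σ t).card := by
  rw [← card_map (s := lift s Q ∩ early σ t) ⟨Subtype.val, Subtype.val_injective⟩]
  congr 1
  ext e
  rw [mem_inter, Finset.mem_map]
  unfold Hset
  rw [mem_image]
  constructor
  · rintro ⟨⟨a, ha, rfl⟩, hQ⟩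
    exact ⟨a, mem_inter.mpr ⟨mem_lift.mpr hQ, ha⟩, rfl⟩
  · rintro ⟨a, ha, rfl⟩
    rw [mem_inter] at ha
    exact ⟨⟨a, ha.2, rfl⟩, mem_lift.mp ha.1⟩

lemma Hset_subset {s n : ℕ} (σ : Ord s n) (t : ℕ) :
    Hset σ t ⊆ (univ : Finset (Fin n)).powersetCard (s + 2) := by
  intro e he
  rw [mem_Hset] at he
  rw [mem_powersetCard]
  exact ⟨subset_univ _, he.1⟩

end Pool.Agent.FracK
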