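import Mathlib
import Pool.Agent.Work.MP_1ae8db_pr.Asym

/-!
Upper tail: few edges at light members, for all families simultaneously.
-/

set_option autoImplicit false

namespace Pool.Agent.FracK

open Finset Filter
open scoped Classical

lemma card_QL_le {V : Type*} [Fintype V] (s : ℕ) (ε : ℝ) (hε : 0 ≤ ε) (U : Finset (Finset V))
    (hU : U ⊆ (univ : Finset V).powersetCard (s + 1)) :
    ((QL s ε U).card : ℝ) ≤ (U.card : ℝ) * (((s : ℝ) + 1) * (ε * (Fintype.card V : ℝ))) := by
  have hsub : QL s ε U ⊆ (U.filter (fun f => Light s ε U f)).biUnion (fun f =>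
      (f.powersetCard s).biUnion (fun g => (U.filter (fun f' => g ⊆ f')).image (fun f' => f ∪ f'))) := by
    intro e he
    unfold QL at he
    rw [mem_filter] at he
    obtain ⟨heE, f, hfU, hl, hfe, f', hf'U, hne, hf'e⟩ := he
    have hec := (mem_powersetCard.mp heE).2
    have hfc := (mem_powersetCard.mp (hU hfU)).2
    have hf'c := (mem_powersetCard.mp (hU hf'U)).2
    have h1 := card_union_add_card_inter f f'
    have h2 : (f ∪ f').card ≤ s + 2 := by
      rw [← hec]; exact card_le_card (union_subset hfe hf'e)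
    have h3 : f ⊂ f ∪ f' := by
      refine ⟨subset_union_left, fun h => hne ?_⟩
      have h4 : f' ⊆ f := subset_union_right.trans h
      exact eq_of_subset_of_card_le h4 (by rw [hfc, hf'c])
    have h5 := card_lt_card h3
    rw [mem_biUnion]
    refine ⟨f, mem_filter.mpr ⟨hfU, hl⟩, ?_⟩
    rw [mem_biUnion]
    refine ⟨f ∩ f', ?_, ?_⟩
    · rw [mem_powersetCard]
      exact ⟨inter_subset_left, by omega⟩
    · rw [mem_image]
      refine ⟨f', mem_filter.mpr ⟨hf'U, inter_subset_right⟩, ?_⟩
      apply eq_of_subset_of_card_le (union_subset hfe hf'e)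
      omega
  have h1 : ((QL s ε U).card : ℝ) ≤ ∑ f ∈ U.filter (fun f => Light s ε U f),
      ∑ g ∈ f.powersetCard s, (deg U g : ℝ) := by
    have h2 : (QL s ε U).card ≤ ∑ f ∈ U.filter (fun f => Light s ε U f),
      ∑ g ∈ f.powersetCard s, deg U g := by
      refine (card_le_card hsub).trans (card_biUnion_le.trans (sum_le_sum fun f _ => ?_))
      refine card_biUnion_le.trans (sum_le_sum fun g _ => ?_)
      exact card_image_le
    exact_mod_cast h2
  have h2 : ∀ f ∈ U.filter (fun f => Light s ε U f), ∑ g ∈ f.powersetCard s, (deg U g : ℝ) ≤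
      ((s : ℝ) + 1) * (ε * (Fintype.card V : ℝ)) := by
    intro f hf
    rw [mem_filter] at hf
    have hfc := (mem_powersetCard.mp (hU hf.1)).2
    calc ∑ g ∈ f.powersetCard s, (deg U g : ℝ)
        ≤ ∑ g ∈ f.powersetCard s, (ε * (Fintype.card V : ℝ)) :=
          sum_le_sum (fun g hg => (hf.2 g hg).le)
      _ = _ := by
          rw [sum_const, card_powersetCard, hfc, Nat.choose_succ_self_right, nsmul_eq_mul]
          push_cast
          ring
  refine h1.trans ((sum_le_sum h2).trans ?_)
  rw [sum_const, nsmul_eq_mul]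
  apply mul_le_mul_of_nonneg_right
  · exact_mod_cast card_le_card (filter_subset _ _)
  · positivity

lemma choose_mul_pow_le (M x : ℕ) (p : ℝ) (hp : 0 ≤ p) (hx : 0 < x) :
    (M.choose x : ℝ) * p ^ x ≤ (Real.exp 1 * (M * p / x)) ^ x := by
  have h1 : (M.choose x : ℝ) ≤ (M : ℝ) ^ x / x.factorial := Nat.choose_le_pow_div x M
  have hx0 : (0 : ℝ) < x := by exact_mod_cast hx
  have h2 := Real.pow_div_factorial_le_exp (x : ℝ) hx0.le x
  calc (M.choose x : ℝ) * p ^ x ≤ ((M : ℝ) ^ x / x.factorial) * p ^ x := by gcongr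
    _ = (M * p / x) ^ x * ((x : ℝ) ^ x / x.factorial) := by
        rw [div_pow, mul_pow]
        field_simp
    _ ≤ (M * p / x) ^ x * Real.exp x := by gcongr
    _ = _ := by
        rw [mul_pow, ← Real.exp_nat_mul, mul_one, mul_comm]

theorem stmtE3 (s : ℕ) : StmtE3 s := by
  intro γ hγ
  have hs1 : (0 : ℝ) < (s : ℝ) + 1 := by positivity
  set ε : ℝ := γ / (4 * ((s : ℝ) + 1) ^ 2) * Real.exp (-(1 + ((s : ℝ) + 3) / γ)) with hε
  have hεpos : 0 < ε := by positivity
  refine ⟨ε, hεpos, ?_⟩
  -- bound
  have hbound : ∀ᶠ n : ℕ in atTop, prob (fun σ : Ord s n =>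
      ¬ P2 s ε γ (Real.log n) (Hset σ (tmax s n))) ≤ Real.exp (1 / n) - 1 := by
    filter_upwards [tmax_le s, tmax_ratio s, ev_log_ge 1, eventually_ge_atTop (2 * s + 4)]
      with n htm hratio hL hn2
    set T := n.choose (s + 2) with hT
    set L := Real.log n with hLdef
    have hn0 : (0 : ℝ) < n := by
      have : 0 < n := by omega
      exact_mod_cast this
    have hn1 : (1 : ℝ) ≤ n := by
      have : 1 ≤ n := by omega
      exact_mod_cast this
    have hLpos : 0 < L := by linarith
    set F := (univ : Finset (Fin n)).powersetCard (s + 1) with hF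
    -- single U
    have hU : ∀ U ∈ F.powerset.filter (fun U => U.Nonempty), prob (fun σ : Ord s n =>
        γ * (U.card : ℝ) * L < ((Hset σ (tmax s n) ∩ QL s ε U).card : ℝ)) ≤
        (Real.exp (-(((s : ℝ) + 3) * L))) ^ U.card := by
      intro U hU
      rw [mem_filter, mem_powerset] at hU
      obtain ⟨hUF, hUne⟩ := hU
      have hu : (0 : ℝ) < U.card := by
        have := card_pos.mpr hUne
        exact_mod_cast this
      set x := ⌊γ * (U.card : ℝ) * L⌋₊ + 1 with hx
      have hx0 : 0 < x := by omega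
      have hxR : γ * (U.card : ℝ) * L ≤ x := by
        rw [hx]; push_cast
        exact (Nat.lt_floor_add_one _).le
      have hxpos : (0 : ℝ) < x := by exact_mod_cast hx0
      have h1 : prob (fun σ : Ord s n =>
          γ * (U.card : ℝ) * L < ((Hset σ (tmax s n) ∩ QL s ε U).card : ℝ)) ≤
          prob (fun σ : Ord s n => x ≤ (lift s (QL s ε U) ∩ early σ (tmax s n)).card) := by
        apply prob_mono
        intro σ hσ
        rw [card_Hset_inter] at hσ
        rw [hx, Nat.add_one_le_iff]
        exact (Nat.floor_lt (by positivity)).mpr hσ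
      refine h1.trans ((prob_inter_ge (card_Edg s n) htm _ _).trans ?_)
      refine (choose_mul_pow_le _ _ _ (by positivity) hx0).trans ?_
      have hM : ((lift s (QL s ε U)).card : ℝ) ≤ (U.card : ℝ) * (((s : ℝ) + 1) * (ε * n)) := by
        have h2 : ((lift s (QL s ε U)).card : ℝ) ≤ (QL s ε U).card := by
          exact_mod_cast card_lift_le _
        have h3 := card_QL_le s ε hεpos.le U hUF
        rw [Fintype.card_fin] at h3
        exact h2.trans h3
      have hbase : Real.exp 1 * (((lift s (QL s ε U)).card : ℝ) *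
          (((tmax s n : ℕ) : ℝ) / (T : ℝ)) / x) ≤ Real.exp (-(((s : ℝ) + 3) / γ)) := by
        have h4 : ((lift s (QL s ε U)).card : ℝ) * (((tmax s n : ℕ) : ℝ) / (T : ℝ)) ≤
            (U.card : ℝ) * (((s : ℝ) + 1) * (ε * n)) * (4 * ((s : ℝ) + 1) * L / n) := by
          gcongr
        have h5 : (U.card : ℝ) * (((s : ℝ) + 1) * (ε * n)) * (4 * ((s : ℝ) + 1) * L / n) =
            (γ * U.card * L) * Real.exp (-(1 + ((s : ℝ) + 3) / γ)) := by
          rw [hε]
          field_simp
        have h6 : ((lift s (QL s ε U)).card : ℝ) * (((tmax s n : ℕ) : ℝ) / (T : ℝ)) / x ≤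
            Real.exp (-(1 + ((s : ℝ) + 3) / γ)) := by
          rw [div_le_iff₀ hxpos]
          rw [h5] at h4
          refine h4.trans ?_
          rw [mul_comm]
          gcongr
        calc _ ≤ Real.exp 1 * Real.exp (-(1 + ((s : ℝ) + 3) / γ)) := by gcongr
          _ = _ := by rw [← Real.exp_add]; congr 1; ring
      have hbase0 : 0 ≤ Real.exp 1 * (((lift s (QL s ε U)).card : ℝ) *
          (((tmax s n : ℕ) : ℝ) / (T : ℝ)) / x) := by positivity
      refine (pow_le_pow_left₀ hbase0 hbase x).trans ?_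
      rw [← Real.exp_nat_mul, ← Real.exp_nat_mul, Real.exp_le_exp]
      have h7 : (x : ℝ) * -(((s : ℝ) + 3) / γ) ≤ (γ * (U.card : ℝ) * L) * -(((s : ℝ) + 3) / γ) := by
        have : 0 ≤ ((s : ℝ) + 3) / γ := by positivity
        nlinarith
      refine h7.trans (le_of_eq ?_)
      field_simp
    -- union bound
    have h1 : prob (fun σ : Ord s n => ¬ P2 s ε γ L (Hset σ (tmax s n))) ≤
        prob (fun σ : Ord s n => ∃ U ∈ F.powerset.filter (fun U => U.Nonempty),
          γ * (U.card : ℝ) * L < ((Hset σ (tmax s n) ∩ QL s ε U).card : ℝ)) := by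
      apply prob_mono
      intro σ hσ
      unfold P2 at hσ
      push Not at hσ
      obtain ⟨U, hUF, hlt⟩ := hσ
      have hlt' : γ * (U.card : ℝ) * L < ((Hset σ (tmax s n) ∩ QL s ε U).card : ℝ) := by
        refine lt_of_lt_of_eq hlt ?_
        congr!
      clear hlt
      refine ⟨U, mem_filter.mpr ⟨mem_powerset.mpr hUF, ?_⟩, hlt'⟩
      rw [nonempty_iff_ne_empty]
      rintro rfl
      have h2 : QL s ε (∅ : Finset (Finset (Fin n))) = ∅ := by
        unfold QL
        apply filter_eq_empty_iff.mpr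
        rintro e _ ⟨f, hf, _⟩
        exact absurd hf (notMem_empty f)
      rw [h2] at hlt'
      simp at hlt'
    refine h1.trans ((prob_exists_le _ _).trans ((sum_le_sum hU).trans ?_))
    refine (sum_powerset_le F _ (Real.exp_pos _).le).trans ?_
    have hFcard : (F.card : ℝ) ≤ (n : ℝ) ^ (s + 1) := by
      rw [hF, card_powersetCard, card_univ, Fintype.card_fin]
      exact_mod_cast Nat.choose_le_pow n (s + 1)
    have h3 : Real.exp (-(((s : ℝ) + 3) * L)) = ((n : ℝ) ^ (s + 3))⁻¹ := by
      rw [Real.exp_neg]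
      congr 1
      have : ((s : ℝ) + 3) * L = ((s + 3 : ℕ) : ℝ) * L := by push_cast; ring
      rw [this, Real.exp_nat_mul, hLdef, Real.exp_log hn0]
    have h4 : (F.card : ℝ) * Real.exp (-(((s : ℝ) + 3) * L)) ≤ 1 / n := by
      rw [h3]
      calc (F.card : ℝ) * ((n : ℝ) ^ (s + 3))⁻¹ ≤ (n : ℝ) ^ (s + 1) * ((n : ℝ) ^ (s + 3))⁻¹ := by
            gcongr
        _ = 1 / (n : ℝ) ^ 2 := by
            rw [pow_add, pow_add]
            field_simp
        _ ≤ 1 / n := by
            apply one_div_le_one_div_of_le hn0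
            nlinarith
    have h5 := Real.exp_le_exp.mpr h4
    linarith
  have hlim : Tendsto (fun n : ℕ => Real.exp (1 / (n : ℝ)) - 1) atTop (nhds 0) := by
    have h1 : Tendsto (fun n : ℕ => 1 / (n : ℝ)) atTop (nhds 0) := tendsto_one_div_atTop_nhds_zero_nat
    have h2 := (Real.continuous_exp.tendsto 0).comp h1
    have h3 := h2.sub_const 1
    simpa using h3
  exact tendsto_of_tendsto_of_tendsto_of_le_of_le' tendsto_const_nhds hlim
    (Eventually.of_forall (fun n => prob_nonneg _)) hbound

end Pool.Agent.FracK
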