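import Mathlib
import Pool.Agent.Work.MP_1ae8db_pr.Asym

/-!
Lower tail for the structured families of certified negative edges.
-/

set_option autoImplicit false

namespace Pool.Agent.FracK

open Finset Filter
open scoped Classical

lemma card_above_le {V : Type*} [Fintype V] (s : ℕ) (G : Finset (Finset V))
    (hG : G ⊆ (univ : Finset V).powersetCard s) :
    (((univ : Finset V).powersetCard (s + 1)).filter (fun f => ∃ g ∈ G, g ⊆ f)).card ≤
      G.card * Fintype.card V := by
  have hsub : ((univ : Finset V).powersetCard (s + 1)).filter (fun f => ∃ g ∈ G, g ⊆ f) ⊆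
      G.biUnion (fun g => (univ : Finset V).image (fun v => insert v g)) := by
    intro f hf
    rw [mem_filter] at hf
    obtain ⟨hfF, g, hg, hgf⟩ := hf
    have hfc := (mem_powersetCard.mp hfF).2
    have hgc := (mem_powersetCard.mp (hG hg)).2
    rw [mem_biUnion]
    refine ⟨g, hg, ?_⟩
    rw [mem_image]
    have h1 : (f \ g).card = 1 := by
      rw [card_sdiff_of_subset hgf]; omega
    rw [card_eq_one] at h1
    obtain ⟨v, hv⟩ := h1
    refine ⟨v, mem_univ _, ?_⟩
    rw [insert_eq, ← hv, sdiff_union_of_subset hgf]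
  refine (card_le_card hsub).trans (card_biUnion_le.trans ?_)
  rw [← smul_eq_mul, ← sum_const]
  apply sum_le_sum
  intro g _
  exact card_image_le.trans (by rw [card_univ])

lemma card_piFinset_ite_le {ι : Type*} [Fintype ι] [DecidableEq ι] (S : Finset ι)
    (I : Finset ℤ) (D : ℕ) (hD : I.card ≤ D) :
    (Fintype.piFinset (fun f : ι => if f ∈ S then I else ({0} : Finset ℤ))).card ≤
      D ^ S.card := by
  rw [Fintype.card_piFinset]
  have h1 : ∏ f : ι, (if f ∈ S then I else ({0} : Finset ℤ)).card ≤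
      ∏ f : ι, (if f ∈ S then D else 1) := by
    apply prod_le_prod'
    intro f _
    split_ifs
    · exact hD
    · simp
  refine h1.trans (le_of_eq ?_)
  rw [prod_ite_mem, univ_inter, prod_const]

lemma tail_single (s n : ℕ) (ω : ℝ) (hω : 0 < ω) (hω1 : ω ≤ 1 / 100)
    (hn0 : (0 : ℝ) < n) (hLpos : 0 < Real.log n)
    (htm : tmin s n ≤ n.choose (s + 2)) (hTpos : 0 < n.choose (s + 2))
    (hratio : 2 / 3 * Real.log n / n ≤ ((tmin s n : ℕ) : ℝ) / (n.choose (s + 2) : ℝ))
    (Q : Finset (Finset (Fin n))) (hQE : Q ⊆ (univ : Finset (Fin n)).powersetCard (s + 2)) :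
    prob (fun σ : Ord s n =>
        ¬ (ω * (Q.card : ℝ) * Real.log n < (n : ℝ) * ((Hset σ (tmin s n) ∩ Q).card : ℝ))) ≤
        Real.exp (-((Q.card : ℝ) * Real.log n / (4 * n))) := by
  set T := n.choose (s + 2) with hT
  set L := Real.log n with hLdef
  have hTR : (0 : ℝ) < T := by exact_mod_cast hTpos
  set x := ⌊ω * (Q.card : ℝ) * L / n⌋₊ with hx
  have hxR : (x : ℝ) ≤ ω * (Q.card : ℝ) * L / n := Nat.floor_le (by positivity)
  have h1 : prob (fun σ : Ord s n =>
      ¬ (ω * (Q.card : ℝ) * L < (n : ℝ) * ((Hset σ (tmin s n) ∩ Q).card : ℝ))) ≤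
      prob (fun σ : Ord s n => (∅ : Finset (Edg s n)) ⊆ early σ 0 ∧
        (lift s Q ∩ early σ (tmin s n)).card ≤ x) := by
    apply prob_mono
    intro σ hσ
    refine ⟨empty_subset _, ?_⟩
    rw [card_Hset_inter, not_lt] at hσ
    rw [hx]
    apply Nat.le_floor
    rw [le_div_iff₀ hn0]
    linarith
  refine h1.trans ((prob_inter_le (card_Edg s n) (Nat.zero_le _) htm ∅ (lift s Q)
    (disjoint_empty_left _) (by simp) (by simpa using hTpos) x (1 / 2) (by norm_num)
    (by norm_num)).trans ?_)
  rw [card_empty, pow_zero, one_mul, card_lift Q hQE]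
  push_cast
  rw [sub_zero]
  set p : ℝ := ((tmin s n : ℕ) : ℝ) / (T : ℝ) with hp
  have hp1 : ((T : ℝ) - ((tmin s n : ℕ) : ℝ)) / (T : ℝ) = 1 - p := by
    rw [sub_div, div_self hTR.ne']
  rw [hp1]
  have hpT : p ≤ 1 := by
    rw [hp, div_le_one hTR]
    exact_mod_cast htm
  have h2 : (1 / 2 + (1 - 1 / 2) * (1 - p) : ℝ) ≤ Real.exp (-(p / 2)) := by
    have := Real.one_sub_le_exp_neg (p / 2)
    linarith
  have h20 : (0 : ℝ) ≤ (1 / 2 + (1 - 1 / 2) * (1 - p) : ℝ) := by linarith
  have h3 : ((1 / 2 : ℝ)⁻¹) ^ x = Real.exp ((x : ℝ) * Real.log 2) := by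
    rw [Real.exp_nat_mul, Real.exp_log (by norm_num)]
    norm_num
  have h30 : ((1 / 2 : ℝ)⁻¹) ^ x * (1 / 2 + (1 - 1 / 2) * (1 - p)) ^ Q.card ≤
      Real.exp ((x : ℝ) * Real.log 2) * (Real.exp (-(p / 2))) ^ Q.card := by
    rw [h3]
    exact mul_le_mul_of_nonneg_left (pow_le_pow_left₀ h20 h2 _) (Real.exp_pos _).le
  refine h30.trans ?_
  rw [← Real.exp_nat_mul, ← Real.exp_add, Real.exp_le_exp]
  have h4 : Real.log 2 ≤ 0.7 := by linarith [Real.log_two_lt_d9]
  have h4' : 0 ≤ Real.log 2 := Real.log_nonneg (by norm_num)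
  set Y : ℝ := (Q.card : ℝ) * L / n with hY
  have hY0 : 0 ≤ Y := by positivity
  have h5 : (x : ℝ) * Real.log 2 ≤ Y * 0.007 := by
    have h6 : (ω * (Q.card : ℝ) * L / n) = ω * Y := by rw [hY]; ring
    rw [h6] at hxR
    calc (x : ℝ) * Real.log 2 ≤ (ω * Y) * 0.7 := mul_le_mul hxR h4 h4' (by positivity)
      _ ≤ (1 / 100 * Y) * 0.7 := by
          apply mul_le_mul_of_nonneg_right _ (by norm_num)
          exact mul_le_mul_of_nonneg_right hω1 hY0
      _ = Y * 0.007 := by ring
  have h9 : (Q.card : ℝ) * (-(p / 2)) ≤ -Y * (1 / 3) := by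
    have h10 : (Q.card : ℝ) * (2 / 3 * L / n) ≤ (Q.card : ℝ) * p :=
      mul_le_mul_of_nonneg_left hratio (by positivity)
    have h11 : (Q.card : ℝ) * (2 / 3 * L / n) = 2 / 3 * Y := by rw [hY]; ring
    linarith
  have h12 : (Q.card : ℝ) * L / (4 * n) = Y / 4 := by
    rw [hY]
    field_simp
  rw [h12]
  linarith

set_option maxHeartbeats 4000000 in
theorem stmtE5 (s : ℕ) : StmtE5 s := by
  intro a κ ω hκ hω hω1
  set D : ℕ := (Finset.Icc (-a) (((s : ℤ) + 2) * a)).card + 1 with hD
  have hD1 : 1 ≤ D := by omega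
  have hD0 : (0 : ℝ) < D := by exact_mod_cast hD1
  have hbound : ∀ᶠ n : ℕ in atTop, prob (fun σ : Ord s n =>
      ¬ P1 s a κ ω (Real.log n) (Hset σ (tmin s n))) ≤ Real.exp (1 / n) - 1 := by
    filter_upwards [tmax_le s, tmin_ratio s, ev_log_ge 1,
      ev_log_ge (8 / κ * (Real.log D + 1)), eventually_ge_atTop (2 * s + 4),
      eventually_ge_atTop ⌈8 * (s : ℝ) / κ⌉₊]
      with n htmax hratio hL hL8 hn2 hn8
    set T := n.choose (s + 2) with hT
    set L := Real.log n with hLdef
    have htm : tmin s n ≤ T := (tmin_le_tmax s n).trans htmax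
    have hn0 : (0 : ℝ) < n := by
      have : 0 < n := by omega
      exact_mod_cast this
    have hn1 : (1 : ℝ) ≤ n := by
      have : 1 ≤ n := by omega
      exact_mod_cast this
    have hLpos : 0 < L := by linarith
    have hTpos : 0 < T := lt_of_lt_of_le (by omega) (choose_ge s n hn2)
    have hTR : (0 : ℝ) < T := by exact_mod_cast hTpos
    set E := (univ : Finset (Fin n)).powersetCard (s + 2) with hE
    -- single Q
    have hQ : ∀ Q ⊆ E, prob (fun σ : Ord s n =>
        ¬ (ω * (Q.card : ℝ) * L < (n : ℝ) * ((Hset σ (tmin s n) ∩ Q).card : ℝ))) ≤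
        Real.exp (-((Q.card : ℝ) * L / (4 * n))) := fun Q hQE =>
      tail_single s n ω hω hω1 hn0 hLpos htm hTpos hratio Q hQE
    -- union bound
    set Rid := (univ : Finset (Fin n)).powersetCard s with hRid
    set box : Finset (Finset (Fin n)) → Finset (Finset (Fin n) → ℤ) := fun G =>
      (Fintype.piFinset (fun f : Finset (Fin n) =>
        if f ∈ ((univ : Finset (Fin n)).powersetCard (s + 1)).filter (fun f => ∃ g ∈ G, g ⊆ f)
        then Finset.Icc (-a) (((s : ℤ) + 2) * a) else {0})).filter
        (fun q => κ * (n : ℝ) ^ 2 * (G.card : ℝ) ≤ ((Qneg s q).card : ℝ)) with hbox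
    have hboxcard : ∀ G ∈ Rid.powerset.filter (fun G => G.Nonempty),
        ((box G).card : ℝ) ≤ ((D : ℝ) ^ n) ^ G.card := by
      intro G hG
      rw [mem_filter, mem_powerset] at hG
      have h1 : (box G).card ≤ D ^ (G.card * n) := by
        refine (card_filter_le _ _).trans ((card_piFinset_ite_le _ _ D (by omega)).trans ?_)
        apply Nat.pow_le_pow_right hD1
        have := card_above_le s G hG.1
        rw [Fintype.card_fin] at this
        convert this
      rw [← pow_mul, mul_comm n]
      exact_mod_cast h1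
    have h1 : prob (fun σ : Ord s n => ¬ P1 s a κ ω L (Hset σ (tmin s n))) ≤
        prob (fun σ : Ord s n => ∃ G ∈ Rid.powerset.filter (fun G => G.Nonempty),
          ∃ q ∈ box G, ¬ (ω * ((Qneg s q).card : ℝ) * L <
            (n : ℝ) * ((Hset σ (tmin s n) ∩ Qneg s q).card : ℝ))) := by
      apply prob_mono
      intro σ hσ
      unfold P1 at hσ
      push Not at hσ
      obtain ⟨G, hG, q, hq1, hq2, hne, hcard, hle⟩ := hσ
      have hle' : ¬ (ω * ((Qneg s q).card : ℝ) * L <
            (n : ℝ) * ((Hset σ (tmin s n) ∩ Qneg s q).card : ℝ)) := by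
        rw [not_lt]
        rw [Fintype.card_fin] at hle
        refine le_of_eq_of_le ?_ hle
        congr!
      rw [Fintype.card_fin] at hcard
      refine ⟨G, ?_, q, ?_, hle'⟩
      · rw [mem_filter, mem_powerset]
        refine ⟨hG, ?_⟩
        rw [nonempty_iff_ne_empty]
        rintro rfl
        obtain ⟨e, he⟩ := hne
        unfold Qneg at he
        rw [mem_filter] at he
        have h0 : ∀ f, q f = 0 := by
          intro f
          by_contra h
          obtain ⟨_, g, hg, _⟩ := hq2 f h
          exact absurd hg (notMem_empty g)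
        have h2 := he.2
        unfold qsum at h2
        rw [sum_eq_zero (fun f _ => h0 f)] at h2
        have : (0 : ℤ) ≤ s := by positivity
        linarith
      · rw [hbox, mem_filter]
        refine ⟨?_, hcard⟩
        rw [Fintype.mem_piFinset]
        intro f
        split_ifs with hf
        · rw [mem_Icc]; exact hq1 f
        · rw [mem_singleton]
          by_contra h
          exact hf (mem_filter.mpr (hq2 f h))
    have h2 : ∀ G ∈ Rid.powerset.filter (fun G => G.Nonempty),
        prob (fun σ : Ord s n => ∃ q ∈ box G, ¬ (ω * ((Qneg s q).card : ℝ) * L <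
            (n : ℝ) * ((Hset σ (tmin s n) ∩ Qneg s q).card : ℝ))) ≤
        ((D : ℝ) ^ n * Real.exp (-(κ * n * L / 4))) ^ G.card := by
      intro G hG
      refine (prob_exists_le _ _).trans ?_
      have h3 : ∀ q ∈ box G, prob (fun σ : Ord s n => ¬ (ω * ((Qneg s q).card : ℝ) * L <
            (n : ℝ) * ((Hset σ (tmin s n) ∩ Qneg s q).card : ℝ))) ≤
            (Real.exp (-(κ * n * L / 4))) ^ G.card := by
        intro q hq
        refine (hQ (Qneg s q) (filter_subset _ _)).trans ?_
        rw [← Real.exp_nat_mul, Real.exp_le_exp]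
        rw [hbox, mem_filter] at hq
        have h4 := hq.2
        have h5 : κ * (n : ℝ) ^ 2 * (G.card : ℝ) * (L / (4 * n)) ≤
            ((Qneg s q).card : ℝ) * (L / (4 * n)) := by
          gcongr
        have h6 : κ * (n : ℝ) ^ 2 * (G.card : ℝ) * (L / (4 * n)) =
            (G.card : ℝ) * (κ * n * L / 4) := by
          field_simp
        have h7 : ((Qneg s q).card : ℝ) * (L / (4 * n)) = ((Qneg s q).card : ℝ) * L / (4 * n) := by
          ring
        linarith
      refine (sum_le_sum h3).trans ?_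
      rw [sum_const, nsmul_eq_mul, mul_pow]
      have := hboxcard G hG
      gcongr
    refine h1.trans ((prob_exists_le _ _).trans ((sum_le_sum h2).trans ?_))
    refine (sum_powerset_le Rid _ (by positivity)).trans ?_
    have hRcard : (Rid.card : ℝ) ≤ Real.exp (s * L) := by
      have : (Rid.card : ℝ) ≤ (n : ℝ) ^ s := by
        rw [hRid, card_powersetCard, card_univ, Fintype.card_fin]
        exact_mod_cast Nat.choose_le_pow n s
      rwa [Real.exp_nat_mul, hLdef, Real.exp_log hn0]
    have hDn : (D : ℝ) ^ n = Real.exp (n * Real.log D) := by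
      rw [Real.exp_nat_mul, Real.exp_log hD0]
    have h4 : (Rid.card : ℝ) * ((D : ℝ) ^ n * Real.exp (-(κ * n * L / 4))) ≤ 1 / n := by
      calc (Rid.card : ℝ) * ((D : ℝ) ^ n * Real.exp (-(κ * n * L / 4)))
          ≤ Real.exp (s * L) * (Real.exp (n * Real.log D) * Real.exp (-(κ * n * L / 4))) := by
            rw [hDn]; gcongr
        _ = Real.exp (s * L + n * Real.log D - κ * n * L / 4) := by
            rw [← Real.exp_add, ← Real.exp_add]; congr 1; ring
        _ ≤ Real.exp (-n) := by
            rw [Real.exp_le_exp]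
            have h5 : n * Real.log D + n ≤ κ * n * L / 8 := by
              have h6 : κ / 8 * (8 / κ * (Real.log D + 1)) ≤ κ / 8 * L := by gcongr
              have h7 : κ / 8 * (8 / κ * (Real.log D + 1)) = Real.log D + 1 := by field_simp
              rw [h7] at h6
              nlinarith
            have h8 : (s : ℝ) * L ≤ κ * n * L / 8 := by
              have h9 : 8 * (s : ℝ) / κ ≤ n := (Nat.le_ceil _).trans (by exact_mod_cast hn8)
              rw [div_le_iff₀ hκ] at h9
              nlinarith
            linarith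
        _ ≤ 1 / n := by
            rw [Real.exp_neg, ← one_div]
            apply one_div_le_one_div_of_le hn0
            linarith [Real.add_one_le_exp (n : ℝ)]
    have h5 := Real.exp_le_exp.mpr h4
    linarith
  have hlim : Tendsto (fun n : ℕ => Real.exp (1 / (n : ℝ)) - 1) atTop (nhds 0) := by
    have h1 : Tendsto (fun n : ℕ => 1 / (n : ℝ)) atTop (nhds 0) := tendsto_one_div_atTop_nhds_zero_nat
    have h2 := (Real.continuous_exp.tendsto 0).comp h1
    have h3 := h2.sub_const 1
    simpa using h3
  exact tendsto_of_tendsto_of_tendsto_of_le_of_le' tendsto_const_nhds hlim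
    (Eventually.of_forall (fun n => prob_nonneg _)) hbound

end Pool.Agent.FracK
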