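import Mathlib
import Pool.Agent.Work.MP_1ae8db_pr.DetB
import Pool.Agent.Work.MP_1ae8db_pr.E3
import Pool.Agent.Work.MP_1ae8db_pr.E5

/-!
Assembly of the deterministic and the probabilistic parts.
-/

set_option autoImplicit false

namespace Pool.Agent.FracK

open Finset Filter
open scoped Classical

/-- a fractional decomposition of `H` with weights in `[0,1]` -/
def Frac (s : ℕ) {n : ℕ} (H : Finset (Finset (Fin n))) : Prop :=
  ∃ w : Finset (Fin n) → ℝ, (∀ e, 0 ≤ w e ∧ w e ≤ 1) ∧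
    ∀ f ∈ (univ : Finset (Fin n)).powersetCard (s + 1),
      ∑ e ∈ H.filter (fun e => f ⊆ e), w e = 1

lemma Hset_mono {s n : ℕ} (σ : Ord s n) {t t' : ℕ} (h : t ≤ t') : Hset σ t ⊆ Hset σ t' := by
  unfold Hset
  exact image_subset_image (early_mono σ h)

lemma Cov_mono {s n : ℕ} {H H' : Finset (Finset (Fin n))} (h : H ⊆ H') (hc : Cov s H) :
    Cov s H' := by
  intro f hf
  obtain ⟨e, he, hfe⟩ := hc f hf
  exact ⟨e, h he, hfe⟩

lemma frac_cov {s n : ℕ} {H : Finset (Finset (Fin n))} (h : Frac s H) : Cov s H := by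
  obtain ⟨w, _, hw⟩ := h
  intro f hf
  have h1 := hw f hf
  by_contra hcon
  push Not at hcon
  have h2 : H.filter (fun e => f ⊆ e) = ∅ := by
    apply filter_eq_empty_iff.mpr
    intro e he
    exact hcon e he
  rw [h2, sum_empty] at h1
  exact zero_ne_one h1

/-- weights on a subfamily extend to the whole family and are at most one -/
lemma frac_of_subset {s n : ℕ} {H H' : Finset (Finset (Fin n))} (hsub : H ⊆ H')
    (hE : H ⊆ (univ : Finset (Fin n)).powersetCard (s + 2))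
    (h : ∃ w : Finset (Fin n) → ℝ, (∀ e, 0 ≤ w e) ∧
      ∀ f ∈ (univ : Finset (Fin n)).powersetCard (s + 1),
        ∑ e ∈ H.filter (fun e => f ⊆ e), w e = 1) : Frac s H' := by
  obtain ⟨w, hw0, hw⟩ := h
  refine ⟨fun e => if e ∈ H then w e else 0, fun e => ?_, fun f hf => ?_⟩
  · show 0 ≤ (if e ∈ H then w e else 0) ∧ (if e ∈ H then w e else 0) ≤ 1
    split_ifs with he
    · refine ⟨hw0 e, ?_⟩
      have hec := (mem_powersetCard.mp (hE he)).2
      obtain ⟨f, hfe, hfc⟩ := exists_subset_card_eq (show s + 1 ≤ e.card by omega)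
      have h1 := hw f (mem_powersetCard.mpr ⟨subset_univ _, hfc⟩)
      rw [← h1]
      exact single_le_sum (f := w) (fun e' _ => hw0 e') (mem_filter.mpr ⟨he, hfe⟩)
    · exact ⟨le_refl _, zero_le_one⟩
  · rw [← hw f hf]
    have h1 : H.filter (fun e => f ⊆ e) ⊆ H'.filter (fun e => f ⊆ e) :=
      filter_subset_filter _ hsub
    rw [← sum_subset h1]
    · apply sum_congr rfl
      intro e he
      rw [if_pos (mem_filter.mp he).1]
    · intro e he hne
      apply if_neg
      intro heH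
      exact hne (mem_filter.mpr ⟨heH, (mem_filter.mp he).2⟩)

/-- the deterministic consequence, for all large `n` -/
theorem main_event (s : ℕ) (γ' : ℝ) (hγ' : 0 < γ') :
    ∃ (a : ℤ) (κ ω γ : ℝ), 0 < κ ∧ 0 < γ ∧ 0 < ω ∧ ω ≤ 1 / 100 ∧ ∀ ε : ℝ, 0 < ε →
      ∀ᶠ n : ℕ in atTop, ∀ σ : Ord s n,
        Cov s (Hset σ (tmax s n)) → ¬ Cov s (Hset σ (tmin s n)) →
        P1 s a (κ * ε) ω (Real.log n) (Hset σ (tmin s n)) →
        P2 s ε γ (Real.log n) (Hset σ (tmax s n)) →
        P3 s γ' (Real.log n) (Hset σ (tmin s n)) (Hset σ (tmax s n)) →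
        ∀ t : ℕ, (Cov s (Hset σ t) ↔ Frac s (Hset σ t)) := by
  set C : ℝ := ((2 * s + 3).choose (s + 1) : ℝ) with hC
  have hC0 : 0 < C := by
    have : 0 < (2 * s + 3).choose (s + 1) := Nat.choose_pos (by omega)
    rw [hC]; exact_mod_cast this
  have hs2 : (0 : ℝ) < (s : ℝ) + 2 := by positivity
  have hs1 : (0 : ℝ) < (s : ℝ) + 1 := by positivity
  set c : ℝ := 1 / (2 * ((s : ℝ) + 2) * C) with hc
  have hc0 : 0 < c := by positivity
  set β : ℝ := c / 6 with hβ
  have hβ0 : 0 < β := by positivity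
  set η : ℝ := β / (4 * ((s : ℝ) + 2)) with hη
  have hη0 : 0 < η := by positivity
  set η' : ℝ := η / ((s : ℝ) + 2) with hη'
  have hη'0 : 0 < η' := by positivity
  set γ : ℝ := min (η' * γ' / (4 * ((s : ℝ) + 2))) (η' / 400) with hγ
  have hγ0 : 0 < γ := by
    rw [hγ]; exact lt_min (by positivity) (by positivity)
  have hγ1 : 4 * ((s : ℝ) + 2) * γ ≤ η' * γ' := by
    have : γ ≤ η' * γ' / (4 * ((s : ℝ) + 2)) := min_le_left _ _
    rw [le_div_iff₀ (by positivity)] at this
    linarith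
  have hγ2 : 4 * γ / η' ≤ 1 / 100 := by
    have : γ ≤ η' / 400 := min_le_right _ _
    rw [div_le_iff₀ hη'0]
    linarith
  refine ⟨⌈1 / η⌉, η' / (2 * ((s : ℝ) + 1)), 4 * γ / η', γ, by positivity, hγ0,
    by positivity, hγ2, ?_⟩
  intro ε hε
  filter_upwards [ev_log_ge 1, ev_log_ge (2 * ((s : ℝ) + 2) / γ'), ev_log_ge (((s : ℝ) + 2) / γ),
    eventually_ge_atTop (2 * s + 4)] with n hL1 hL2 hL3 hn
  intro σ hcmax hcmin h1 h2 h3
  have hn0 : (0 : ℝ) < n := by
    have : 0 < n := by omega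
    exact_mod_cast this
  intro t
  refine ⟨?_, frac_cov⟩
  intro hcov
  have htmin : tmin s n ≤ t := by
    by_contra h
    push Not at h
    exact hcmin (Cov_mono (Hset_mono σ h.le) hcov)
  set t' := min t (tmax s n) with ht'
  have hcov' : Cov s (Hset σ t') := by
    rcases le_total t (tmax s n) with h | h
    · rw [ht', min_eq_left h]; exact hcov
    · rw [ht', min_eq_right h]; exact hcmax
  have hmin' : tmin s n ≤ t' := le_min htmin (tmin_le_tmax s n)
  have hmax' : t' ≤ tmax s n := min_le_right _ _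
  have ht't : t' ≤ t := min_le_left _ _
  apply frac_of_subset (Hset_mono σ ht't) (Hset_subset σ t')
  have hκ : η' / (2 * ((s : ℝ) + 1)) * ε = η' * ε / (2 * ((s : ℝ) + 1)) := by ring
  rw [hκ] at h1
  have hinv : ∀ y : Finset (Fin n) → ℝ, c * (Fintype.card (Fin n) : ℝ) *
      ∑ f ∈ (univ : Finset (Fin n)).powersetCard (s + 1), |y f| ≤
      ∑ e ∈ (univ : Finset (Fin n)).powersetCard (s + 2), |ysum s y e| := by
    intro y
    have h4 := l1_global s (V := Fin n) (by rw [Fintype.card_fin]; omega) y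
    have hhalf : (n : ℝ) / 2 ≤ ((Fintype.card (Fin n) : ℝ) - s - 1) := by
      rw [Fintype.card_fin]
      have : (2 * (s : ℝ) + 4) ≤ n := by exact_mod_cast hn
      linarith
    set Y := ∑ f ∈ (univ : Finset (Fin n)).powersetCard (s + 1), |y f| with hY
    have hY0 : 0 ≤ Y := sum_nonneg (fun _ _ => abs_nonneg _)
    have h5 : (n : ℝ) / 2 * Y ≤ ((s : ℝ) + 2) * C *
        ∑ e ∈ (univ : Finset (Fin n)).powersetCard (s + 2), |ysum s y e| :=
      (mul_le_mul_of_nonneg_right hhalf hY0).trans h4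
    rw [Fintype.card_fin, hc]
    have h6 : 1 / (2 * ((s : ℝ) + 2) * C) * (n : ℝ) * Y =
        ((n : ℝ) / 2 * Y) / (((s : ℝ) + 2) * C) := by
      field_simp
    rw [h6, div_le_iff₀ (by positivity)]
    linarith
  have k1 : 2 * s + 3 ≤ Fintype.card (Fin n) := by rw [Fintype.card_fin]; omega
  have k2 : η * (4 * ((s : ℝ) + 2)) = β := by rw [hη]; field_simp
  have k3 : η' * ((s : ℝ) + 2) = η := by rw [hη']; field_simp
  have k4 : 1 / η ≤ ((⌈1 / η⌉ : ℤ) : ℝ) := Int.le_ceil _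
  have k5 : 2 * ((s : ℝ) + 2) ≤ γ' * Real.log n := by
    rw [div_le_iff₀ hγ'] at hL2; linarith
  have k6 : (s : ℝ) + 2 ≤ γ * Real.log n := by
    rw [div_le_iff₀ hγ0] at hL3; linarith
  have hdet := det s c β η η' γ' γ ε (Real.log n) ⌈1 / η⌉ (Hset σ (tmin s n)) (Hset σ t')
      (Hset σ (tmax s n)) k1 hc0 rfl k2 k3 k4 hγ' hγ0 hγ1 hε (by linarith) k5 k6 hinv h1 h2 h3
      (Hset_mono σ hmin') (Hset_mono σ hmax') (Hset_subset σ _) hcov'
  convert hdet

/-- a.a.s. covering and fractional decompositions appear at the same time -/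
theorem aas (s : ℕ) (e1 : StmtE1 s) (e2 : StmtE2 s) (e4 : StmtE4 s) :
    Tendsto (fun n : ℕ => prob (fun σ : Ord s n =>
      ∀ t : ℕ, (Cov s (Hset σ t) ↔ Frac s (Hset σ t)))) atTop (nhds 1) := by
  obtain ⟨γ', hγ', h4⟩ := e4
  obtain ⟨a, κ, ω, γ, hκ, hγ, hω, hω1, hmain⟩ := main_event s γ' hγ'
  obtain ⟨ε, hε, h3⟩ := stmtE3 s γ hγ
  have hm := hmain ε hε
  have h5 := stmtE5 s a (κ * ε) ω (by positivity) hω hω1
  have hsum : Tendsto (fun n : ℕ =>
      1 - (prob (fun σ : Ord s n => ¬ Cov s (Hset σ (tmax s n))) +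
        (prob (fun σ : Ord s n => Cov s (Hset σ (tmin s n))) +
        (prob (fun σ : Ord s n => ¬ P1 s a (κ * ε) ω (Real.log n) (Hset σ (tmin s n))) +
        (prob (fun σ : Ord s n => ¬ P2 s ε γ (Real.log n) (Hset σ (tmax s n))) +
        prob (fun σ : Ord s n => ¬ P3 s γ' (Real.log n) (Hset σ (tmin s n))
          (Hset σ (tmax s n)))))))) atTop (nhds 1) := by
    have := tendsto_const_nhds (x := (1 : ℝ)) (f := (atTop : Filter ℕ)) |>.sub
      (e1.add (e2.add (h5.add (h3.add h4))))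
    simpa using this
  refine tendsto_of_tendsto_of_tendsto_of_le_of_le' hsum tendsto_const_nhds ?_ ?_
  · filter_upwards [hm] with n hn
    have hnot : prob (fun σ : Ord s n => ¬ ∀ t : ℕ, (Cov s (Hset σ t) ↔ Frac s (Hset σ t))) ≤
        prob (fun σ : Ord s n => ¬ Cov s (Hset σ (tmax s n)) ∨
          (Cov s (Hset σ (tmin s n)) ∨
          (¬ P1 s a (κ * ε) ω (Real.log n) (Hset σ (tmin s n)) ∨
          (¬ P2 s ε γ (Real.log n) (Hset σ (tmax s n)) ∨
          ¬ P3 s γ' (Real.log n) (Hset σ (tmin s n)) (Hset σ (tmax s n)))))) := by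
      apply prob_mono
      intro σ hσ
      by_contra hcon
      push Not at hcon
      obtain ⟨g1, g2, g3, g4, g5⟩ := hcon
      exact hσ (hn σ g1 g2 g3 g4 g5)
    rw [prob_not (card_Edg s n)] at hnot
    have hub := hnot.trans ((prob_or_le _ _).trans (add_le_add (le_refl _)
      ((prob_or_le _ _).trans (add_le_add (le_refl _)
      ((prob_or_le _ _).trans (add_le_add (le_refl _) (prob_or_le _ _)))))))
    linarith
  · filter_upwards with n
    rw [← prob_true (card_Edg s n)]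
    exact prob_mono (fun _ _ => trivial)

end Pool.Agent.FracK
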