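import Mathlib
import Pool.Agent.Work.MP_1ae8db_pr.Final

/-!
Translation to the form of the frozen statement.
-/

set_option autoImplicit false

namespace Pool.Agent.FracK

open Finset Filter
open scoped Classical

lemma bridge_cov (s n : ℕ) (σ : Ord s n) (t : ℕ) :
    (∀ f : Finset (Fin n), f.card = s + 1 →
      ∃ i : Fin (n.choose (s + 2)), i.val < t ∧ f ⊆ (σ i).val) ↔ Cov s (Hset σ t) := by
  constructor
  · intro h f hf
    obtain ⟨i, hi, hfi⟩ := h f (mem_powersetCard.mp hf).2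
    refine ⟨(σ i).val, ?_, hfi⟩
    rw [mem_Hset]
    refine ⟨(σ i).2, ?_⟩
    simpa using hi
  · intro h f hf
    obtain ⟨e, he, hfe⟩ := h f (mem_powersetCard.mpr ⟨subset_univ _, hf⟩)
    rw [mem_Hset] at he
    obtain ⟨hec, hlt⟩ := he
    exact ⟨σ.symm ⟨e, hec⟩, hlt, by simpa using hfe⟩

lemma bridge_sum (s n : ℕ) (σ : Ord s n) (t : ℕ) (w : Finset (Fin n) → ℝ) (f : Finset (Fin n)) :
    ∑ i ∈ Finset.univ.filter (fun i : Fin (n.choose (s + 2)) => i.val < t ∧ f ⊆ (σ i).val),
      w (σ i).val = ∑ e ∈ (Hset σ t).filter (fun e => f ⊆ e), w e := by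
  apply sum_bij (fun i _ => (σ i).val)
  · intro i hi
    rw [mem_filter] at hi ⊢
    refine ⟨?_, hi.2.2⟩
    rw [mem_Hset]
    exact ⟨(σ i).2, by simpa using hi.2.1⟩
  · intro i _ j _ hij
    exact σ.injective (Subtype.ext hij)
  · intro e he
    rw [mem_filter, mem_Hset] at he
    obtain ⟨⟨hec, hlt⟩, hfe⟩ := he
    exact ⟨σ.symm ⟨e, hec⟩, mem_filter.mpr ⟨mem_univ _, hlt, by simpa using hfe⟩, by simp⟩
  · intro i _
    rfl

lemma bridge_frac (s n : ℕ) (σ : Ord s n) (t : ℕ) :
    (∃ w : Finset (Fin n) → ℝ, (∀ e, 0 ≤ w e ∧ w e ≤ 1) ∧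
      ∀ f : Finset (Fin n), f.card = s + 1 →
        ∑ i ∈ Finset.univ.filter (fun i : Fin (n.choose (s + 2)) => i.val < t ∧ f ⊆ (σ i).val),
          w (σ i).val = 1) ↔ Frac s (Hset σ t) := by
  constructor
  · rintro ⟨w, hw1, hw2⟩
    refine ⟨w, hw1, fun f hf => ?_⟩
    rw [← bridge_sum]
    exact hw2 f (mem_powersetCard.mp hf).2
  · rintro ⟨w, hw1, hw2⟩
    refine ⟨w, hw1, fun f hf => ?_⟩
    rw [bridge_sum]
    exact hw2 f (mem_powersetCard.mpr ⟨subset_univ _, hf⟩)

theorem bridge (s : ℕ) (e1 : StmtE1 s) (e2 : StmtE2 s) (e4 : StmtE4 s) :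
    Filter.Tendsto
        (fun n : ℕ =>
          ((Finset.univ.filter
              (fun σ : Fin (n.choose (s + 2)) ≃ {e : Finset (Fin n) // e.card = s + 2} =>
                ∀ t : ℕ,
                  ((∀ f : Finset (Fin n), f.card = s + 1 →
                      ∃ i : Fin (n.choose (s + 2)), i.val < t ∧ f ⊆ (σ i).val) ↔
                    (∃ w : Finset (Fin n) → ℝ,
                      (∀ e, 0 ≤ w e ∧ w e ≤ 1) ∧
                      ∀ f : Finset (Fin n), f.card = s + 1 →
                        ∑ i ∈ Finset.univ.filter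
                            (fun i : Fin (n.choose (s + 2)) => i.val < t ∧ f ⊆ (σ i).val),
                          w (σ i).val = 1)))).card : ℝ) /
            (Fintype.card (Fin (n.choose (s + 2)) ≃ {e : Finset (Fin n) // e.card = s + 2}) : ℝ))
        Filter.atTop (nhds 1) := by
  have h := aas s e1 e2 e4
  refine h.congr (fun n => ?_)
  unfold prob
  congr 2
  · congr 1
    ext σ
    rw [mem_evt, mem_filter]
    simp only [mem_univ, true_and, bridge_cov, bridge_frac]

end Pool.Agent.FracK
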