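import Pool.Agent.Work.MP_1ae8db_pr.Cover
import Pool.Agent.Work.MP_1ae8db_pr.Params

/-!
# The statements E1 and E2
-/

set_option autoImplicit false

namespace Pool.Agent.FracK

open Finset
open scoped Classical

/-- Comparison of the two ways of writing the probability. -/
theorem prob_le_pr {α : Type*} [Fintype α] [i1 : DecidableEq α] {T : ℕ}
    (P : (Fin T ≃ α) → Prop) (A : Finset (Fin T ≃ α)) (h : ∀ σ, P σ → σ ∈ A) :
    prob P ≤ MP1ae8db.pr A := by
  unfold prob MP1ae8db.pr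
  gcongr
  intro σ hσ
  rw [mem_evt] at hσ
  exact h σ hσ

theorem early_eq_pre {α : Type*} [Fintype α] {T : ℕ} (σ : Fin T ≃ α) (t : ℕ) :
    early σ t = MP1ae8db.pre σ t := by
  ext x
  rw [mem_early, MP1ae8db.mem_pre]

theorem cov_iff {s n : ℕ} (σ : Ord s n) (t : ℕ) :
    Cov s (Hset σ t) ↔ ∀ f ∈ MP1ae8db.fac n (s + 2),
      ¬ Disjoint (MP1ae8db.star n (s + 2) f) (MP1ae8db.pre σ t) := by
  unfold Cov
  have h1 : MP1ae8db.fac n (s + 2) = (univ : Finset (Fin n)).powersetCard (s + 1) := rfl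
  rw [h1]
  refine forall₂_congr fun f hf => ?_
  rw [Finset.not_disjoint_iff]
  constructor
  · rintro ⟨e, he, hfe⟩
    rw [mem_Hset] at he
    obtain ⟨hc, ht⟩ := he
    exact ⟨⟨e, hc⟩, MP1ae8db.mem_star.mpr hfe, MP1ae8db.mem_pre.mpr ht⟩
  · rintro ⟨e, he, he'⟩
    exact ⟨e.val, mem_Hset.mpr ⟨e.2, MP1ae8db.mem_pre.mp he'⟩, MP1ae8db.mem_star.mp he⟩

theorem tt_le_tmax (s : ℕ) :
    ∀ᶠ n : ℕ in Filter.atTop, MP1ae8db.tt (s + 2) n (2 * ((s : ℝ) + 1)) ≤ tmax s n := by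
  filter_upwards [Filter.eventually_ge_atTop (3 * (s + 2))] with n hn
  unfold MP1ae8db.tt tmax
  apply (Nat.floor_mono _).trans (Nat.floor_le_ceil _)
  have hn0 : (0 : ℝ) < n := by
    have : 0 < n := by omega
    exact_mod_cast this
  have hm0 : (0 : ℝ) < ((n - (s + 2 - 1) : ℕ) : ℝ) := by
    have : 0 < n - (s + 2 - 1) := by omega
    exact_mod_cast this
  have hL : 0 ≤ Real.log n := Real.log_natCast_nonneg n
  have h1 : (2 : ℝ) * n ≤ 3 * ((n - (s + 2 - 1) : ℕ) : ℝ) := by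
    have : 2 * n ≤ 3 * (n - (s + 2 - 1)) := by omega
    exact_mod_cast this
  rw [div_le_div_iff₀ hm0 hn0]
  have h2 : 0 ≤ ((s : ℝ) + 1) * Real.log n * (n.choose (s + 2) : ℝ) := by positivity
  nlinarith

theorem tmin_le_tt (s : ℕ) :
    ∀ᶠ n : ℕ in Filter.atTop, tmin s n ≤ MP1ae8db.tt (s + 2) n (3 / 4 * ((s : ℝ) + 1)) := by
  filter_upwards [Filter.eventually_ge_atTop (3 * (s + 2))] with n hn
  unfold MP1ae8db.tt tmin
  apply Nat.floor_mono
  have hm0 : (0 : ℝ) < ((n - (s + 2 - 1) : ℕ) : ℝ) := by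
    have : 0 < n - (s + 2 - 1) := by omega
    exact_mod_cast this
  have hL : 0 ≤ Real.log n := Real.log_natCast_nonneg n
  have h1 : ((n - (s + 2 - 1) : ℕ) : ℝ) ≤ n := by exact_mod_cast Nat.sub_le _ _
  gcongr

theorem stmtE1 (s : ℕ) : StmtE1 s := by
  unfold StmtE1
  have h := MP1ae8db.whp_cover (k := s + 2) (by omega) (a := 2 * ((s : ℝ) + 1))
    (by push_cast; linarith [(Nat.cast_nonneg s : (0 : ℝ) ≤ s)])
  refine squeeze_zero' (Filter.Eventually.of_forall fun n => prob_nonneg _) ?_ h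
  filter_upwards [tt_le_tmax s] with n hn
  refine (le_trans (prob_le_pr _ ((univ : Finset (Ord s n)).filter
        (fun σ => ∃ f ∈ MP1ae8db.fac n (s + 2), Disjoint (MP1ae8db.star n (s + 2) f)
          (MP1ae8db.pre σ (MP1ae8db.tt (s + 2) n (2 * ((s : ℝ) + 1)))))) ?_) (le_of_eq ?_))
  · intro σ hσ
    rw [cov_iff] at hσ
    push Not at hσ
    obtain ⟨f, hf, hd⟩ := hσ
    rw [Finset.mem_filter]
    exact ⟨Finset.mem_univ _, f, hf, hd.mono_right (MP1ae8db.pre_mono hn)⟩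
  · congr!

theorem stmtE2 (s : ℕ) : StmtE2 s := by
  unfold StmtE2
  have hs : (0 : ℝ) ≤ s := Nat.cast_nonneg s
  have h := MP1ae8db.whp_not_cover (k := s + 2) (by omega) (a := 3 / 4 * ((s : ℝ) + 1))
    (by positivity) (by push_cast; linarith)
  refine squeeze_zero' (Filter.Eventually.of_forall fun n => prob_nonneg _) ?_ h
  filter_upwards [tmin_le_tt s] with n hn
  refine (le_trans (prob_le_pr _ ((univ : Finset (Ord s n)).filter
        (fun σ => ∀ f ∈ MP1ae8db.fac n (s + 2), ¬ Disjoint (MP1ae8db.star n (s + 2) f)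
          (MP1ae8db.pre σ (MP1ae8db.tt (s + 2) n (3 / 4 * ((s : ℝ) + 1)))))) ?_) (le_of_eq ?_))
  · intro σ hσ
    rw [cov_iff] at hσ
    rw [Finset.mem_filter]
    exact ⟨Finset.mem_univ _, fun f hf hd =>
      hσ f hf (hd.mono_right (MP1ae8db.pre_mono hn))⟩
  · congr!

end Pool.Agent.FracK
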