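import Pool.Agent.Work.MP_1ae8db_pr.Walk
import Pool.Agent.Work.MP_1ae8db_pr.E1

/-!
# The statement E4: low facets are far apart
-/

set_option autoImplicit false

namespace Pool.Agent.MP1ae8db

open Finset

theorem walk_prob {n k : ℕ} (hk : 2 ≤ k) {f g : Finset (Fin n)} (hf : f.card = k - 1)
    (hg : g.card = k - 1) (hfg : f ≠ g) (A : Finset (Ed n k)) (hA : A.card ≤ 4)
    {tp tm : ℕ} (hm : 4 * (n - (k - 1)) ≤ n.choose k) (htp : 4 * tp ≤ n.choose k)
    (htm : tm ≤ n.choose k) (hT0 : 0 < n.choose k) {s : ℝ} (hs : 0 ≤ s) (x : ℝ)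
    {α C : ℝ} (hα : 0 ≤ α) (hα1 : α - 1 / (n.choose k : ℝ) ≤ (tm : ℝ) / (n.choose k : ℝ))
    (hC : (tp : ℝ) / (n.choose k : ℝ) ≤ C) :
    pr ((univ : Finset (Fin (n.choose k) ≃ Ed n k)).filter
        (fun σ => A ⊆ pre σ tp ∧ ((star n k f ∩ pre σ tm).card : ℝ) ≤ x
          ∧ ((star n k g ∩ pre σ tm).card : ℝ) ≤ x))
      ≤ (2 * C) ^ A.card
        * Real.exp (s * (2 * x) - (1 - Real.exp (-s))
            * (α * (2 * ((n - (k - 1) : ℕ) : ℝ) - 5) - 1)) := by
  have hT : Fintype.card (Ed n k) = n.choose k := card_Ed n k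
  have hT' : (0 : ℝ) < n.choose k := by exact_mod_cast hT0
  set Q := (star n k f ∪ star n k g) \ A with hQ
  have hd : Disjoint A Q := by
    rw [hQ]
    exact Finset.disjoint_sdiff
  have h1 := Finset.card_union_add_card_inter (star n k f) (star n k g)
  have h2 := card_star_inter (by omega) hf hg hfg
  rw [card_star (by omega) hf, card_star (by omega) hg] at h1
  have hQ1 : Q.card ≤ 2 * (n - (k - 1)) := by
    have : Q.card ≤ (star n k f ∪ star n k g).card := Finset.card_le_card Finset.sdiff_subset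
    omega
  have hQ2 : 2 * (n - (k - 1)) ≤ Q.card + 5 := by
    have h3 : (star n k f ∪ star n k g).card ≤ Q.card + A.card := by
      rw [hQ]
      have := Finset.card_le_card_sdiff_add_card (t := A) (s := star n k f ∪ star n k g)
      exact this
    omega
  have hQ1' : (Q.card : ℝ) ≤ 2 * ((n - (k - 1) : ℕ) : ℝ) := by exact_mod_cast hQ1
  have hQ2' : 2 * ((n - (k - 1) : ℕ) : ℝ) - 5 ≤ (Q.card : ℝ) := by
    have : ((2 * (n - (k - 1)) : ℕ) : ℝ) ≤ ((Q.card + 5 : ℕ) : ℝ) := by exact_mod_cast hQ2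
    push_cast at this
    linarith
  have hm' : 4 * ((n - (k - 1) : ℕ) : ℝ) ≤ (n.choose k : ℝ) := by exact_mod_cast hm
  have hlow := pr_low hT A Q hd htm (t₁ := tp) (by omega) (fun _ => by omega) hs (2 * x)
  refine (pr_mono ?_).trans (hlow.trans ?_)
  · intro σ hσ
    rw [Finset.mem_filter] at hσ ⊢
    refine ⟨Finset.mem_univ _, hσ.2.1, ?_⟩
    have h3 : (pre σ tm ∩ Q).card ≤ (star n k f ∩ pre σ tm).card
        + (star n k g ∩ pre σ tm).card := by
      refine le_trans (Finset.card_le_card ?_) (Finset.card_union_le _ _)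
      intro e he
      rw [hQ, Finset.mem_inter, Finset.mem_sdiff, Finset.mem_union] at he
      rw [Finset.mem_union, Finset.mem_inter, Finset.mem_inter]
      tauto
    have h4 : ((pre σ tm ∩ Q).card : ℝ) ≤ ((star n k f ∩ pre σ tm).card : ℝ)
        + ((star n k g ∩ pre σ tm).card : ℝ) := by exact_mod_cast h3
    linarith [hσ.2.2.1, hσ.2.2.2]
  · have hden : (n.choose k : ℝ) / 2 ≤ (n.choose k : ℝ) - Q.card := by linarith
    have hbase : (tp : ℝ) / ((n.choose k : ℝ) - Q.card) ≤ 2 * C := by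
      calc (tp : ℝ) / ((n.choose k : ℝ) - Q.card) ≤ (tp : ℝ) / ((n.choose k : ℝ) / 2) := by
            gcongr
        _ = 2 * ((tp : ℝ) / (n.choose k : ℝ)) := by field_simp
        _ ≤ 2 * C := by linarith
    have hbase0 : 0 ≤ (tp : ℝ) / ((n.choose k : ℝ) - Q.card) := by
      apply div_nonneg (by positivity)
      linarith
    have hexp : s * (2 * x) - (tm : ℝ) / (n.choose k : ℝ) * (1 - Real.exp (-s)) * Q.card
        ≤ s * (2 * x) - (1 - Real.exp (-s))
            * (α * (2 * ((n - (k - 1) : ℕ) : ℝ) - 5) - 1) := by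
      have h5 : 0 ≤ 1 - Real.exp (-s) := by
        have : Real.exp (-s) ≤ 1 := by rw [Real.exp_le_one_iff]; linarith
        linarith
      have h6 : α * (2 * ((n - (k - 1) : ℕ) : ℝ) - 5) - 1
          ≤ (tm : ℝ) / (n.choose k : ℝ) * Q.card := by
        have h7 : (α - 1 / (n.choose k : ℝ)) * Q.card
            ≤ (tm : ℝ) / (n.choose k : ℝ) * Q.card := by gcongr
        have h8 : α * (2 * ((n - (k - 1) : ℕ) : ℝ) - 5) ≤ α * Q.card := by gcongr
        have h9 : 1 / (n.choose k : ℝ) * Q.card ≤ 1 := by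
          rw [div_mul_eq_mul_div, one_mul, div_le_one hT']
          linarith
        nlinarith
      have := mul_le_mul_of_nonneg_left h6 h5
      linarith
    have hC0 : 0 ≤ 2 * C := hbase0.trans hbase
    gcongr

/-- The bad event: two low facets joined by a short walk. -/
def Bad (n k : ℕ) (x : ℝ) (tm tp : ℕ) (σ : Fin (n.choose k) ≃ Ed n k) : Prop :=
  ∃ l ∈ range 5, ∃ w ∈ W n k l, w.2.1.card = l ∧ w.1 ≠ w.2.2 ∧ w.2.1 ⊆ pre σ tp
    ∧ ((star n k w.1 ∩ pre σ tm).card : ℝ) ≤ x ∧ ((star n k w.2.2 ∩ pre σ tm).card : ℝ) ≤ x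

theorem tmax_div_le (s : ℕ) : ∀ᶠ n : ℕ in Filter.atTop,
    (FracK.tmax s n : ℝ) / (n.choose (s + 2) : ℝ) ≤ 4 * ((s : ℝ) + 1) * Real.log n / n := by
  filter_upwards [Filter.eventually_ge_atTop (s + 3)] with n hn
  have hn0 : (0 : ℝ) < n := by
    have : 0 < n := by omega
    exact_mod_cast this
  have hT0 : 0 < n.choose (s + 2) := Nat.choose_pos (by omega)
  have hT' : (0 : ℝ) < n.choose (s + 2) := by exact_mod_cast hT0
  have hTn : n ≤ n.choose (s + 2) := choose_ge_self n (s + 2) (by omega) (by omega)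
  have hTn' : (n : ℝ) ≤ n.choose (s + 2) := by exact_mod_cast hTn
  have hL : 1 ≤ Real.log n := by
    rw [Real.le_log_iff_exp_le hn0]
    have h3 : (3 : ℝ) ≤ n := by
      have : 3 ≤ n := by omega
      exact_mod_cast this
    linarith [Real.exp_one_lt_d9]
  have hs0 : (0 : ℝ) ≤ s := Nat.cast_nonneg s
  have hx0 : 0 ≤ (3 : ℝ) * ((s : ℝ) + 1) * Real.log n * (n.choose (s + 2) : ℝ) / (n : ℝ) := by
    positivity
  have h1 := (Nat.ceil_lt_add_one hx0).le
  have h2 : 1 ≤ ((s : ℝ) + 1) * Real.log n * ((n.choose (s + 2) : ℝ) / (n : ℝ)) := by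
    have h3 : 1 ≤ (n.choose (s + 2) : ℝ) / (n : ℝ) := by rw [one_le_div hn0]; exact hTn'
    have h4 : 1 ≤ ((s : ℝ) + 1) * Real.log n := by nlinarith
    nlinarith
  rw [div_le_iff₀ hT']
  unfold FracK.tmax
  refine h1.trans ?_
  have h5 : 4 * ((s : ℝ) + 1) * Real.log n / n * (n.choose (s + 2) : ℝ)
      = (3 : ℝ) * ((s : ℝ) + 1) * Real.log n * (n.choose (s + 2) : ℝ) / (n : ℝ)
        + ((s : ℝ) + 1) * Real.log n * ((n.choose (s + 2) : ℝ) / (n : ℝ)) := by
    ring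
  rw [h5]
  linarith

theorem tmin_div_ge (s : ℕ) {n : ℕ} (hn : s + 2 ≤ n) :
    3 / 4 * ((s : ℝ) + 1) * Real.log n / n - 1 / (n.choose (s + 2) : ℝ)
      ≤ (FracK.tmin s n : ℝ) / (n.choose (s + 2) : ℝ) := by
  have hT0 : 0 < n.choose (s + 2) := Nat.choose_pos (by omega)
  have hT' : (0 : ℝ) < n.choose (s + 2) := by exact_mod_cast hT0
  rw [le_div_iff₀ hT', sub_mul, one_div, inv_mul_cancel₀ hT'.ne']
  have := Nat.lt_floor_add_one
    ((3 / 4 : ℝ) * ((s : ℝ) + 1) * Real.log n * (n.choose (s + 2) : ℝ) / (n : ℝ))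
  have h2 : 3 / 4 * ((s : ℝ) + 1) * Real.log n / n * (n.choose (s + 2) : ℝ)
      = (3 / 4 : ℝ) * ((s : ℝ) + 1) * Real.log n * (n.choose (s + 2) : ℝ) / (n : ℝ) := by ring
  rw [h2]
  unfold FracK.tmin
  linarith

theorem tmin_le_tmax (s n : ℕ) : FracK.tmin s n ≤ FracK.tmax s n := by
  unfold FracK.tmin FracK.tmax
  apply (Nat.floor_mono _).trans (Nat.floor_le_ceil _)
  have hL : 0 ≤ Real.log n := Real.log_natCast_nonneg n
  have : (3 / 4 : ℝ) ≤ 3 := by norm_num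
  gcongr

theorem log_div_small {ε : ℝ} (hε : 0 < ε) (a : ℝ) :
    ∀ᶠ n : ℕ in Filter.atTop, a * Real.log n / n ≤ ε := by
  have h := tendsto_log_div 1 a
  filter_upwards [h.eventually (gt_mem_nhds hε)] with n hn
  simpa using hn.le

/-- The bad event has small probability. -/
theorem whp_walk (s : ℕ) : ∃ γ' : ℝ, 0 < γ' ∧ Filter.Tendsto (fun n : ℕ =>
    pr ((@Finset.filter (Fin (n.choose (s + 2)) ≃ Ed n (s + 2))
      (Bad n (s + 2) (γ' * Real.log n) (FracK.tmin s n) (FracK.tmax s n))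
      (Classical.decPred _) univ))) Filter.atTop (nhds 0) := by
  have hlog10 : 0 < Real.log 10 := Real.log_pos (by norm_num)
  have hs0 : (0 : ℝ) ≤ s := Nat.cast_nonneg s
  obtain ⟨γ', hγ'⟩ : ∃ γ' : ℝ, γ' = 0.04 * ((s : ℝ) + 1) / Real.log 10 := ⟨_, rfl⟩
  have hγpos : 0 < γ' := by rw [hγ']; positivity
  have hγeq : Real.log 10 * (2 * γ') = 0.08 * ((s : ℝ) + 1) := by
    rw [hγ']
    field_simp
    norm_num
  refine ⟨γ', hγpos, ?_⟩
  -- the limiting function
  obtain ⟨K, hK⟩ : ∃ K : ℝ, K = 5 * (8 * ((s : ℝ) + 1) * ((s : ℝ) + 2)) ^ 4 * Real.exp 1 :=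
    ⟨_, rfl⟩
  have hlim : Filter.Tendsto (fun n : ℕ => K * (5 ^ 4 *
      ((Real.log n / 5) ^ 4 * Real.exp (- (Real.log n / 5))))) Filter.atTop (nhds 0) := by
    have h1 := Real.tendsto_pow_mul_exp_neg_atTop_nhds_zero 4
    have h2 : Filter.Tendsto (fun n : ℕ => Real.log n / 5) Filter.atTop Filter.atTop :=
      (Real.tendsto_log_atTop.comp tendsto_natCast_atTop_atTop).atTop_div_const (by norm_num)
    have h3 := ((h1.comp h2).const_mul (5 ^ 4)).const_mul K
    simpa using h3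
  refine squeeze_zero' (Filter.Eventually.of_forall fun n => pr_nonneg _) ?_ hlim
  filter_upwards [Filter.eventually_ge_atTop (20 * s + 100), tmax_div_le s,
    m_small (k := s + 2) (by omega) (ε := 1 / 4) (by norm_num),
    log_div_small (ε := 1 / 4) (by norm_num) (4 * ((s : ℝ) + 1))] with n hn htmax hm hlogn
  have hn0 : (0 : ℝ) < n := by
    have : 0 < n := by omega
    exact_mod_cast this
  have hT0 : 0 < n.choose (s + 2) := Nat.choose_pos (by omega)
  have hT' : (0 : ℝ) < n.choose (s + 2) := by exact_mod_cast hT0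
  have hL : 1 ≤ Real.log n := by
    rw [Real.le_log_iff_exp_le hn0]
    have h3 : (3 : ℝ) ≤ n := by
      have : 3 ≤ n := by omega
      exact_mod_cast this
    linarith [Real.exp_one_lt_d9]
  have hk1 : s + 2 - 1 = s + 1 := by omega
  have hm4 : 4 * (n - (s + 2 - 1)) ≤ n.choose (s + 2) := by
    have : ((4 * (n - (s + 2 - 1)) : ℕ) : ℝ) ≤ (n.choose (s + 2) : ℝ) := by
      rw [Nat.cast_mul]
      push_cast at hm ⊢
      linarith
    exact_mod_cast this
  have htp4 : 4 * FracK.tmax s n ≤ n.choose (s + 2) := by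
    have h1 : (FracK.tmax s n : ℝ) / (n.choose (s + 2) : ℝ) ≤ 1 / 4 := htmax.trans hlogn
    rw [div_le_iff₀ hT'] at h1
    have : ((4 * FracK.tmax s n : ℕ) : ℝ) ≤ (n.choose (s + 2) : ℝ) := by
      push_cast
      linarith
    exact_mod_cast this
  have htm : FracK.tmin s n ≤ n.choose (s + 2) := by
    have := tmin_le_tmax s n
    omega
  have htmin := tmin_div_ge s (n := n) (by omega)
  obtain ⟨L, hLdef⟩ : ∃ L : ℝ, L = Real.log n := ⟨_, rfl⟩
  rw [← hLdef] at htmax hL htmin ⊢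
  have hexps : Real.exp (- Real.log 10) = 1 / 10 := by
    rw [Real.exp_neg, Real.exp_log (by norm_num)]
    norm_num
  -- the uniform bound for a single walk
  have hterm : ∀ l ∈ range 5, ∀ w ∈ (W n (s + 2) l).filter
      (fun w => w.2.1.card = l ∧ w.1 ≠ w.2.2),
      pr ((univ : Finset (Fin (n.choose (s + 2)) ≃ Ed n (s + 2))).filter
        (fun σ => w.2.1 ⊆ pre σ (FracK.tmax s n)
          ∧ ((star n (s + 2) w.1 ∩ pre σ (FracK.tmin s n)).card : ℝ) ≤ γ' * L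
          ∧ ((star n (s + 2) w.2.2 ∩ pre σ (FracK.tmin s n)).card : ℝ) ≤ γ' * L))
      ≤ (8 * ((s : ℝ) + 1) * L / n) ^ l
        * (Real.exp 1 * Real.exp (- (1.2 * ((s : ℝ) + 1) * L))) := by
    intro l hl w hw
    rw [Finset.mem_filter] at hw
    obtain ⟨hw, hwc, hwne⟩ := hw
    rw [Finset.mem_range] at hl
    have hfac := W_facets (show (w.1, w.2.1, w.2.2) ∈ W n (s + 2) l from hw)
    rw [mem_fac, mem_fac] at hfac
    have h := walk_prob (n := n) (k := s + 2) (by omega) hfac.1 hfac.2 hwne w.2.1 (by omega)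
      (tp := FracK.tmax s n) (tm := FracK.tmin s n) hm4 htp4 htm hT0 hlog10.le (γ' * L)
      (α := 3 / 4 * ((s : ℝ) + 1) * L / n) (C := 4 * ((s : ℝ) + 1) * L / n)
      (by positivity) htmin htmax
    refine h.trans ?_
    rw [hwc]
    have e1 : 2 * (4 * ((s : ℝ) + 1) * L / n) = 8 * ((s : ℝ) + 1) * L / n := by ring
    rw [e1]
    apply mul_le_mul_of_nonneg_left _ (by positivity)
    rw [← Real.exp_add, hexps]
    apply Real.exp_le_exp.mpr
    have h9 : (1.9 : ℝ) * n ≤ 2 * ((n - (s + 2 - 1) : ℕ) : ℝ) - 5 := by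
      rw [hk1, Nat.cast_sub (by omega)]
      have : ((20 * s + 100 : ℕ) : ℝ) ≤ n := by exact_mod_cast hn
      push_cast at this ⊢
      linarith
    have h10 : 3 / 4 * ((s : ℝ) + 1) * L / n * (1.9 * n)
        ≤ 3 / 4 * ((s : ℝ) + 1) * L / n * (2 * ((n - (s + 2 - 1) : ℕ) : ℝ) - 5) := by
      have : 0 ≤ 3 / 4 * ((s : ℝ) + 1) * L / n := by positivity
      exact mul_le_mul_of_nonneg_left h9 this
    have h11 : 3 / 4 * ((s : ℝ) + 1) * L / n * (1.9 * n) = 1.425 * (((s : ℝ) + 1) * L) := by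
      field_simp
      norm_num
    have h12 : Real.log 10 * (2 * (γ' * L)) = 0.08 * (((s : ℝ) + 1) * L) := by
      linear_combination L * hγeq
    have h13 : 0 ≤ ((s : ℝ) + 1) * L := by positivity
    rw [h12]
    rw [h11] at h10
    nlinarith
  -- union bound
  have hsub : (@Finset.filter (Fin (n.choose (s + 2)) ≃ Ed n (s + 2))
      (Bad n (s + 2) (γ' * L) (FracK.tmin s n) (FracK.tmax s n)) (Classical.decPred _) univ)
      ⊆ (range 5).biUnion (fun l => ((W n (s + 2) l).filter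
        (fun w => w.2.1.card = l ∧ w.1 ≠ w.2.2)).biUnion (fun w =>
        ((univ : Finset (Fin (n.choose (s + 2)) ≃ Ed n (s + 2))).filter
        (fun σ => w.2.1 ⊆ pre σ (FracK.tmax s n)
          ∧ ((star n (s + 2) w.1 ∩ pre σ (FracK.tmin s n)).card : ℝ) ≤ γ' * L
          ∧ ((star n (s + 2) w.2.2 ∩ pre σ (FracK.tmin s n)).card : ℝ) ≤ γ' * L)))) := by
    intro σ hσ
    obtain ⟨-, l, hl, w, hw, hc, hne, h1, h2, h3⟩ :=
      (@Finset.mem_filter _ _ (Classical.decPred _) _ _).mp hσ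
    rw [Finset.mem_biUnion]
    refine ⟨l, hl, ?_⟩
    rw [Finset.mem_biUnion]
    refine ⟨w, ?_, ?_⟩
    · rw [Finset.mem_filter]
      exact ⟨hw, hc, hne⟩
    · rw [Finset.mem_filter]
      exact ⟨Finset.mem_univ _, h1, h2, h3⟩
  refine (pr_mono hsub).trans ((pr_biUnion_le _ _).trans ?_)
  have hl : ∀ l ∈ range 5, pr (((W n (s + 2) l).filter
        (fun w => w.2.1.card = l ∧ w.1 ≠ w.2.2)).biUnion (fun w =>
        ((univ : Finset (Fin (n.choose (s + 2)) ≃ Ed n (s + 2))).filter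
        (fun σ => w.2.1 ⊆ pre σ (FracK.tmax s n)
          ∧ ((star n (s + 2) w.1 ∩ pre σ (FracK.tmin s n)).card : ℝ) ≤ γ' * L
          ∧ ((star n (s + 2) w.2.2 ∩ pre σ (FracK.tmin s n)).card : ℝ) ≤ γ' * L))))
      ≤ (8 * ((s : ℝ) + 1) * ((s : ℝ) + 2)) ^ 4 * L ^ 4
        * (Real.exp 1 * Real.exp (- (L / 5))) := by
    intro l hl
    refine (pr_biUnion_le _ _).trans ((Finset.sum_le_sum (hterm l hl)).trans ?_)
    rw [Finset.sum_const, nsmul_eq_mul]
    rw [Finset.mem_range] at hl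
    have hcW : (((W n (s + 2) l).filter (fun w => w.2.1.card = l ∧ w.1 ≠ w.2.2)).card : ℝ)
        ≤ Real.exp (((s : ℝ) + 1) * L) * ((n : ℝ) * ((s : ℝ) + 2)) ^ l := by
      have h1 := (Finset.card_le_card (Finset.filter_subset
        (fun w : Finset (Fin n) × Finset (Ed n (s + 2)) × Finset (Fin n) =>
          w.2.1.card = l ∧ w.1 ≠ w.2.2) (W n (s + 2) l))).trans
          (card_W (n := n) (k := s + 2) (by omega) l)
      have h2 : (((W n (s + 2) l).filter (fun w => w.2.1.card = l ∧ w.1 ≠ w.2.2)).card : ℝ)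
          ≤ (n.choose (s + 2 - 1) : ℝ) * ((n : ℝ) * ((s : ℝ) + 2)) ^ l := by
        exact_mod_cast h1
      refine h2.trans ?_
      have h3 := choose_pow_upper n (s + 2 - 1)
      rw [pow_eq_exp (by omega), hk1, ← hLdef] at h3
      rw [hk1]
      push_cast at h3
      gcongr
    have hnn : 0 ≤ (8 * ((s : ℝ) + 1) * L / n) ^ l
        * (Real.exp 1 * Real.exp (- (1.2 * ((s : ℝ) + 1) * L))) := by positivity
    refine (mul_le_mul_of_nonneg_right hcW hnn).trans ?_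
    have e2 : Real.exp (((s : ℝ) + 1) * L) * ((n : ℝ) * ((s : ℝ) + 2)) ^ l
        * ((8 * ((s : ℝ) + 1) * L / n) ^ l
        * (Real.exp 1 * Real.exp (- (1.2 * ((s : ℝ) + 1) * L))))
        = (8 * ((s : ℝ) + 1) * ((s : ℝ) + 2) * L) ^ l
          * (Real.exp 1 * Real.exp (- (0.2 * ((s : ℝ) + 1) * L))) := by
      have e3 : ((n : ℝ) * ((s : ℝ) + 2)) ^ l * (8 * ((s : ℝ) + 1) * L / n) ^ l
          = (8 * ((s : ℝ) + 1) * ((s : ℝ) + 2) * L) ^ l := by
        rw [← mul_pow]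
        congr 1
        field_simp
      have e4 : Real.exp (((s : ℝ) + 1) * L) * Real.exp (- (1.2 * ((s : ℝ) + 1) * L))
          = Real.exp (- (0.2 * ((s : ℝ) + 1) * L)) := by
        rw [← Real.exp_add]
        congr 1
        ring
      rw [← e3, ← e4]
      ring
    rw [e2]
    have h1 : 1 ≤ 8 * ((s : ℝ) + 1) * ((s : ℝ) + 2) * L := by
      have h2 : 1 ≤ ((s : ℝ) + 1) * ((s : ℝ) + 2) := by nlinarith
      nlinarith
    have h2 : (8 * ((s : ℝ) + 1) * ((s : ℝ) + 2) * L) ^ l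
        ≤ (8 * ((s : ℝ) + 1) * ((s : ℝ) + 2) * L) ^ 4 := pow_le_pow_right₀ h1 (by omega)
    have h3 : Real.exp (- (0.2 * ((s : ℝ) + 1) * L)) ≤ Real.exp (- (L / 5)) := by
      apply Real.exp_le_exp.mpr
      nlinarith
    calc (8 * ((s : ℝ) + 1) * ((s : ℝ) + 2) * L) ^ l
          * (Real.exp 1 * Real.exp (- (0.2 * ((s : ℝ) + 1) * L)))
        ≤ (8 * ((s : ℝ) + 1) * ((s : ℝ) + 2) * L) ^ 4
          * (Real.exp 1 * Real.exp (- (L / 5))) := by gcongr
      _ = _ := by rw [mul_pow]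
  refine (Finset.sum_le_sum hl).trans (le_of_eq ?_)
  rw [Finset.sum_const, Finset.card_range, hK]
  simp only [nsmul_eq_mul]
  push_cast
  ring

end Pool.Agent.MP1ae8db

namespace Pool.Agent.FracK

open Finset
open scoped Classical

theorem low_count {s n : ℕ} (σ : Ord s n) (t : ℕ) (f : Finset (Fin n)) :
    ((Hset σ t).filter (fun e => f ⊆ e)).card
      = (MP1ae8db.star n (s + 2) f ∩ MP1ae8db.pre σ t).card := by
  symm
  refine Finset.card_bij (fun e _ => e.val) ?_ ?_ ?_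
  · intro e he
    rw [Finset.mem_inter, MP1ae8db.mem_star, MP1ae8db.mem_pre] at he
    rw [Finset.mem_filter, mem_Hset]
    exact ⟨⟨e.2, he.2⟩, he.1⟩
  · intro a _ b _ h
    exact Subtype.ext h
  · intro e he
    rw [Finset.mem_filter, mem_Hset] at he
    obtain ⟨⟨hc, ht⟩, hf⟩ := he
    refine ⟨⟨e, hc⟩, ?_, rfl⟩
    rw [Finset.mem_inter, MP1ae8db.mem_star, MP1ae8db.mem_pre]
    exact ⟨hf, ht⟩

/-- Walk reachability inside the first `t` edges. -/
def Rch {s n : ℕ} (σ : Ord s n) (t : ℕ) (l : ℕ) (f g : Finset (Fin n)) : Prop :=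
  ∃ l' ≤ l, ∃ A, (f, A, g) ∈ MP1ae8db.W n (s + 2) l' ∧ A ⊆ MP1ae8db.pre σ t ∧ A.card = l'

theorem Rch_step {s n : ℕ} {σ : Ord s n} {t l : ℕ} {f g g' : Finset (Fin n)}
    (h : Rch σ t l f g) (hg' : g' ∈ (univ : Finset (Fin n)).powersetCard (s + 1))
    (hnear : Near (Hset σ t) g g') : Rch σ t (l + 1) f g' := by
  rcases hnear with rfl | ⟨e, he, hge, hge'⟩
  · obtain ⟨l', hl', A, hA⟩ := h
    exact ⟨l', by omega, A, hA⟩
  · obtain ⟨l', hl', A, hw, hA, hc⟩ := h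
    rw [mem_Hset] at he
    obtain ⟨hec, het⟩ := he
    have hw2 : (f, insert (⟨e, hec⟩ : MP1ae8db.Ed n (s + 2)) A, g')
        ∈ MP1ae8db.W n (s + 2) (l' + 1) := by
      rw [MP1ae8db.mem_W_succ]
      refine ⟨A, g, ⟨e, hec⟩, hw, MP1ae8db.mem_star.mpr hge, ?_, by congr!⟩
      rw [Finset.mem_powersetCard]
      rw [Finset.mem_powersetCard] at hg'
      exact ⟨hge', hg'.2⟩
    obtain ⟨l₂, hl₂, A₂, hA₂, hw₂, hc₂⟩ := MP1ae8db.W_reduce _ hw2
    refine ⟨l₂, by omega, A₂, hw₂, hA₂.trans ?_, hc₂⟩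
    intro x hx
    rw [Finset.mem_insert] at hx
    rcases hx with rfl | hx
    · exact MP1ae8db.mem_pre.mpr het
    · exact hA hx

theorem stmtE4 (s : ℕ) : StmtE4 s := by
  obtain ⟨γ', hγ', hlim⟩ := MP1ae8db.whp_walk s
  refine ⟨γ', hγ', ?_⟩
  refine squeeze_zero (fun n => prob_nonneg _) (fun n => ?_) hlim
  refine prob_le_pr _ _ ?_
  intro σ hσ
  rw [Finset.mem_filter]
  refine ⟨Finset.mem_univ _, ?_⟩
  unfold P3 at hσ
  push Not at hσ
  obtain ⟨f₀, hf₀, f₄, hf₄, f₁, hf₁, f₂, hf₂, f₃, hf₃, h01, h12, h23, h34, hne⟩ := hσ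
  unfold Low at hf₀ hf₄
  rw [Finset.mem_filter] at hf₀ hf₄
  have r0 : Rch σ (tmax s n) 0 f₀ f₀ :=
    ⟨0, le_rfl, ∅, MP1ae8db.mem_W_zero.mpr ⟨hf₀.1, rfl, rfl⟩, by simp, rfl⟩
  have r1 := Rch_step r0 hf₁ h01
  have r2 := Rch_step r1 hf₂ h12
  have r3 := Rch_step r2 hf₃ h23
  have r4 := Rch_step r3 hf₄.1 h34
  obtain ⟨l, hl, A, hw, hA, hc⟩ := r4
  refine ⟨l, by rw [Finset.mem_range]; omega, (f₀, A, f₄), hw, hc, hne, hA, ?_, ?_⟩
  · refine le_trans (le_of_eq ?_) hf₀.2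
    rw [← low_count]
    congr!
  · refine le_trans (le_of_eq ?_) hf₄.2
    rw [← low_count]
    congr!

end Pool.Agent.FracK
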