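import Pool.Agent.Work.MP_1ae8db_pr.Setup

/-!
# Coverage at the two exposure times
-/

set_option autoImplicit false

namespace Pool.Agent.MP1ae8db

open Finset

/-- E1: for `a > k - 1` the first `tt k n a` edges cover every facet, with high probability. -/
theorem whp_cover {k : ℕ} (hk : 2 ≤ k) {a : ℝ} (ha : (k : ℝ) - 1 < a) :
    Filter.Tendsto (fun n : ℕ =>
      pr ((univ : Finset (Fin (n.choose k) ≃ Ed n k)).filter
        (fun σ => ∃ f ∈ fac n k, Disjoint (star n k f) (pre σ (tt k n a)))))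
      Filter.atTop (nhds 0) := by
  have hk1 : (1 : ℝ) ≤ (k : ℝ) - 1 := by
    have : (2 : ℝ) ≤ k := by exact_mod_cast hk
    linarith
  have ha0 : 0 ≤ a := by linarith
  have hδ : 0 < a - ((k : ℝ) - 1) := by linarith
  apply squeeze_zero' (Filter.Eventually.of_forall fun n => pr_nonneg _) _
    (tendsto_exp_neg_log hδ (Real.exp 1))
  filter_upwards [Filter.eventually_ge_atTop (2 * k + 1), m_small hk one_pos,
    tt_small k ha0 one_pos] with n hn hm ht
  rw [one_mul] at hm ht
  have hT : Fintype.card (Ed n k) = n.choose k := card_Ed n k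
  have htT : tt k n a ≤ n.choose k := by exact_mod_cast ht
  have hTpos : 0 < n.choose k := Nat.choose_pos (by omega)
  have hT0 : (0 : ℝ) < n.choose k := by exact_mod_cast hTpos
  have hm0 : (0 : ℝ) < ((n - (k - 1) : ℕ) : ℝ) := by
    have : 0 < n - (k - 1) := by omega
    exact_mod_cast this
  have h1 : (univ : Finset (Fin (n.choose k) ≃ Ed n k)).filter
        (fun σ => ∃ f ∈ fac n k, Disjoint (star n k f) (pre σ (tt k n a)))
      ⊆ (fac n k).biUnion (fun f => ev (n.choose k) ∅ (star n k f) 0 (tt k n a)) := by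
    intro σ hσ
    rw [Finset.mem_filter] at hσ
    obtain ⟨f, hf, hd⟩ := hσ.2
    rw [Finset.mem_biUnion]
    exact ⟨f, hf, by rw [mem_ev]; exact ⟨by simp, hd⟩⟩
  refine (pr_mono h1).trans ((pr_biUnion_le _ _).trans ?_)
  have h2 : ∀ f ∈ fac n k, pr (ev (n.choose k) ∅ (star n k f) 0 (tt k n a))
      ≤ Real.exp 1 * Real.exp (- (a * Real.log n)) := by
    intro f hf
    rw [mem_fac] at hf
    refine (pr_ev_right hT (star n k f) htT).trans ?_
    rw [card_star (by omega) hf, ← Real.exp_add]
    have h3 : 0 ≤ 1 - (tt k n a : ℝ) / (n.choose k : ℝ) := by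
      rw [sub_nonneg, div_le_one hT0]; exact ht
    have h4 : 1 - (tt k n a : ℝ) / (n.choose k : ℝ)
        ≤ Real.exp (- ((tt k n a : ℝ) / (n.choose k : ℝ))) := by
      have := Real.add_one_le_exp (- ((tt k n a : ℝ) / (n.choose k : ℝ)))
      linarith
    calc (1 - (tt k n a : ℝ) / (n.choose k : ℝ)) ^ (n - (k - 1))
        ≤ (Real.exp (- ((tt k n a : ℝ) / (n.choose k : ℝ)))) ^ (n - (k - 1)) := by gcongr
      _ = Real.exp (((n - (k - 1) : ℕ) : ℝ) * (- ((tt k n a : ℝ) / (n.choose k : ℝ)))) := by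
          rw [← Real.exp_nat_mul]
      _ ≤ _ := by
          apply Real.exp_le_exp.mpr
          have h5 := le_tt_div (k := k) (n := n) (a := a) hTpos
          have h6 : ((n - (k - 1) : ℕ) : ℝ) * (a * Real.log n / ((n - (k - 1) : ℕ) : ℝ)
              - 1 / (n.choose k : ℝ))
              ≤ ((n - (k - 1) : ℕ) : ℝ) * ((tt k n a : ℝ) / (n.choose k : ℝ)) := by gcongr
          have h7 : ((n - (k - 1) : ℕ) : ℝ) * (a * Real.log n / ((n - (k - 1) : ℕ) : ℝ)
              - 1 / (n.choose k : ℝ))
              = a * Real.log n - ((n - (k - 1) : ℕ) : ℝ) / (n.choose k : ℝ) := by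
            rw [mul_sub, mul_div_cancel₀ _ hm0.ne']
            ring
          have h8 : ((n - (k - 1) : ℕ) : ℝ) / (n.choose k : ℝ) ≤ 1 := by
            rw [div_le_one hT0]; exact hm
          rw [h7] at h6
          linarith
  refine (Finset.sum_le_sum h2).trans ?_
  rw [Finset.sum_const, nsmul_eq_mul, card_fac]
  have hn0 : 0 < n := by omega
  have h9 := choose_pow_upper n (k - 1)
  rw [pow_eq_exp hn0] at h9
  have hcast : ((k - 1 : ℕ) : ℝ) = (k : ℝ) - 1 := by
    rw [Nat.cast_sub (by omega)]; simp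
  calc (n.choose (k - 1) : ℝ) * (Real.exp 1 * Real.exp (- (a * Real.log n)))
      ≤ Real.exp (((k - 1 : ℕ) : ℝ) * Real.log n)
        * (Real.exp 1 * Real.exp (- (a * Real.log n))) := by gcongr
    _ = Real.exp 1 * Real.exp (- ((a - ((k : ℝ) - 1)) * Real.log n)) := by
        rw [hcast, mul_left_comm, ← Real.exp_add]
        congr 2
        ring

/-- E2: for `a < k - 1` the first `tt k n a` edges do not cover every facet, with high
probability. -/
theorem whp_not_cover {k : ℕ} (hk : 2 ≤ k) {a : ℝ} (ha0 : 0 < a) (ha : a < (k : ℝ) - 1) :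
    Filter.Tendsto (fun n : ℕ =>
      pr ((univ : Finset (Fin (n.choose k) ≃ Ed n k)).filter
        (fun σ => ∀ f ∈ fac n k, ¬ Disjoint (star n k f) (pre σ (tt k n a)))))
      Filter.atTop (nhds 0) := by
  -- choose the constants
  obtain ⟨b, hab, hbk⟩ := exists_between ha
  have hb0 : 0 < b := ha0.trans hab
  obtain ⟨ε, hε, hε2, hε3⟩ : ∃ ε : ℝ, 0 < ε ∧ ε ≤ 1 / 8 ∧ a ≤ b * (1 - 2 * ε) := by
    refine ⟨min (1 / 8) ((b - a) / (2 * b)), by
      apply lt_min (by norm_num)
      apply div_pos (by linarith) (by linarith), min_le_left _ _, ?_⟩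
    have h1 : min (1 / 8) ((b - a) / (2 * b)) ≤ (b - a) / (2 * b) := min_le_right _ _
    have h2 : b * (2 * ((b - a) / (2 * b))) = b - a := by field_simp
    nlinarith
  have hδ : 0 < ((k : ℝ) - 1) - b := by linarith
  have hlim : Filter.Tendsto (fun n : ℕ =>
      (((k - 1).factorial : ℝ) * 2 ^ (k - 1)) * Real.exp (- ((((k : ℝ) - 1) - b) * Real.log n))
        + 2 * (a * Real.log n / ((n - (k - 1) : ℕ) : ℝ))) Filter.atTop (nhds 0) := by
    have h1 := tendsto_exp_neg_log hδ (((k - 1).factorial : ℝ) * 2 ^ (k - 1))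
    have h2 := (tendsto_log_div k a).const_mul 2
    simpa using h1.add h2
  apply squeeze_zero' (Filter.Eventually.of_forall fun n => pr_nonneg _) _ hlim
  filter_upwards [Filter.eventually_ge_atTop (2 * k + 1), m_small hk hε,
    tt_small k ha0.le hε] with n hn hm ht
  have hT : Fintype.card (Ed n k) = n.choose k := card_Ed n k
  have hTpos : 0 < n.choose k := Nat.choose_pos (by omega)
  have hT0 : (0 : ℝ) < n.choose k := by exact_mod_cast hTpos
  set T := n.choose k with hTdef
  set t := tt k n a with htdef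
  obtain ⟨m, hmm⟩ : ∃ m, n - (k - 1) = m + 1 := ⟨n - k, by omega⟩
  rw [hmm] at hm
  have hm1 : (0 : ℝ) < ((m + 1 : ℕ) : ℝ) := by positivity
  have htm : t + (m + 1) ≤ T := by
    have : ((t + (m + 1) : ℕ) : ℝ) ≤ T := by
      push_cast at hm ⊢
      nlinarith
    exact_mod_cast this
  have h2m : 2 * (m + 1) ≤ T := by
    have : ((2 * (m + 1) : ℕ) : ℝ) ≤ T := by
      push_cast at hm ⊢
      nlinarith
    exact_mod_cast this
  have hne : (fac n k).Nonempty := by
    rw [← Finset.card_pos, card_fac]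
    exact Nat.choose_pos (by omega)
  have hsm := second_moment hT (fac n k) (star n k) htm h2m
    (fun f hf => by rw [card_star (by omega) (mem_fac.mp hf), hmm])
    (fun f hf g hg hfg => card_star_inter (by omega) (mem_fac.mp hf) (mem_fac.mp hg) hfg) hne
  refine le_trans (le_of_eq (by congr!)) (hsm.trans ?_)
  apply add_le_add
  · -- first term
    rw [card_fac]
    have hn0 : 0 < n := by omega
    have hlow := choose_pow_lower (n := n) (j := k - 1) (by omega)
    have hav := av_lower (T := T) (t := t) (m := m + 1) htm (by omega)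
    -- lower bound for `av`
    have hden : (1 - 2 * ε) * T ≤ (T : ℝ) - ((m + 1 : ℕ) : ℝ) - t := by linarith
    have hdenpos : 0 < (T : ℝ) - ((m + 1 : ℕ) : ℝ) - t := by
      have : 0 < (1 - 2 * ε) * T := by
        apply mul_pos _ hT0
        linarith
      linarith
    have ht0 : (0 : ℝ) ≤ t := by positivity
    have hTm : 0 < (T : ℝ) - ((m + 1 : ℕ) : ℝ) := by linarith
    have hu : 0 < 1 - (t : ℝ) / ((T : ℝ) - ((m + 1 : ℕ) : ℝ)) := by
      rw [sub_pos, div_lt_one hTm]
      linarith
    have hlog : - ((t : ℝ) / ((T : ℝ) - ((m + 1 : ℕ) : ℝ) - t))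
        ≤ Real.log (1 - (t : ℝ) / ((T : ℝ) - ((m + 1 : ℕ) : ℝ))) := by
      have h1 := Real.one_sub_inv_le_log_of_pos hu
      refine le_trans (le_of_eq ?_) h1
      field_simp
      ring
    have hpow : Real.exp (- (b * Real.log n))
        ≤ (1 - (t : ℝ) / ((T : ℝ) - ((m + 1 : ℕ) : ℝ))) ^ (m + 1) := by
      rw [← Real.exp_log hu, ← Real.exp_nat_mul]
      apply Real.exp_le_exp.mpr
      have h3 : ((m + 1 : ℕ) : ℝ) * (t : ℝ) ≤ a * Real.log n * T := by
        have h4 := tt_le (k := k) (n := n) ha0.le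
        rw [hmm, ← htdef, ← hTdef, le_div_iff₀ hm1] at h4
        linarith
      have hL : 0 ≤ Real.log n := Real.log_natCast_nonneg n
      have h5 : ((m + 1 : ℕ) : ℝ) * ((t : ℝ) / ((T : ℝ) - ((m + 1 : ℕ) : ℝ) - t))
          ≤ b * Real.log n := by
        rw [← mul_div_assoc, div_le_iff₀ hdenpos]
        refine h3.trans ?_
        calc a * Real.log n * T ≤ (b * (1 - 2 * ε)) * Real.log n * T := by gcongr
          _ = (b * Real.log n) * ((1 - 2 * ε) * T) := by ring
          _ ≤ _ := by gcongr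
      have h6 := mul_le_mul_of_nonneg_left hlog hm1.le
      linarith
    have hav2 : Real.exp (- (b * Real.log n)) ≤ av T t (m + 1) := hpow.trans hav
    have hN : 0 < ((n : ℝ) / 2) ^ (k - 1) / ((k - 1).factorial : ℝ) := by
      have : (0 : ℝ) < n := by exact_mod_cast hn0
      positivity
    have hprod : ((n : ℝ) / 2) ^ (k - 1) / ((k - 1).factorial : ℝ)
        * Real.exp (- (b * Real.log n)) ≤ (n.choose (k - 1) : ℝ) * av T t (m + 1) := by
      gcongr
    have hpos : 0 < ((n : ℝ) / 2) ^ (k - 1) / ((k - 1).factorial : ℝ)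
        * Real.exp (- (b * Real.log n)) := by positivity
    refine (one_div_le_one_div_of_le hpos hprod).trans (le_of_eq ?_)
    have hcast : ((k - 1 : ℕ) : ℝ) = (k : ℝ) - 1 := by
      rw [Nat.cast_sub (by omega)]; simp
    have h10 : ((n : ℝ) / 2) ^ (k - 1)
        = Real.exp (((k : ℝ) - 1) * Real.log n) / 2 ^ (k - 1) := by
      rw [div_pow, pow_eq_exp hn0, hcast]
    rw [h10]
    have h11 : Real.exp (- ((((k : ℝ) - 1) - b) * Real.log n))
        = Real.exp (b * Real.log n) / Real.exp (((k : ℝ) - 1) * Real.log n) := by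
      rw [← Real.exp_sub]
      congr 1
      ring
    rw [h11, Real.exp_neg]
    have e1 := Real.exp_pos (b * Real.log n)
    have e2 := Real.exp_pos (((k : ℝ) - 1) * Real.log n)
    have e3 : (0 : ℝ) < ((k - 1).factorial : ℝ) := by positivity
    field_simp
  · -- second term
    have h1 : (T : ℝ) / 2 ≤ (T : ℝ) - t - m := by
      push_cast at hm
      nlinarith
    have h2 := tt_div_le (k := k) (n := n) ha0.le
    rw [← htdef, ← hTdef] at h2
    calc (t : ℝ) / ((T : ℝ) - t - m) ≤ (t : ℝ) / ((T : ℝ) / 2) := by gcongr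
      _ = 2 * ((t : ℝ) / T) := by field_simp
      _ ≤ _ := by gcongr

end Pool.Agent.MP1ae8db
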