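import Pool.Agent.Work.MP_1ae8db_pr.Prefix

/-!
# Exponential moments of the number of elements of `Q` in a prefix
-/

set_option autoImplicit false

namespace Pool.Agent.MP1ae8db

open Finset

section Moment

variable {E : Type*} [Fintype E] [DecidableEq E] {T : ℕ}

omit [Fintype E] in
theorem pow_card_expand_low (A Q : Finset E) (l : ℝ) :
    l ^ (A ∩ Q).card = ∑ Q' ∈ Q.powerset,
      (if Disjoint Q' A then (1 - l) ^ Q'.card * l ^ (Q.card - Q'.card) else 0) := by
  have h1 : l ^ (A ∩ Q).card = ∏ e ∈ Q, ((if e ∈ A then 0 else (1 - l)) + l) := by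
    have : ∀ e ∈ Q, ((if e ∈ A then (0:ℝ) else (1 - l)) + l) = if e ∈ A then l else 1 := by
      intro e _
      split_ifs <;> ring
    rw [Finset.prod_congr rfl this, Finset.prod_ite]
    simp only [Finset.prod_const, one_pow, mul_one]
    congr 2
    ext x
    simp [and_comm]
  rw [h1, Finset.prod_add]
  refine Finset.sum_congr rfl fun Q' hQ' => ?_
  rw [Finset.mem_powerset] at hQ'
  rw [Finset.prod_const, Finset.card_sdiff_of_subset hQ']
  split_ifs with h
  · congr 1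
    rw [← Finset.prod_const]
    refine Finset.prod_congr rfl fun x hx => ?_
    rw [if_neg (Finset.disjoint_left.mp h hx)]
  · rw [Finset.disjoint_left] at h
    push Not at h
    obtain ⟨a, ha, ha'⟩ := h
    rw [Finset.prod_eq_zero ha (by rw [if_pos ha']), zero_mul]

omit [Fintype E] in
theorem pow_card_expand_high (A Q : Finset E) (l : ℝ) :
    l ^ (A ∩ Q).card = ∑ Q' ∈ Q.powerset, (if Q' ⊆ A then (l - 1) ^ Q'.card else 0) := by
  have h1 : l ^ (A ∩ Q).card = ∏ e ∈ Q, ((if e ∈ A then (l - 1) else 0) + 1) := by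
    have : ∀ e ∈ Q, ((if e ∈ A then (l - 1) else 0) + 1) = if e ∈ A then l else 1 := by
      intro e _
      split_ifs <;> ring
    rw [Finset.prod_congr rfl this, Finset.prod_ite]
    simp only [Finset.prod_const, one_pow, mul_one]
    congr 2
    ext x
    simp [and_comm]
  rw [h1, Finset.prod_add]
  refine Finset.sum_congr rfl fun Q' hQ' => ?_
  rw [Finset.prod_const, one_pow, mul_one]
  split_ifs with h
  · rw [← Finset.prod_const]
    refine Finset.prod_congr rfl fun x hx => ?_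
    rw [if_pos (h hx)]
  · rw [Finset.not_subset] at h
    obtain ⟨a, ha, ha'⟩ := h
    rw [Finset.prod_eq_zero ha (by rw [if_neg ha'])]

/-- Lower exponential moment, jointly with `S ⊆ pre σ t₁`. -/
theorem moment_low (hT : Fintype.card E = T) (S Q : Finset E) (hd : Disjoint S Q)
    {t₁ t₂ : ℕ} (ht₂ : t₂ ≤ T) (ht₁ : t₁ + Q.card ≤ T) (hQT : S.Nonempty → Q.card < T)
    {l : ℝ} (hl0 : 0 ≤ l) (hl1 : l ≤ 1) :
    (∑ σ ∈ ev T S ∅ t₁ t₂, l ^ (pre σ t₂ ∩ Q).card) / (Fintype.card (Fin T ≃ E) : ℝ)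
      ≤ ((t₁ : ℝ) / ((T : ℝ) - Q.card)) ^ S.card * (1 - (t₂ : ℝ) / T * (1 - l)) ^ Q.card := by
  have h1 : ∀ σ ∈ ev T S ∅ t₁ t₂, l ^ (pre σ t₂ ∩ Q).card
      = ∑ Q' ∈ Q.powerset, (if Disjoint Q' (pre σ t₂)
        then (1 - l) ^ Q'.card * l ^ (Q.card - Q'.card) else 0) := by
    intro σ _
    exact pow_card_expand_low _ _ _
  rw [Finset.sum_congr rfl h1, Finset.sum_comm, Finset.sum_div]
  have h2 : ∀ Q' ∈ Q.powerset,
      (∑ σ ∈ ev T S ∅ t₁ t₂, (if Disjoint Q' (pre σ t₂)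
        then (1 - l) ^ Q'.card * l ^ (Q.card - Q'.card) else 0))
          / (Fintype.card (Fin T ≃ E) : ℝ)
      = ((1 - l) ^ Q'.card * l ^ (Q.card - Q'.card)) * pr (ev T S Q' t₁ t₂) := by
    intro Q' _
    rw [← Finset.sum_filter, Finset.sum_const, nsmul_eq_mul]
    have : (ev T S ∅ t₁ t₂).filter (fun σ => Disjoint Q' (pre σ t₂)) = ev T S Q' t₁ t₂ := by
      ext σ
      rw [Finset.mem_filter, mem_ev, mem_ev]
      simp
    rw [this]
    unfold pr
    ring
  rw [Finset.sum_congr rfl h2]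
  have h3 : ∀ Q' ∈ Q.powerset, pr (ev T S Q' t₁ t₂)
      ≤ ((t₁ : ℝ) / ((T : ℝ) - Q.card)) ^ S.card * (1 - (t₂ : ℝ) / T) ^ Q'.card := by
    intro Q' hQ'
    rw [Finset.mem_powerset] at hQ'
    have hc := Finset.card_le_card hQ'
    refine (pr_ev hT S Q' (hd.mono_right hQ') ht₂ (by omega)).trans ?_
    rcases Nat.eq_zero_or_pos T with hT0 | hT0
    · have hS : S.card = 0 := by
        have := Finset.card_le_univ S
        omega
      have hQ : Q'.card = 0 := by
        have := Finset.card_le_univ Q'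
        omega
      simp [hS, hQ]
    have hq : 0 ≤ 1 - (t₂ : ℝ) / T := by
      rw [sub_nonneg, div_le_one (by exact_mod_cast hT0)]
      exact_mod_cast ht₂
    have hcr : (Q'.card : ℝ) ≤ Q.card := by exact_mod_cast hc
    apply mul_le_mul_of_nonneg_right _ (by positivity)
    rcases S.eq_empty_or_nonempty with rfl | hS
    · simp
    · have hQT' : (Q.card : ℝ) < T := by exact_mod_cast hQT hS
      have : 0 < (T : ℝ) - Q.card := by linarith
      have h5 : 0 < (T : ℝ) - Q'.card := by linarith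
      gcongr
  have h4 : ∀ Q' ∈ Q.powerset, ((1 - l) ^ Q'.card * l ^ (Q.card - Q'.card))
        * pr (ev T S Q' t₁ t₂)
      ≤ ((t₁ : ℝ) / ((T : ℝ) - Q.card)) ^ S.card *
        (((1 - (t₂ : ℝ) / T) * (1 - l)) ^ Q'.card * l ^ (Q.card - Q'.card)) := by
    intro Q' hQ'
    have h6 : 0 ≤ (1 - l) ^ Q'.card * l ^ (Q.card - Q'.card) := by
      have : 0 ≤ 1 - l := by linarith
      positivity
    refine (mul_le_mul_of_nonneg_left (h3 Q' hQ') h6).trans (le_of_eq ?_)
    rw [mul_pow]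
    ring
  refine (Finset.sum_le_sum h4).trans ?_
  rw [← Finset.mul_sum, Finset.sum_pow_mul_eq_add_pow]
  apply le_of_eq
  congr 2
  ring

/-- Upper exponential moment. -/
theorem moment_high (hT : Fintype.card E = T) (Q : Finset E)
    {t : ℕ} (ht : t ≤ T) {l : ℝ} (hl1 : 1 ≤ l) :
    (∑ σ : Fin T ≃ E, l ^ (pre σ t ∩ Q).card) / (Fintype.card (Fin T ≃ E) : ℝ)
      ≤ (1 + (t : ℝ) / T * (l - 1)) ^ Q.card := by
  have h1 : ∀ σ ∈ (univ : Finset (Fin T ≃ E)), l ^ (pre σ t ∩ Q).card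
      = ∑ Q' ∈ Q.powerset, (if Q' ⊆ pre σ t then (l - 1) ^ Q'.card else 0) := by
    intro σ _
    exact pow_card_expand_high _ _ _
  rw [Finset.sum_congr rfl h1, Finset.sum_comm, Finset.sum_div]
  have h2 : ∀ Q' ∈ Q.powerset,
      (∑ σ : Fin T ≃ E, (if Q' ⊆ pre σ t then (l - 1) ^ Q'.card else 0))
          / (Fintype.card (Fin T ≃ E) : ℝ)
      = (l - 1) ^ Q'.card * pr (ev T Q' ∅ t 0) := by
    intro Q' _
    rw [← Finset.sum_filter, Finset.sum_const, nsmul_eq_mul]
    have : (univ : Finset (Fin T ≃ E)).filter (fun σ => Q' ⊆ pre σ t) = ev T Q' ∅ t 0 := by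
      ext σ
      rw [Finset.mem_filter, mem_ev]
      simp
    rw [this]
    unfold pr
    ring
  rw [Finset.sum_congr rfl h2]
  have h4 : ∀ Q' ∈ Q.powerset, (l - 1) ^ Q'.card * pr (ev T Q' ∅ t 0)
      ≤ ((t : ℝ) / T * (l - 1)) ^ Q'.card * 1 ^ (Q.card - Q'.card) := by
    intro Q' hQ'
    have h3 := pr_ev hT Q' ∅ (by simp) (Nat.zero_le T) (t₁ := t) (by simpa using ht)
    have h6 : 0 ≤ (l - 1) ^ Q'.card := by
      have : 0 ≤ l - 1 := by linarith
      positivity
    refine (mul_le_mul_of_nonneg_left h3 h6).trans (le_of_eq ?_)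
    rw [mul_pow]
    simp
    ring
  refine (Finset.sum_le_sum h4).trans ?_
  rw [Finset.sum_pow_mul_eq_add_pow]
  apply le_of_eq
  congr 1
  ring

/-- Lower tail, jointly with `S ⊆ pre σ t₁`. -/
theorem pr_low (hT : Fintype.card E = T) (S Q : Finset E) (hd : Disjoint S Q)
    {t₁ t₂ : ℕ} (ht₂ : t₂ ≤ T) (ht₁ : t₁ + Q.card ≤ T) (hQT : S.Nonempty → Q.card < T)
    {s : ℝ} (hs : 0 ≤ s) (x : ℝ) :
    pr ((univ : Finset (Fin T ≃ E)).filter
        (fun σ => S ⊆ pre σ t₁ ∧ ((pre σ t₂ ∩ Q).card : ℝ) ≤ x))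
      ≤ ((t₁ : ℝ) / ((T : ℝ) - Q.card)) ^ S.card
        * Real.exp (s * x - (t₂ : ℝ) / T * (1 - Real.exp (-s)) * Q.card) := by
  have hl0 : 0 ≤ Real.exp (-s) := (Real.exp_pos _).le
  have hl1 : Real.exp (-s) ≤ 1 := by
    rw [Real.exp_le_one_iff]; linarith
  have h := moment_low hT S Q hd ht₂ ht₁ hQT hl0 hl1
  set A := (univ : Finset (Fin T ≃ E)).filter
        (fun σ => S ⊆ pre σ t₁ ∧ ((pre σ t₂ ∩ Q).card : ℝ) ≤ x) with hA
  have h1 : (A.card : ℝ) * Real.exp (-s * x)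
      ≤ ∑ σ ∈ ev T S ∅ t₁ t₂, (Real.exp (-s)) ^ (pre σ t₂ ∩ Q).card := by
    calc (A.card : ℝ) * Real.exp (-s * x) = ∑ σ ∈ A, Real.exp (-s * x) := by
          rw [Finset.sum_const, nsmul_eq_mul]
      _ ≤ ∑ σ ∈ A, (Real.exp (-s)) ^ (pre σ t₂ ∩ Q).card := by
          refine Finset.sum_le_sum fun σ hσ => ?_
          rw [hA, Finset.mem_filter] at hσ
          rw [← Real.exp_nat_mul]
          apply Real.exp_le_exp.mpr
          nlinarith [hσ.2.2]
      _ ≤ ∑ σ ∈ ev T S ∅ t₁ t₂, (Real.exp (-s)) ^ (pre σ t₂ ∩ Q).card := by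
          apply Finset.sum_le_sum_of_subset_of_nonneg
          · intro σ hσ
            rw [hA, Finset.mem_filter] at hσ
            rw [mem_ev]
            exact ⟨hσ.2.1, by simp⟩
          · intro σ _ _
            positivity
  have h2 : pr A * Real.exp (-s * x)
      ≤ ((t₁ : ℝ) / ((T : ℝ) - Q.card)) ^ S.card
        * (1 - (t₂ : ℝ) / T * (1 - Real.exp (-s))) ^ Q.card := by
    refine le_trans ?_ h
    unfold pr
    rw [div_mul_eq_mul_div]
    gcongr
  have h3 : (1 - (t₂ : ℝ) / T * (1 - Real.exp (-s))) ^ Q.card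
      ≤ Real.exp (- ((t₂ : ℝ) / T * (1 - Real.exp (-s)) * Q.card)) := by
    have h4 : 1 - (t₂ : ℝ) / T * (1 - Real.exp (-s))
        ≤ Real.exp (- ((t₂ : ℝ) / T * (1 - Real.exp (-s)))) := by
      have := Real.add_one_le_exp (- ((t₂ : ℝ) / T * (1 - Real.exp (-s))))
      linarith
    have h5 : 0 ≤ 1 - (t₂ : ℝ) / T * (1 - Real.exp (-s)) := by
      have h6 : (t₂ : ℝ) / T ≤ 1 := by
        apply div_le_one_of_le₀ _ (by positivity)
        exact_mod_cast ht₂
      have h7 : 0 ≤ (t₂ : ℝ) / T := by positivity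
      nlinarith
    calc (1 - (t₂ : ℝ) / T * (1 - Real.exp (-s))) ^ Q.card
        ≤ (Real.exp (- ((t₂ : ℝ) / T * (1 - Real.exp (-s))))) ^ Q.card := by gcongr
      _ = _ := by
        rw [← Real.exp_nat_mul]
        congr 1
        ring
  have hbase : 0 ≤ ((t₁ : ℝ) / ((T : ℝ) - Q.card)) ^ S.card := by
    have hq : (Q.card : ℝ) ≤ T := by
      have : ((t₁ + Q.card : ℕ) : ℝ) ≤ T := by exact_mod_cast ht₁
      push_cast at this
      have h0 : (0:ℝ) ≤ t₁ := by positivity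
      linarith
    apply pow_nonneg
    apply div_nonneg (by positivity)
    linarith
  have h8 : pr A = pr A * Real.exp (-s * x) * Real.exp (s * x) := by
    rw [mul_assoc, ← Real.exp_add]
    have : -s * x + s * x = 0 := by ring
    rw [this, Real.exp_zero, mul_one]
  rw [h8, sub_eq_add_neg (s * x), Real.exp_add]
  calc pr A * Real.exp (-s * x) * Real.exp (s * x)
      ≤ (((t₁ : ℝ) / ((T : ℝ) - Q.card)) ^ S.card
        * (1 - (t₂ : ℝ) / T * (1 - Real.exp (-s))) ^ Q.card) * Real.exp (s * x) := by gcongr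
    _ ≤ (((t₁ : ℝ) / ((T : ℝ) - Q.card)) ^ S.card
        * Real.exp (- ((t₂ : ℝ) / T * (1 - Real.exp (-s)) * Q.card))) * Real.exp (s * x) := by
        gcongr
    _ = _ := by ring

/-- Upper tail. -/
theorem pr_high (hT : Fintype.card E = T) (Q : Finset E)
    {t : ℕ} (ht : t ≤ T) {s : ℝ} (hs : 0 ≤ s) (x : ℝ) :
    pr ((univ : Finset (Fin T ≃ E)).filter (fun σ => x ≤ ((pre σ t ∩ Q).card : ℝ)))
      ≤ Real.exp ((t : ℝ) / T * (Real.exp s - 1) * Q.card - s * x) := by
  have hl1 : 1 ≤ Real.exp s := Real.one_le_exp hs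
  have h := moment_high hT Q ht hl1
  set A := (univ : Finset (Fin T ≃ E)).filter (fun σ => x ≤ ((pre σ t ∩ Q).card : ℝ)) with hA
  have h1 : (A.card : ℝ) * Real.exp (s * x)
      ≤ ∑ σ : Fin T ≃ E, (Real.exp s) ^ (pre σ t ∩ Q).card := by
    calc (A.card : ℝ) * Real.exp (s * x) = ∑ σ ∈ A, Real.exp (s * x) := by
          rw [Finset.sum_const, nsmul_eq_mul]
      _ ≤ ∑ σ ∈ A, (Real.exp s) ^ (pre σ t ∩ Q).card := by
          refine Finset.sum_le_sum fun σ hσ => ?_
          rw [hA, Finset.mem_filter] at hσ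
          rw [← Real.exp_nat_mul]
          apply Real.exp_le_exp.mpr
          nlinarith [hσ.2]
      _ ≤ ∑ σ : Fin T ≃ E, (Real.exp s) ^ (pre σ t ∩ Q).card := by
          apply Finset.sum_le_sum_of_subset_of_nonneg (Finset.subset_univ _)
          intro σ _ _
          positivity
  have h2 : pr A * Real.exp (s * x) ≤ (1 + (t : ℝ) / T * (Real.exp s - 1)) ^ Q.card := by
    refine le_trans ?_ h
    unfold pr
    rw [div_mul_eq_mul_div]
    gcongr
  have h3 : (1 + (t : ℝ) / T * (Real.exp s - 1)) ^ Q.card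
      ≤ Real.exp ((t : ℝ) / T * (Real.exp s - 1) * Q.card) := by
    have h4 : 1 + (t : ℝ) / T * (Real.exp s - 1)
        ≤ Real.exp ((t : ℝ) / T * (Real.exp s - 1)) := by
      have := Real.add_one_le_exp ((t : ℝ) / T * (Real.exp s - 1))
      linarith
    have h5 : 0 ≤ 1 + (t : ℝ) / T * (Real.exp s - 1) := by
      have h7 : 0 ≤ (t : ℝ) / T := by positivity
      nlinarith
    calc (1 + (t : ℝ) / T * (Real.exp s - 1)) ^ Q.card
        ≤ (Real.exp ((t : ℝ) / T * (Real.exp s - 1))) ^ Q.card := by gcongr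
      _ = _ := by
        rw [← Real.exp_nat_mul]
        congr 1
        ring
  have h8 : pr A = pr A * Real.exp (s * x) * Real.exp (- (s * x)) := by
    rw [mul_assoc, ← Real.exp_add]
    simp
  rw [h8, sub_eq_add_neg, Real.exp_add]
  have := h2.trans h3
  gcongr

end Moment

end Pool.Agent.MP1ae8db
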