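import Mathlib

/-!
# Random orderings of a finite set: prefix estimates

`pre σ t` is the set of the first `t` elements of the ordering `σ : Fin T ≃ E`.
-/

set_option autoImplicit false

namespace Pool.Agent.MP1ae8db

open Finset

section Prefix

variable {E : Type*} [Fintype E] [DecidableEq E] {T : ℕ}

/-- The set of the first `t` elements of the ordering `σ`. -/
def pre (σ : Fin T ≃ E) (t : ℕ) : Finset E :=
  univ.filter (fun e => (σ.symm e).val < t)

omit [DecidableEq E] in
theorem mem_pre {σ : Fin T ≃ E} {t : ℕ} {e : E} : e ∈ pre σ t ↔ (σ.symm e).val < t := by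
  simp [pre]

omit [DecidableEq E] in
theorem pre_mono {σ : Fin T ≃ E} {s t : ℕ} (h : s ≤ t) : pre σ s ⊆ pre σ t := by
  intro e he
  rw [mem_pre] at *
  omega

omit [DecidableEq E] in
theorem card_pre (σ : Fin T ≃ E) {t : ℕ} (ht : t ≤ T) : (pre σ t).card = t := by
  have h1 : (pre σ t) = (univ.filter (fun i : Fin T => i.val < t)).map σ.toEmbedding := by
    ext e
    rw [mem_pre, Finset.mem_map]
    constructor
    · intro h
      exact ⟨σ.symm e, by simpa using h, by simp⟩
    · rintro ⟨i, hi, rfl⟩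
      simpa using hi
  rw [h1, Finset.card_map, Fin.card_filter_val_lt]
  exact min_eq_right ht

/-- Averaging over swaps outside the revealed set. -/
theorem swap_avg (A : Finset (Fin T ≃ E)) (R : Finset E)
    (hA : ∀ σ ∈ A, ∀ a ∉ R, ∀ b ∉ R, σ.trans (Equiv.swap a b) ∈ A)
    (P : Fin T → Prop) [DecidablePred P] (e : E) (he : e ∉ R) (c : ℕ)
    (hc : ∀ σ ∈ A, ((univ \ R).filter (fun e' => P (σ.symm e'))).card ≤ c) :
    (A.filter (fun σ => P (σ.symm e))).card * (univ \ R).card ≤ c * A.card := by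
  have h1 : ∀ e' ∈ univ \ R, (A.filter (fun σ => P (σ.symm e'))).card
      = (A.filter (fun σ => P (σ.symm e))).card := by
    intro e' he'
    have he'' : e' ∉ R := by simpa using he'
    refine Finset.card_bij' (fun σ _ => σ.trans (Equiv.swap e e'))
      (fun σ _ => σ.trans (Equiv.swap e e')) ?_ ?_ ?_ ?_
    · intro σ hσ
      rw [Finset.mem_filter] at hσ ⊢
      refine ⟨hA σ hσ.1 e he e' he'', ?_⟩
      simpa using hσ.2
    · intro σ hσ
      rw [Finset.mem_filter] at hσ ⊢
      refine ⟨hA σ hσ.1 e he e' he'', ?_⟩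
      simpa using hσ.2
    · intro σ _
      ext x
      simp
    · intro σ _
      ext x
      simp
  calc (A.filter (fun σ => P (σ.symm e))).card * (univ \ R).card
      = ∑ e' ∈ univ \ R, (A.filter (fun σ => P (σ.symm e'))).card := by
        rw [Finset.sum_congr rfl h1, Finset.sum_const, smul_eq_mul, mul_comm]
    _ = ∑ e' ∈ univ \ R, ∑ σ ∈ A, (if P (σ.symm e') then 1 else 0) := by
        refine Finset.sum_congr rfl fun e' _ => ?_
        rw [Finset.card_filter]
    _ = ∑ σ ∈ A, ∑ e' ∈ univ \ R, (if P (σ.symm e') then 1 else 0) := Finset.sum_comm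
    _ = ∑ σ ∈ A, ((univ \ R).filter (fun e' => P (σ.symm e'))).card := by
        refine Finset.sum_congr rfl fun σ _ => ?_
        rw [Finset.card_filter]
    _ ≤ ∑ _σ ∈ A, c := Finset.sum_le_sum hc
    _ = c * A.card := by rw [Finset.sum_const, smul_eq_mul, mul_comm]

/-- Orderings with `S₁` inside the first `t₁` and `S₂` outside the first `t₂`. -/
def ev (T : ℕ) (S₁ S₂ : Finset E) (t₁ t₂ : ℕ) : Finset (Fin T ≃ E) :=
  univ.filter (fun σ => S₁ ⊆ pre σ t₁ ∧ Disjoint S₂ (pre σ t₂))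

theorem mem_ev {S₁ S₂ : Finset E} {t₁ t₂ : ℕ} {σ : Fin T ≃ E} :
    σ ∈ ev T S₁ S₂ t₁ t₂ ↔ S₁ ⊆ pre σ t₁ ∧ Disjoint S₂ (pre σ t₂) := by
  simp [ev]

theorem ev_swap {S₁ S₂ : Finset E} {t₁ t₂ : ℕ} (σ : Fin T ≃ E) (hσ : σ ∈ ev T S₁ S₂ t₁ t₂)
    (a : E) (ha : a ∉ S₁ ∪ S₂) (b : E) (hb : b ∉ S₁ ∪ S₂) :
    σ.trans (Equiv.swap a b) ∈ ev T S₁ S₂ t₁ t₂ := by
  rw [mem_ev] at *
  rw [Finset.mem_union, not_or] at ha hb
  constructor
  · intro x hx
    have h := hσ.1 hx
    rw [mem_pre] at *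
    have h1 : x ≠ a := fun h => ha.1 (h ▸ hx)
    have h2 : x ≠ b := fun h => hb.1 (h ▸ hx)
    simpa [Equiv.swap_apply_of_ne_of_ne h1 h2] using h
  · rw [Finset.disjoint_left] at *
    intro x hx
    have h := hσ.2 hx
    rw [mem_pre] at *
    have h1 : x ≠ a := fun h => ha.2 (h ▸ hx)
    have h2 : x ≠ b := fun h => hb.2 (h ▸ hx)
    simpa [Equiv.swap_apply_of_ne_of_ne h1 h2] using h

/-- The proportion of orderings in the family `A`. -/
noncomputable def pr (A : Finset (Fin T ≃ E)) : ℝ :=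
  (A.card : ℝ) / (Fintype.card (Fin T ≃ E) : ℝ)

theorem pr_nonneg (A : Finset (Fin T ≃ E)) : 0 ≤ pr A := by
  unfold pr; positivity

theorem card_pos' (hT : Fintype.card E = T) : (0 : ℝ) < (Fintype.card (Fin T ≃ E) : ℝ) := by
  have : Nonempty (Fin T ≃ E) := ⟨(Fintype.equivFinOfCardEq hT).symm⟩
  exact_mod_cast Fintype.card_pos

theorem pr_le_one (A : Finset (Fin T ≃ E)) : pr A ≤ 1 := by
  unfold pr
  apply div_le_one_of_le₀ _ (by positivity)
  exact_mod_cast Finset.card_le_univ A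

theorem pr_mono {A B : Finset (Fin T ≃ E)} (h : A ⊆ B) : pr A ≤ pr B := by
  unfold pr
  gcongr

theorem pr_union_le (A B : Finset (Fin T ≃ E)) : pr (A ∪ B) ≤ pr A + pr B := by
  unfold pr
  rw [← add_div]
  gcongr
  exact_mod_cast Finset.card_union_le A B

theorem pr_biUnion_le {ι : Type*} (s : Finset ι) (A : ι → Finset (Fin T ≃ E)) :
    pr (s.biUnion A) ≤ ∑ i ∈ s, pr (A i) := by
  classical
  unfold pr
  rw [← Finset.sum_div]
  gcongr
  exact_mod_cast Finset.card_biUnion_le

theorem ev_insert_right {S₁ S₂ : Finset E} {t₁ t₂ : ℕ} {e : E} :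
    ev T S₁ (insert e S₂) t₁ t₂
      = (ev T S₁ S₂ t₁ t₂).filter (fun σ => ¬ (σ.symm e).val < t₂) := by
  ext σ
  rw [Finset.mem_filter, mem_ev, mem_ev, Finset.disjoint_insert_left, mem_pre]
  tauto

theorem ev_insert_left {S₁ S₂ : Finset E} {t₁ t₂ : ℕ} {e : E} :
    ev T (insert e S₁) S₂ t₁ t₂
      = (ev T S₁ S₂ t₁ t₂).filter (fun σ => (σ.symm e).val < t₁) := by
  ext σ
  rw [Finset.mem_filter, mem_ev, mem_ev, Finset.insert_subset_iff, mem_pre]
  tauto

theorem card_ev_insert_right (hT : Fintype.card E = T) {S : Finset E} {t₁ t : ℕ} (ht : t ≤ T)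
    {e : E} (he : e ∉ S) :
    (ev T ∅ (insert e S) t₁ t).card * (T - S.card) ≤ (T - t - S.card) * (ev T ∅ S t₁ t).card := by
  have h := swap_avg (ev T ∅ S t₁ t) (∅ ∪ S) (fun σ hσ a ha b hb => ev_swap σ hσ a ha b hb)
    (fun i => ¬ i.val < t) e (by simpa using he) (T - t - S.card) ?_
  · rw [ev_insert_right]
    have h2 : (univ \ (∅ ∪ S)).card = T - S.card := by
      rw [Finset.card_sdiff_of_subset (Finset.subset_univ _), Finset.card_univ, hT,
        Finset.empty_union]
    rwa [h2] at h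
  · intro σ hσ
    rw [mem_ev] at hσ
    have h3 : (univ \ (∅ ∪ S)).filter (fun e' => ¬ (σ.symm e').val < t)
        = (univ \ pre σ t) \ S := by
      ext x
      simp [mem_pre]
      tauto
    rw [h3, Finset.card_sdiff_of_subset, Finset.card_sdiff_of_subset (Finset.subset_univ _),
      card_pre σ ht, Finset.card_univ, hT]
    intro x hx
    rw [Finset.mem_sdiff]
    exact ⟨Finset.mem_univ _, fun h => (Finset.disjoint_left.mp hσ.2 hx) h⟩

theorem card_ev_insert_left (hT : Fintype.card E = T) {S₁ S₂ : Finset E} {t₁ t₂ : ℕ}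
    (ht : t₁ ≤ T) (hd : Disjoint S₁ S₂)
    {e : E} (he : e ∉ S₁) (he' : e ∉ S₂) :
    (ev T (insert e S₁) S₂ t₁ t₂).card * (T - (S₁.card + S₂.card))
      ≤ (t₁ - S₁.card) * (ev T S₁ S₂ t₁ t₂).card := by
  have h := swap_avg (ev T S₁ S₂ t₁ t₂) (S₁ ∪ S₂)
    (fun σ hσ a ha b hb => ev_swap σ hσ a ha b hb)
    (fun i => i.val < t₁) e (by simp [he, he']) (t₁ - S₁.card) ?_
  · rw [ev_insert_left]
    have h2 : (univ \ (S₁ ∪ S₂)).card = T - (S₁.card + S₂.card) := by
      rw [Finset.card_sdiff_of_subset (Finset.subset_univ _), Finset.card_univ, hT,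
        Finset.card_union_of_disjoint hd]
    rwa [h2] at h
  · intro σ hσ
    rw [mem_ev] at hσ
    have h3 : (univ \ (S₁ ∪ S₂)).filter (fun e' => (σ.symm e').val < t₁)
        ⊆ (pre σ t₁) \ S₁ := by
      intro x
      simp only [Finset.mem_filter, Finset.mem_sdiff, Finset.mem_union, mem_pre]
      tauto
    refine (Finset.card_le_card h3).trans ?_
    rw [Finset.card_sdiff_of_subset hσ.1, card_pre σ ht]

theorem pr_ev_right (hT : Fintype.card E = T) (S : Finset E) {t₁ t : ℕ} (ht : t ≤ T) :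
    pr (ev T ∅ S t₁ t) ≤ (1 - (t : ℝ) / T) ^ S.card := by
  induction S using Finset.induction_on with
  | empty => simpa using pr_le_one _
  | insert e S he ih =>
    rw [Finset.card_insert_of_notMem he]
    have hle : S.card + 1 ≤ T := by
      rw [← hT, ← Finset.card_insert_of_notMem he]
      exact Finset.card_le_univ _
    have h := card_ev_insert_right hT (t₁ := t₁) ht he
    have hT0 : (0 : ℝ) < T := by
      have : 0 < T := by omega
      exact_mod_cast this
    have hTS : (0 : ℝ) < (T : ℝ) - S.card := by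
      have : ((S.card + 1 : ℕ) : ℝ) ≤ T := by exact_mod_cast hle
      push_cast at this
      linarith
    have htT : (t : ℝ) ≤ T := by exact_mod_cast ht
    have hq : 0 ≤ 1 - (t : ℝ) / T := by
      rw [sub_nonneg, div_le_one hT0]; exact htT
    have hc : ((T - t - S.card : ℕ) : ℝ) ≤ (1 - (t : ℝ) / T) * ((T : ℝ) - S.card) := by
      rcases le_or_gt S.card (T - t) with h1 | h1
      · rw [Nat.cast_sub h1, Nat.cast_sub ht]
        have : (1 - (t : ℝ) / T) * ((T : ℝ) - S.card)
            = (T : ℝ) - t - S.card + t / T * S.card := by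
          field_simp
          ring
        rw [this]
        have : 0 ≤ (t : ℝ) / T * S.card := by positivity
        linarith
      · have : T - t - S.card = 0 := by omega
        rw [this, Nat.cast_zero]
        positivity
    have h' : ((ev T ∅ (insert e S) t₁ t).card : ℝ) * ((T : ℝ) - S.card)
        ≤ ((1 - (t : ℝ) / T) * ((T : ℝ) - S.card)) * (ev T ∅ S t₁ t).card := by
      have h4 : (((ev T ∅ (insert e S) t₁ t).card * (T - S.card) : ℕ) : ℝ)
          ≤ (((T - t - S.card) * (ev T ∅ S t₁ t).card : ℕ) : ℝ) := by exact_mod_cast h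
      rw [Nat.cast_mul, Nat.cast_mul, Nat.cast_sub (by omega : S.card ≤ T)] at h4
      refine h4.trans ?_
      gcongr
    have h5 : ((ev T ∅ (insert e S) t₁ t).card : ℝ)
        ≤ (1 - (t : ℝ) / T) * (ev T ∅ S t₁ t).card := by
      have : ((ev T ∅ (insert e S) t₁ t).card : ℝ) * ((T : ℝ) - S.card)
        ≤ ((1 - (t : ℝ) / T) * (ev T ∅ S t₁ t).card) * ((T : ℝ) - S.card) := by
        linarith
      exact le_of_mul_le_mul_right this hTS
    calc pr (ev T ∅ (insert e S) t₁ t)
        ≤ (1 - (t : ℝ) / T) * pr (ev T ∅ S t₁ t) := by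
          unfold pr
          rw [← mul_div_assoc]
          gcongr
      _ ≤ (1 - (t : ℝ) / T) * (1 - (t : ℝ) / T) ^ S.card := by gcongr
      _ = (1 - (t : ℝ) / T) ^ (S.card + 1) := by ring

/-- Main joint estimate. -/
theorem pr_ev (hT : Fintype.card E = T) (S₁ S₂ : Finset E) (hd : Disjoint S₁ S₂)
    {t₁ t₂ : ℕ} (ht₂ : t₂ ≤ T) (ht₁ : t₁ + S₂.card ≤ T) :
    pr (ev T S₁ S₂ t₁ t₂)
      ≤ ((t₁ : ℝ) / ((T : ℝ) - S₂.card)) ^ S₁.card * (1 - (t₂ : ℝ) / T) ^ S₂.card := by
  induction S₁ using Finset.induction_on with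
  | empty => simpa using pr_ev_right hT S₂ ht₂
  | insert e S he ih =>
    rw [Finset.card_insert_of_notMem he]
    rw [Finset.disjoint_insert_left] at hd
    have hle : S.card + 1 + S₂.card ≤ T := by
      rw [← hT, ← Finset.card_insert_of_notMem he,
        ← Finset.card_union_of_disjoint (Finset.disjoint_insert_left.mpr hd)]
      exact Finset.card_le_univ _
    have h := card_ev_insert_left hT (t₂ := t₂) (by omega : t₁ ≤ T) hd.2 he hd.1
    have hTS : (0 : ℝ) < (T : ℝ) - S.card - S₂.card := by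
      have : ((S.card + 1 + S₂.card : ℕ) : ℝ) ≤ T := by exact_mod_cast hle
      push_cast at this
      linarith
    have hS0 : (0 : ℝ) ≤ S.card := by positivity
    have hT2 : (0 : ℝ) < (T : ℝ) - S₂.card := by linarith
    have ht1 : (t₁ : ℝ) ≤ (T : ℝ) - S₂.card := by
      have : ((t₁ + S₂.card : ℕ) : ℝ) ≤ T := by exact_mod_cast ht₁
      push_cast at this
      linarith
    have hc : ((t₁ - S.card : ℕ) : ℝ)
        ≤ ((t₁ : ℝ) / ((T : ℝ) - S₂.card)) * ((T : ℝ) - S.card - S₂.card) := by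
      rcases le_or_gt S.card t₁ with h1 | h1
      · rw [Nat.cast_sub h1]
        rw [div_mul_eq_mul_div, le_div_iff₀ hT2]
        nlinarith
      · have : t₁ - S.card = 0 := by omega
        rw [this, Nat.cast_zero]
        positivity
    have h5 : ((ev T (insert e S) S₂ t₁ t₂).card : ℝ)
        ≤ ((t₁ : ℝ) / ((T : ℝ) - S₂.card)) * (ev T S S₂ t₁ t₂).card := by
      have h4 : (((ev T (insert e S) S₂ t₁ t₂).card * (T - (S.card + S₂.card)) : ℕ) : ℝ)
          ≤ (((t₁ - S.card) * (ev T S S₂ t₁ t₂).card : ℕ) : ℝ) := by exact_mod_cast h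
      rw [Nat.cast_mul, Nat.cast_mul, Nat.cast_sub (by omega : S.card + S₂.card ≤ T)] at h4
      push_cast at h4
      have h6 : ((t₁ - S.card : ℕ) : ℝ) * ((ev T S S₂ t₁ t₂).card : ℝ)
          ≤ (((t₁ : ℝ) / ((T : ℝ) - S₂.card)) * ((T : ℝ) - S.card - S₂.card))
            * ((ev T S S₂ t₁ t₂).card : ℝ) := by gcongr
      have : ((ev T (insert e S) S₂ t₁ t₂).card : ℝ) * ((T : ℝ) - S.card - S₂.card)
        ≤ (((t₁ : ℝ) / ((T : ℝ) - S₂.card)) * (ev T S S₂ t₁ t₂).card)
            * ((T : ℝ) - S.card - S₂.card) := by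
        linarith
      exact le_of_mul_le_mul_right this hTS
    calc pr (ev T (insert e S) S₂ t₁ t₂)
        ≤ ((t₁ : ℝ) / ((T : ℝ) - S₂.card)) * pr (ev T S S₂ t₁ t₂) := by
          unfold pr
          rw [← mul_div_assoc]
          gcongr
      _ ≤ ((t₁ : ℝ) / ((T : ℝ) - S₂.card))
          * (((t₁ : ℝ) / ((T : ℝ) - S₂.card)) ^ S.card * (1 - (t₂ : ℝ) / T) ^ S₂.card) := by
          gcongr
          exact ih hd.2
      _ = _ := by ring

end Prefix

end Pool.Agent.MP1ae8db
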