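import Pool.Agent.Work.MP_1ae8db_pr.Moment

/-!
# Second moment bound for the number of uncovered stars
-/

set_option autoImplicit false

namespace Pool.Agent.MP1ae8db

open Finset

section SM

variable {E : Type*} [Fintype E] [DecidableEq E] {T : ℕ}

/-- Averaging over swaps outside the revealed set, exact version. -/
theorem swap_avg_eq (A : Finset (Fin T ≃ E)) (R : Finset E)
    (hA : ∀ σ ∈ A, ∀ a ∉ R, ∀ b ∉ R, σ.trans (Equiv.swap a b) ∈ A)
    (P : Fin T → Prop) [DecidablePred P] (e : E) (he : e ∉ R) (c : ℕ)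
    (hc : ∀ σ ∈ A, ((univ \ R).filter (fun e' => P (σ.symm e'))).card = c) :
    (A.filter (fun σ => P (σ.symm e))).card * (univ \ R).card = c * A.card := by
  have h1 : ∀ e' ∈ univ \ R, (A.filter (fun σ => P (σ.symm e'))).card
      = (A.filter (fun σ => P (σ.symm e))).card := by
    intro e' he'
    have he'' : e' ∉ R := by simpa using he'
    refine Finset.card_bij' (fun σ _ => σ.trans (Equiv.swap e e'))
      (fun σ _ => σ.trans (Equiv.swap e e')) ?_ ?_ ?_ ?_
    · intro σ hσ
      rw [Finset.mem_filter] at hσ ⊢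
      refine ⟨hA σ hσ.1 e he e' he'', ?_⟩
      simpa using hσ.2
    · intro σ hσ
      rw [Finset.mem_filter] at hσ ⊢
      refine ⟨hA σ hσ.1 e he e' he'', ?_⟩
      simpa using hσ.2
    · intro σ _
      ext x
      simp
    · intro σ _
      ext x
      simp
  calc (A.filter (fun σ => P (σ.symm e))).card * (univ \ R).card
      = ∑ e' ∈ univ \ R, (A.filter (fun σ => P (σ.symm e'))).card := by
        rw [Finset.sum_congr rfl h1, Finset.sum_const, smul_eq_mul, mul_comm]
    _ = ∑ e' ∈ univ \ R, ∑ σ ∈ A, (if P (σ.symm e') then 1 else 0) := by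
        refine Finset.sum_congr rfl fun e' _ => ?_
        rw [Finset.card_filter]
    _ = ∑ σ ∈ A, ∑ e' ∈ univ \ R, (if P (σ.symm e') then 1 else 0) := Finset.sum_comm
    _ = ∑ σ ∈ A, ((univ \ R).filter (fun e' => P (σ.symm e'))).card := by
        refine Finset.sum_congr rfl fun σ _ => ?_
        rw [Finset.card_filter]
    _ = ∑ _σ ∈ A, c := Finset.sum_congr rfl hc
    _ = c * A.card := by rw [Finset.sum_const, smul_eq_mul, mul_comm]

theorem card_ev_insert_right_eq (hT : Fintype.card E = T) {S : Finset E} {t₁ t : ℕ} (ht : t ≤ T)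
    {e : E} (he : e ∉ S) :
    (ev T ∅ (insert e S) t₁ t).card * (T - S.card) = (T - t - S.card) * (ev T ∅ S t₁ t).card := by
  have h := swap_avg_eq (ev T ∅ S t₁ t) (∅ ∪ S) (fun σ hσ a ha b hb => ev_swap σ hσ a ha b hb)
    (fun i => ¬ i.val < t) e (by simpa using he) (T - t - S.card) ?_
  · rw [ev_insert_right]
    have h2 : (univ \ (∅ ∪ S)).card = T - S.card := by
      rw [Finset.card_sdiff_of_subset (Finset.subset_univ _), Finset.card_univ, hT,
        Finset.empty_union]
    rwa [h2] at h
  · intro σ hσ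
    rw [mem_ev] at hσ
    have h3 : (univ \ (∅ ∪ S)).filter (fun e' => ¬ (σ.symm e').val < t)
        = (univ \ pre σ t) \ S := by
      ext x
      simp [mem_pre]
      tauto
    rw [h3, Finset.card_sdiff_of_subset, Finset.card_sdiff_of_subset (Finset.subset_univ _),
      card_pre σ ht, Finset.card_univ, hT]
    intro x hx
    rw [Finset.mem_sdiff]
    exact ⟨Finset.mem_univ _, fun h => (Finset.disjoint_left.mp hσ.2 hx) h⟩

/-- The probability that `j` given elements avoid the first `t` of `T`. -/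
noncomputable def av (T t j : ℕ) : ℝ :=
  ∏ i ∈ range j, (((T - t - i : ℕ) : ℝ) / ((T - i : ℕ) : ℝ))

theorem av_nonneg (T t j : ℕ) : 0 ≤ av T t j := by
  unfold av
  positivity

theorem pr_ev_right_eq (hT : Fintype.card E = T) (S : Finset E) {t₁ t : ℕ} (ht : t ≤ T) :
    pr (ev T ∅ S t₁ t) = av T t S.card := by
  induction S using Finset.induction_on with
  | empty =>
    have : ev T ∅ (∅ : Finset E) t₁ t = univ := by
      ext σ
      simp [mem_ev]
    rw [this]
    unfold pr av
    rw [Finset.card_univ, Finset.card_empty, Finset.prod_range_zero, div_self]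
    exact (card_pos' hT).ne'
  | insert e S he ih =>
    rw [Finset.card_insert_of_notMem he]
    have hle : S.card + 1 ≤ T := by
      rw [← hT, ← Finset.card_insert_of_notMem he]
      exact Finset.card_le_univ _
    have h := card_ev_insert_right_eq hT (t₁ := t₁) ht he
    have hTS : (0 : ℝ) < ((T - S.card : ℕ) : ℝ) := by
      have : 0 < T - S.card := by omega
      exact_mod_cast this
    have h4 : ((ev T ∅ (insert e S) t₁ t).card : ℝ) * ((T - S.card : ℕ) : ℝ)
          = ((T - t - S.card : ℕ) : ℝ) * ((ev T ∅ S t₁ t).card : ℝ) := by exact_mod_cast h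
    unfold av at *
    rw [Finset.prod_range_succ, ← ih]
    unfold pr
    rw [div_mul_div_comm, div_eq_div_iff (card_pos' hT).ne' (by
      have := card_pos' hT (E := E)
      positivity)]
    linear_combination (Fintype.card (Fin T ≃ E) : ℝ) * h4

theorem av_ratio_anti {T t i j : ℕ} (ht : t ≤ T) (hij : i ≤ j) (hj : j < T) :
    (((T - t - j : ℕ) : ℝ) / ((T - j : ℕ) : ℝ)) ≤ (((T - t - i : ℕ) : ℝ) / ((T - i : ℕ) : ℝ)) := by
  have h1 : (0 : ℝ) < ((T - j : ℕ) : ℝ) := by
    have : 0 < T - j := by omega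
    exact_mod_cast this
  have h2 : (0 : ℝ) < ((T - i : ℕ) : ℝ) := by
    have : 0 < T - i := by omega
    exact_mod_cast this
  rw [div_le_div_iff₀ h1 h2]
  rcases le_or_gt j (T - t) with h | h
  · rw [Nat.cast_sub (by omega : j ≤ T - t), Nat.cast_sub (by omega : i ≤ T - t),
      Nat.cast_sub (by omega : i ≤ T), Nat.cast_sub (by omega : j ≤ T), Nat.cast_sub ht]
    have hij' : (i : ℝ) ≤ j := by exact_mod_cast hij
    have ht' : (0 : ℝ) ≤ t := by positivity
    nlinarith
  · have : T - t - j = 0 := by omega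
    rw [this, Nat.cast_zero, zero_mul]
    positivity

theorem av_double {T t m : ℕ} (ht : t ≤ T) (hm : 2 * (m + 1) - 1 < T) :
    av T t (2 * (m + 1) - 1) ≤ av T t (m + 1) * av T t m := by
  have h0 : 2 * (m + 1) - 1 = (m + 1) + m := by omega
  rw [h0]
  unfold av
  rw [Finset.prod_range_add]
  apply mul_le_mul_of_nonneg_left _ (by positivity)
  apply Finset.prod_le_prod
  · intro i _
    positivity
  · intro i hi
    rw [Finset.mem_range] at hi
    exact av_ratio_anti ht (by omega) (by omega)

theorem av_anti {T t i j : ℕ} (hij : i ≤ j) (hj : j < T) : av T t j ≤ av T t i := by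
  unfold av
  obtain ⟨d, rfl⟩ := Nat.exists_eq_add_of_le hij
  rw [Finset.prod_range_add]
  have h : ∏ x ∈ range d, (((T - t - (i + x) : ℕ) : ℝ) / ((T - (i + x) : ℕ) : ℝ)) ≤ 1 := by
    apply Finset.prod_le_one
    · intro x _
      positivity
    · intro x _
      apply div_le_one_of_le₀ _ (by positivity)
      have : T - t - (i + x) ≤ T - (i + x) := by omega
      exact_mod_cast this
  have h2 : 0 ≤ ∏ x ∈ range i, (((T - t - x : ℕ) : ℝ) / ((T - x : ℕ) : ℝ)) := by positivity
  nlinarith

theorem av_lower {T t m : ℕ} (ht : t + m ≤ T) (hm : m < T) :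
    (1 - (t : ℝ) / ((T : ℝ) - m)) ^ m ≤ av T t m := by
  unfold av
  have hmT : (0 : ℝ) < (T : ℝ) - m := by
    have : (m : ℝ) < T := by exact_mod_cast hm
    linarith
  have h3 : 1 - (t : ℝ) / ((T : ℝ) - m) = (((T - t - m : ℕ) : ℝ) / ((T - m : ℕ) : ℝ)) := by
    rw [Nat.cast_sub (by omega : m ≤ T - t), Nat.cast_sub (by omega : t ≤ T),
      Nat.cast_sub (by omega : m ≤ T)]
    field_simp
    ring
  have h4 : (((T - t - m : ℕ) : ℝ) / ((T - m : ℕ) : ℝ)) ^ m
      = ∏ _i ∈ range m, (((T - t - m : ℕ) : ℝ) / ((T - m : ℕ) : ℝ)) := by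
    rw [Finset.prod_const, Finset.card_range]
  rw [h3, h4]
  apply Finset.prod_le_prod
  · intro i _
    positivity
  · intro i hi
    rw [Finset.mem_range] at hi
    exact av_ratio_anti (by omega) (by omega) hm

/-- Second moment bound. -/
theorem second_moment (hT : Fintype.card E = T) {ι : Type*} [DecidableEq ι] (I : Finset ι)
    (st : ι → Finset E) {m t : ℕ} (ht : t + (m + 1) ≤ T) (hm : 2 * (m + 1) ≤ T)
    (hst : ∀ i ∈ I, (st i).card = m + 1)
    (hst2 : ∀ i ∈ I, ∀ j ∈ I, i ≠ j → (st i ∩ st j).card ≤ 1) (hI : I.Nonempty) :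
    pr ((univ : Finset (Fin T ≃ E)).filter (fun σ => ∀ i ∈ I, ¬ Disjoint (st i) (pre σ t)))
      ≤ 1 / (I.card * av T t (m + 1)) + (t : ℝ) / ((T : ℝ) - t - m) := by
  classical
  obtain ⟨M, hM⟩ : ∃ M : ℝ, M = (Fintype.card (Fin T ≃ E) : ℝ) := ⟨_, rfl⟩
  have hMpos : 0 < M := by rw [hM]; exact card_pos' hT
  obtain ⟨a, ha⟩ : ∃ a : ℝ, a = av T t (m + 1) := ⟨_, rfl⟩
  obtain ⟨μ, hμ⟩ : ∃ μ : ℝ, μ = I.card * a := ⟨_, rfl⟩
  have htT : t ≤ T := by omega
  have hIc : (0 : ℝ) < I.card := by exact_mod_cast hI.card_pos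
  -- positivity of `a`
  have hfac : ∀ i ≤ m, (0 : ℝ) < (((T - t - i : ℕ) : ℝ) / ((T - i : ℕ) : ℝ)) := by
    intro i hi
    have h1 : 0 < T - t - i := by omega
    have h2 : 0 < T - i := by omega
    have h1' : (0 : ℝ) < ((T - t - i : ℕ) : ℝ) := by exact_mod_cast h1
    have h2' : (0 : ℝ) < ((T - i : ℕ) : ℝ) := by exact_mod_cast h2
    positivity
  have hapos : 0 < a := by
    rw [ha]
    unfold av
    apply Finset.prod_pos
    intro i hi
    rw [Finset.mem_range] at hi
    exact hfac i (by omega)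
  have hμpos : 0 < μ := by rw [hμ]; positivity
  -- the counting variable
  let X : (Fin T ≃ E) → ℝ := fun σ => ∑ i ∈ I, if Disjoint (st i) (pre σ t) then (1 : ℝ) else 0
  have hX1 : ∑ σ : Fin T ≃ E, X σ = μ * M := by
    simp only [X]
    rw [Finset.sum_comm]
    have : ∀ i ∈ I, (∑ σ : Fin T ≃ E, if Disjoint (st i) (pre σ t) then (1 : ℝ) else 0)
        = a * M := by
      intro i hi
      rw [← Finset.sum_filter, Finset.sum_const, nsmul_eq_mul, mul_one]
      have h1 : (univ : Finset (Fin T ≃ E)).filter (fun σ => Disjoint (st i) (pre σ t))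
          = ev T ∅ (st i) 0 t := by
        ext σ
        simp [mem_ev]
      have h2 := pr_ev_right_eq hT (st i) (t₁ := 0) htT
      rw [hst i hi] at h2
      rw [h1, ha, ← h2]
      unfold pr
      rw [← hM]
      field_simp
    rw [Finset.sum_congr rfl this, Finset.sum_const, nsmul_eq_mul, hμ]
    ring
  have hX2 : ∑ σ : Fin T ≃ E, X σ ^ 2
      ≤ (I.card * a + I.card ^ 2 * av T t (2 * (m + 1) - 1)) * M := by
    have h1 : ∀ σ : Fin T ≃ E, X σ ^ 2 = ∑ i ∈ I, ∑ j ∈ I,
        (if Disjoint (st i ∪ st j) (pre σ t) then (1 : ℝ) else 0) := by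
      intro σ
      simp only [X]
      rw [sq, Finset.sum_mul_sum]
      refine Finset.sum_congr rfl fun i _ => Finset.sum_congr rfl fun j _ => ?_
      by_cases h1 : Disjoint (st i) (pre σ t) <;> by_cases h2 : Disjoint (st j) (pre σ t) <;>
        simp [Finset.disjoint_union_left, h1, h2]
    simp only [h1]
    rw [Finset.sum_comm]
    have h2 : ∀ i ∈ I, (∑ σ : Fin T ≃ E, ∑ j ∈ I,
        (if Disjoint (st i ∪ st j) (pre σ t) then (1 : ℝ) else 0))
        ≤ (a + I.card * av T t (2 * (m + 1) - 1)) * M := by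
      intro i hi
      rw [Finset.sum_comm]
      have h3 : ∀ j ∈ I, (∑ σ : Fin T ≃ E,
          (if Disjoint (st i ∪ st j) (pre σ t) then (1 : ℝ) else 0))
          = av T t (st i ∪ st j).card * M := by
        intro j hj
        rw [← Finset.sum_filter, Finset.sum_const, nsmul_eq_mul, mul_one]
        have h1 : (univ : Finset (Fin T ≃ E)).filter
            (fun σ => Disjoint (st i ∪ st j) (pre σ t)) = ev T ∅ (st i ∪ st j) 0 t := by
          ext σ
          simp [mem_ev]
        have h2 := pr_ev_right_eq hT (st i ∪ st j) (t₁ := 0) htT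
        rw [h1, ← h2]
        unfold pr
        rw [← hM]
        field_simp
      rw [Finset.sum_congr rfl h3, ← Finset.sum_mul]
      apply mul_le_mul_of_nonneg_right _ hMpos.le
      rw [← Finset.add_sum_erase I _ hi, Finset.union_self, hst i hi, ← ha]
      apply add_le_add le_rfl
      have h4 : ∀ j ∈ I.erase i, av T t (st i ∪ st j).card ≤ av T t (2 * (m + 1) - 1) := by
        intro j hj
        rw [Finset.mem_erase] at hj
        have h5 := Finset.card_union_add_card_inter (st i) (st j)
        have h6 := hst2 i hi j hj.2 (Ne.symm hj.1)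
        rw [hst i hi, hst j hj.2] at h5
        rcases Nat.lt_or_ge (st i ∪ st j).card T with h7 | h7
        · exact av_anti (by omega) h7
        · have h8 : (st i ∪ st j).card = T := by
            apply le_antisymm _ h7
            rw [← hT]
            exact Finset.card_le_univ _
          have h9 : 2 * (m + 1) = T := by omega
          rw [h8]
          rcases Nat.eq_zero_or_pos t with ht0 | ht0
          · subst ht0
            have hav : ∀ j ≤ T, av T 0 j = 1 := by
              intro j hj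
              unfold av
              apply Finset.prod_eq_one
              intro x hx
              rw [Finset.mem_range] at hx
              rw [Nat.sub_zero]
              apply div_self
              have : 0 < T - x := by omega
              exact_mod_cast this.ne'
            rw [hav T le_rfl, hav _ (by omega)]
          · have : av T t T = 0 := by
              unfold av
              apply Finset.prod_eq_zero (i := T - t) (by rw [Finset.mem_range]; omega)
              simp
            rw [this]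
            exact av_nonneg _ _ _
      refine (Finset.sum_le_sum h4).trans ?_
      rw [Finset.sum_const, nsmul_eq_mul]
      apply mul_le_mul_of_nonneg_right _ (av_nonneg _ _ _)
      exact_mod_cast Finset.card_le_card (Finset.erase_subset _ _)
    refine (Finset.sum_le_sum h2).trans (le_of_eq ?_)
    rw [Finset.sum_const, nsmul_eq_mul]
    ring
  -- the event `X = 0`
  set B := (univ : Finset (Fin T ≃ E)).filter (fun σ => ∀ i ∈ I, ¬ Disjoint (st i) (pre σ t))
    with hB
  have hvar : (B.card : ℝ) * μ ^ 2 ≤ ∑ σ : Fin T ≃ E, (X σ - μ) ^ 2 := by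
    calc (B.card : ℝ) * μ ^ 2 = ∑ σ ∈ B, (X σ - μ) ^ 2 := by
          rw [← nsmul_eq_mul, ← Finset.sum_const]
          refine Finset.sum_congr rfl fun σ hσ => ?_
          rw [hB, Finset.mem_filter] at hσ
          have : X σ = 0 := by
            simp only [X]
            apply Finset.sum_eq_zero
            intro i hi
            rw [if_neg (hσ.2 i hi)]
          rw [this]
          ring
      _ ≤ _ := by
          apply Finset.sum_le_sum_of_subset_of_nonneg (Finset.subset_univ _)
          intro σ _ _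
          positivity
  clear_value B
  have hvar2 : ∑ σ : Fin T ≃ E, (X σ - μ) ^ 2
      ≤ (I.card * a + I.card ^ 2 * (av T t (2 * (m + 1) - 1) - a ^ 2)) * M := by
    have h1 : ∑ σ : Fin T ≃ E, (X σ - μ) ^ 2
        = ∑ σ : Fin T ≃ E, X σ ^ 2 - 2 * μ * ∑ σ : Fin T ≃ E, X σ + μ ^ 2 * M := by
      have : ∀ σ : Fin T ≃ E, (X σ - μ) ^ 2 = X σ ^ 2 - 2 * μ * X σ + μ ^ 2 := by
        intro σ; ring
      simp only [this]
      rw [Finset.sum_add_distrib, Finset.sum_sub_distrib, ← Finset.mul_sum, Finset.sum_const,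
        Finset.card_univ, nsmul_eq_mul, hM]
      ring
    rw [h1, hX1]
    have h2 : μ ^ 2 = I.card ^ 2 * a ^ 2 := by rw [hμ]; ring
    have h3 : (I.card * a + I.card ^ 2 * (av T t (2 * (m + 1) - 1) - a ^ 2)) * M
      = (I.card * a + I.card ^ 2 * av T t (2 * (m + 1) - 1)) * M - μ ^ 2 * M := by
      rw [h2]; ring
    rw [h3]
    nlinarith [hX2]
  have hdbl : av T t (2 * (m + 1) - 1) ≤ a * av T t m := by
    rw [ha]; exact av_double htT (by omega)
  have hstep : a = av T t m * (((T - t - m : ℕ) : ℝ) / ((T - m : ℕ) : ℝ)) := by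
    rw [ha]
    unfold av
    rw [Finset.prod_range_succ]
  have hr := hfac m le_rfl
  have hTtm : (0 : ℝ) < (T : ℝ) - t - m := by
    have : ((t + (m + 1) : ℕ) : ℝ) ≤ T := by exact_mod_cast ht
    push_cast at this
    linarith
  have hreq : (((T - t - m : ℕ) : ℝ) / ((T - m : ℕ) : ℝ)) = ((T : ℝ) - t - m) / ((T : ℝ) - m) := by
    rw [Nat.cast_sub (by omega : m ≤ T - t), Nat.cast_sub (by omega : t ≤ T),
      Nat.cast_sub (by omega : m ≤ T)]
  have hTm : (0 : ℝ) < (T : ℝ) - m := by
    have : (0 : ℝ) ≤ t := by positivity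
    linarith
  have hav1 : av T t m = a * (((T : ℝ) - m) / ((T : ℝ) - t - m)) := by
    have h7 : ((T : ℝ) - t - m) / ((T : ℝ) - m) * (((T : ℝ) - m) / ((T : ℝ) - t - m)) = 1 := by
      rw [div_mul_div_comm, mul_comm ((T : ℝ) - t - m)]
      exact div_self (by positivity)
    calc av T t m = av T t m * 1 := (mul_one _).symm
      _ = av T t m * (((T : ℝ) - t - m) / ((T : ℝ) - m)
          * (((T : ℝ) - m) / ((T : ℝ) - t - m))) := by rw [h7]
      _ = _ := by rw [hstep, hreq, mul_assoc]
  have hexc : av T t (2 * (m + 1) - 1) - a ^ 2 ≤ a ^ 2 * ((t : ℝ) / ((T : ℝ) - t - m)) := by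
    have h1 : a * av T t m = a ^ 2 * (((T : ℝ) - m) / ((T : ℝ) - t - m)) := by
      rw [hav1]; ring
    have h2 : ((T : ℝ) - m) / ((T : ℝ) - t - m) = 1 + (t : ℝ) / ((T : ℝ) - t - m) := by
      field_simp
      ring
    rw [h1, h2] at hdbl
    linarith
  have hfinal : (B.card : ℝ) * μ ^ 2 ≤ (μ + μ ^ 2 * ((t : ℝ) / ((T : ℝ) - t - m))) * M := by
    refine (hvar.trans hvar2).trans ?_
    apply mul_le_mul_of_nonneg_right _ hMpos.le
    have h2 : μ ^ 2 = I.card ^ 2 * a ^ 2 := by rw [hμ]; ring
    rw [h2, hμ]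
    have h3 : (0 : ℝ) ≤ (I.card : ℝ) ^ 2 := sq_nonneg _
    nlinarith [mul_le_mul_of_nonneg_left hexc h3]
  unfold pr
  rw [← hM, div_le_iff₀ hMpos, ← ha, ← hμ]
  have hμ2 : 0 < μ ^ 2 := pow_pos hμpos 2
  refine le_of_mul_le_mul_right ?_ hμ2
  refine hfinal.trans (le_of_eq ?_)
  have h6 : (1 / μ + (t : ℝ) / ((T : ℝ) - t - m)) * M * μ ^ 2
      = ((1 / μ * μ) * μ + μ ^ 2 * ((t : ℝ) / ((T : ℝ) - t - m))) * M := by ring
  rw [h6, one_div_mul_cancel hμpos.ne', one_mul]

end SM

end Pool.Agent.MP1ae8db
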