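import Pool.Agent.Work.MP_1ae8db_pr.SecondMoment

/-!
# Stars of facets in the complete `k`-uniform hypergraph, and the two exposure times
-/

set_option autoImplicit false

namespace Pool.Agent.MP1ae8db

open Finset

/-- Edges of the complete `k`-uniform hypergraph on `Fin n`. -/
abbrev Ed (n k : ℕ) := {s : Finset (Fin n) // s.card = k}

/-- Facets: the `(k-1)`-subsets. -/
def fac (n k : ℕ) : Finset (Finset (Fin n)) := powersetCard (k - 1) univ

/-- The edges containing `f`. -/
def star (n k : ℕ) (f : Finset (Fin n)) : Finset (Ed n k) := univ.filter (fun e => f ⊆ e.val)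

theorem card_Ed (n k : ℕ) : Fintype.card (Ed n k) = n.choose k := by
  rw [Fintype.card_finset_len, Fintype.card_fin]

theorem mem_fac {n k : ℕ} {f : Finset (Fin n)} : f ∈ fac n k ↔ f.card = k - 1 := by
  simp [fac, Finset.mem_powersetCard]

theorem card_fac (n k : ℕ) : (fac n k).card = n.choose (k - 1) := by
  simp [fac]

theorem mem_star {n k : ℕ} {f : Finset (Fin n)} {e : Ed n k} : e ∈ star n k f ↔ f ⊆ e.val := by
  simp [star]

theorem card_star {n k : ℕ} (hk : 1 ≤ k) {f : Finset (Fin n)} (hf : f.card = k - 1) :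
    (star n k f).card = n - (k - 1) := by
  have h1 : (univ \ f).card = n - (k - 1) := by
    rw [Finset.card_sdiff_of_subset (Finset.subset_univ _), Finset.card_univ, Fintype.card_fin, hf]
  rw [← h1]
  symm
  refine Finset.card_bij (fun x hx => ⟨insert x f, ?_⟩) ?_ ?_ ?_
  · rw [Finset.mem_sdiff] at hx
    rw [Finset.card_insert_of_notMem hx.2, hf]
    omega
  · intro x _
    rw [mem_star]
    exact Finset.subset_insert _ _
  · intro x hx y hy hxy
    rw [Subtype.mk.injEq] at hxy
    rw [Finset.mem_sdiff] at hx hy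
    have : x ∈ insert y f := by
      rw [← hxy]; exact Finset.mem_insert_self _ _
    rw [Finset.mem_insert] at this
    rcases this with h | h
    · exact h
    · exact absurd h hx.2
  · intro e he
    rw [mem_star] at he
    have hc : (e.val \ f).card = 1 := by
      rw [Finset.card_sdiff_of_subset he, e.2, hf]
      omega
    obtain ⟨x, hx⟩ := Finset.card_eq_one.mp hc
    have hx' : x ∈ e.val \ f := by rw [hx]; exact Finset.mem_singleton_self _
    rw [Finset.mem_sdiff] at hx'
    refine ⟨x, ?_, ?_⟩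
    · rw [Finset.mem_sdiff]
      exact ⟨Finset.mem_univ _, hx'.2⟩
    · apply Subtype.ext
      apply Finset.eq_of_subset_of_card_le
      · exact Finset.insert_subset hx'.1 he
      · rw [e.2, Finset.card_insert_of_notMem hx'.2, hf]
        omega

theorem card_star_inter {n k : ℕ} (hk : 1 ≤ k) {f g : Finset (Fin n)} (hf : f.card = k - 1)
    (hg : g.card = k - 1) (hfg : f ≠ g) : (star n k f ∩ star n k g).card ≤ 1 := by
  rw [Finset.card_le_one]
  have key : ∀ e ∈ star n k f ∩ star n k g, e.val = f ∪ g := by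
    intro e he
    rw [Finset.mem_inter, mem_star, mem_star] at he
    symm
    apply Finset.eq_of_subset_of_card_le (Finset.union_subset he.1 he.2)
    rw [e.2]
    by_contra h
    push Not at h
    have h1 : f = f ∪ g := by
      apply Finset.eq_of_subset_of_card_le Finset.subset_union_left
      omega
    have h2 : g = f ∪ g := by
      apply Finset.eq_of_subset_of_card_le Finset.subset_union_right
      omega
    exact hfg (h1.trans h2.symm)
  intro a ha b hb
  apply Subtype.ext
  rw [key a ha, key b hb]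

/-- The exposure time with `a log n` expected edges in a star. -/
noncomputable def tt (k n : ℕ) (a : ℝ) : ℕ :=
  ⌊a * Real.log n * (n.choose k : ℝ) / ((n - (k - 1) : ℕ) : ℝ)⌋₊

theorem tt_le {k n : ℕ} {a : ℝ} (ha : 0 ≤ a) :
    (tt k n a : ℝ) ≤ a * Real.log n * (n.choose k : ℝ) / ((n - (k - 1) : ℕ) : ℝ) := by
  unfold tt
  apply Nat.floor_le
  have : 0 ≤ Real.log n := Real.log_natCast_nonneg n
  positivity

theorem tt_div_le {k n : ℕ} {a : ℝ} (ha : 0 ≤ a) :
    (tt k n a : ℝ) / (n.choose k : ℝ) ≤ a * Real.log n / ((n - (k - 1) : ℕ) : ℝ) := by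
  have h0 : 0 ≤ Real.log n := Real.log_natCast_nonneg n
  rcases Nat.eq_zero_or_pos (n.choose k) with h | h
  · rw [h, Nat.cast_zero, div_zero]
    positivity
  · have h' : (0 : ℝ) < n.choose k := by exact_mod_cast h
    rw [div_le_iff₀ h']
    refine (tt_le ha).trans (le_of_eq ?_)
    ring

theorem le_tt_div {k n : ℕ} {a : ℝ} (h : 0 < n.choose k) :
    a * Real.log n / ((n - (k - 1) : ℕ) : ℝ) - 1 / (n.choose k : ℝ)
      ≤ (tt k n a : ℝ) / (n.choose k : ℝ) := by
  have h' : (0 : ℝ) < n.choose k := by exact_mod_cast h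
  rw [le_div_iff₀ h', sub_mul, one_div, inv_mul_cancel₀ h'.ne']
  have := Nat.lt_floor_add_one (a * Real.log n * (n.choose k : ℝ) / ((n - (k - 1) : ℕ) : ℝ))
  have h2 : a * Real.log n / ((n - (k - 1) : ℕ) : ℝ) * (n.choose k : ℝ)
      = a * Real.log n * (n.choose k : ℝ) / ((n - (k - 1) : ℕ) : ℝ) := by ring
  rw [h2]
  unfold tt
  linarith

/-- `T = C(n,k)` is at least `m (n)/k`. -/
theorem choose_identity {n k : ℕ} (hk : 1 ≤ k) :
    k * n.choose k = (n - (k - 1)) * n.choose (k - 1) := by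
  obtain ⟨j, rfl⟩ : ∃ j, k = j + 1 := ⟨k - 1, by omega⟩
  rw [Nat.add_sub_cancel]
  have := Nat.choose_succ_right_eq n j
  rw [mul_comm, this, mul_comm]

/-- `log n / n → 0` in the form used. -/
theorem tendsto_log_div (k : ℕ) (a : ℝ) :
    Filter.Tendsto (fun n : ℕ => a * Real.log n / ((n - (k - 1) : ℕ) : ℝ)) Filter.atTop
      (nhds 0) := by
  have h1 : Filter.Tendsto (fun n : ℕ => Real.log n / n) Filter.atTop (nhds 0) := by
    have := Real.isLittleO_log_id_atTop.tendsto_div_nhds_zero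
    exact this.comp tendsto_natCast_atTop_atTop
  have h2 : Filter.Tendsto (fun n : ℕ => (2 * |a|) * (Real.log n / n)) Filter.atTop (nhds 0) := by
    simpa using h1.const_mul (2 * |a|)
  apply squeeze_zero_norm' _ h2
  filter_upwards [Filter.eventually_ge_atTop (2 * k + 1)] with n hn
  have hL : 0 ≤ Real.log n := Real.log_natCast_nonneg n
  have hn0 : (0 : ℝ) < n := by
    have : 0 < n := by omega
    exact_mod_cast this
  have hm : (n : ℝ) / 2 ≤ ((n - (k - 1) : ℕ) : ℝ) := by
    have h3 : n ≤ 2 * (n - (k - 1)) := by omega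
    have h4 : (n : ℝ) ≤ 2 * ((n - (k - 1) : ℕ) : ℝ) := by exact_mod_cast h3
    linarith
  rw [Real.norm_eq_abs, abs_div, abs_mul, abs_of_nonneg hL, Nat.abs_cast]
  have hm0 : (0 : ℝ) < (n : ℝ) / 2 := by positivity
  calc |a| * Real.log n / ((n - (k - 1) : ℕ) : ℝ) ≤ |a| * Real.log n / ((n : ℝ) / 2) := by
        gcongr
    _ = _ := by field_simp

theorem tt_small (k : ℕ) {a : ℝ} (ha : 0 ≤ a) {ε : ℝ} (hε : 0 < ε) :
    ∀ᶠ n : ℕ in Filter.atTop, (tt k n a : ℝ) ≤ ε * (n.choose k : ℝ) := by
  filter_upwards [(tendsto_log_div k a).eventually (gt_mem_nhds hε),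
    Filter.eventually_ge_atTop k] with n hn hnk
  have h := tt_div_le (k := k) (n := n) ha
  have h' : (0 : ℝ) < n.choose k := by exact_mod_cast Nat.choose_pos hnk
  rw [div_le_iff₀ h'] at h
  refine h.trans ?_
  gcongr

theorem choose_ge_self : ∀ n j : ℕ, 1 ≤ j → j + 1 ≤ n → n ≤ n.choose j := by
  intro n
  induction n with
  | zero => intro j _ h; omega
  | succ n ih =>
    intro j h1 h2
    obtain ⟨i, rfl⟩ : ∃ i, j = i + 1 := ⟨j - 1, by omega⟩
    rw [Nat.choose_succ_succ']
    rcases Nat.lt_or_ge (i + 1) n with h | h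
    · have h3 := ih (i + 1) (by omega) (by omega)
      have h4 : 0 < n.choose i := Nat.choose_pos (by omega)
      omega
    · have : i + 1 = n := by omega
      subst this
      rw [Nat.choose_self, Nat.choose_succ_self_right]

theorem choose_lower {n k : ℕ} (hk : 2 ≤ k) (hn : k ≤ n) :
    n ≤ n.choose (k - 1) := choose_ge_self n (k - 1) (by omega) (by omega)

theorem m_small {k : ℕ} (hk : 2 ≤ k) {ε : ℝ} (hε : 0 < ε) :
    ∀ᶠ n : ℕ in Filter.atTop, ((n - (k - 1) : ℕ) : ℝ) ≤ ε * (n.choose k : ℝ) := by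
  have h : Filter.Tendsto (fun n : ℕ => (n : ℝ)) Filter.atTop Filter.atTop :=
    tendsto_natCast_atTop_atTop
  filter_upwards [Filter.eventually_ge_atTop k, h.eventually_ge_atTop (k / ε)] with n hn hn2
  have h1 := choose_lower hk hn
  have h2 := choose_identity (n := n) (k := k) (by omega)
  have h3 : (k : ℝ) * n.choose k = ((n - (k - 1) : ℕ) : ℝ) * n.choose (k - 1) := by
    exact_mod_cast h2
  have h4 : (n : ℝ) ≤ n.choose (k - 1) := by exact_mod_cast h1
  have hk0 : (0 : ℝ) < k := by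
    have : 0 < k := by omega
    exact_mod_cast this
  have hm : (0 : ℝ) ≤ ((n - (k - 1) : ℕ) : ℝ) := by positivity
  rw [div_le_iff₀ hε] at hn2
  have h5 : ((n - (k - 1) : ℕ) : ℝ) * k ≤ (ε * (n.choose k : ℝ)) * k := by
    have : (ε * (n.choose k : ℝ)) * k = ε * (((n - (k - 1) : ℕ) : ℝ) * n.choose (k - 1)) := by
      rw [← h3]; ring
    rw [this]
    calc ((n - (k - 1) : ℕ) : ℝ) * k ≤ ((n - (k - 1) : ℕ) : ℝ) * (n * ε) := by gcongr
      _ ≤ ((n - (k - 1) : ℕ) : ℝ) * (n.choose (k - 1) * ε) := by gcongr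
      _ = _ := by ring
  exact le_of_mul_le_mul_right h5 hk0

/-- Lower bound for the number of facets. -/
theorem choose_pow_lower {n j : ℕ} (hn : 2 * j ≤ n) :
    ((n : ℝ) / 2) ^ j / (j.factorial : ℝ) ≤ (n.choose j : ℝ) := by
  have h := Nat.pow_le_choose (α := ℝ) j n
  refine le_trans ?_ h
  have h4 : (n : ℝ) / 2 ≤ ((n + 1 - j : ℕ) : ℝ) := by
    have h5 : n ≤ 2 * (n + 1 - j) := by omega
    have h6 : (n : ℝ) ≤ 2 * ((n + 1 - j : ℕ) : ℝ) := by exact_mod_cast h5
    linarith
  gcongr

theorem choose_pow_upper (n j : ℕ) : (n.choose j : ℝ) ≤ (n : ℝ) ^ j := by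
  have h := Nat.choose_le_pow_div (α := ℝ) j n
  refine h.trans ?_
  apply div_le_self (by positivity)
  exact_mod_cast Nat.succ_le_of_lt (Nat.factorial_pos j)

theorem pow_eq_exp {n : ℕ} (hn : 0 < n) (j : ℕ) : (n : ℝ) ^ j = Real.exp (j * Real.log n) := by
  rw [Real.exp_nat_mul, Real.exp_log (by exact_mod_cast hn)]

theorem tendsto_exp_neg_log {c : ℝ} (hc : 0 < c) (C : ℝ) :
    Filter.Tendsto (fun n : ℕ => C * Real.exp (- (c * Real.log n))) Filter.atTop (nhds 0) := by
  have h1 : Filter.Tendsto (fun n : ℕ => c * Real.log n) Filter.atTop Filter.atTop :=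
    Filter.Tendsto.const_mul_atTop hc
      (Real.tendsto_log_atTop.comp tendsto_natCast_atTop_atTop)
  have h2 := (Real.tendsto_exp_neg_atTop_nhds_zero.comp h1).const_mul C
  simpa using h2

end Pool.Agent.MP1ae8db
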