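import Pool.Agent.Work.MP_1ae8db_pr.Setup

/-!
# Walks between facets and their edge sets
-/

set_option autoImplicit false

namespace Pool.Agent.MP1ae8db

open Finset

/-- Walks of length `l`: first facet, set of edges, last facet. -/
def W (n k : ℕ) : ℕ → Finset (Finset (Fin n) × Finset (Ed n k) × Finset (Fin n))
  | 0 => (fac n k).image (fun f => (f, ∅, f))
  | l + 1 => (W n k l).biUnion (fun w => (star n k w.2.2).biUnion (fun e =>
      ((e.val).powersetCard (k - 1)).image (fun g => (w.1, insert e w.2.1, g))))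

theorem mem_W_zero {n k : ℕ} {f g : Finset (Fin n)} {A : Finset (Ed n k)} :
    (f, A, g) ∈ W n k 0 ↔ f ∈ fac n k ∧ A = ∅ ∧ f = g := by
  unfold W
  rw [Finset.mem_image]
  constructor
  · rintro ⟨f', hf', h⟩
    simp only [Prod.mk.injEq] at h
    obtain ⟨rfl, rfl, rfl⟩ := h
    exact ⟨hf', rfl, rfl⟩
  · rintro ⟨h, rfl, rfl⟩
    exact ⟨f, h, rfl⟩

theorem mem_W_succ {n k l : ℕ} {f g : Finset (Fin n)} {A : Finset (Ed n k)} :
    (f, A, g) ∈ W n k (l + 1) ↔ ∃ A' : Finset (Ed n k), ∃ g' : Finset (Fin n), ∃ e : Ed n k,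
      (f, A', g') ∈ W n k l ∧ e ∈ star n k g' ∧ g ∈ (e.val).powersetCard (k - 1)
        ∧ A = insert e A' := by
  rw [W]
  simp only [Finset.mem_biUnion, Finset.mem_image, Prod.mk.injEq, Prod.exists]
  constructor
  · rintro ⟨f', A', g', hw, e, he, g'', hg'', rfl, rfl, rfl⟩
    exact ⟨A', g', e, hw, he, hg'', rfl⟩
  · rintro ⟨A', g', e, hw, he, hg, rfl⟩
    exact ⟨f, A', g', hw, e, he, g, hg, rfl, rfl, rfl⟩

theorem W_facets {n k : ℕ} : ∀ {l : ℕ} {f g : Finset (Fin n)} {A : Finset (Ed n k)},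
    (f, A, g) ∈ W n k l → f ∈ fac n k ∧ g ∈ fac n k := by
  intro l
  induction l with
  | zero =>
    intro f g A h
    rw [mem_W_zero] at h
    obtain ⟨h1, -, rfl⟩ := h
    exact ⟨h1, h1⟩
  | succ l ih =>
    intro f g A h
    rw [mem_W_succ] at h
    obtain ⟨A', g', e, hw, he, hg, rfl⟩ := h
    refine ⟨(ih hw).1, ?_⟩
    rw [Finset.mem_powersetCard] at hg
    rw [mem_fac]
    exact hg.2

theorem card_W {n k : ℕ} (hk : 1 ≤ k) (l : ℕ) :
    (W n k l).card ≤ n.choose (k - 1) * (n * k) ^ l := by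
  induction l with
  | zero =>
    unfold W
    refine Finset.card_image_le.trans ?_
    rw [card_fac, pow_zero, mul_one]
  | succ l ih =>
    unfold W
    have h1 : ∀ w ∈ W n k l, ((star n k w.2.2).biUnion (fun e =>
      ((e.val).powersetCard (k - 1)).image (fun g => (w.1, insert e w.2.1, g)))).card ≤ n * k := by
      rintro ⟨f, A, g⟩ hw
      have hg := (W_facets hw).2
      rw [mem_fac] at hg
      refine Finset.card_biUnion_le.trans ?_
      calc ∑ e ∈ star n k g, (((e.val).powersetCard (k - 1)).image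
            (fun g => (f, insert e A, g))).card ≤ ∑ _e ∈ star n k g, k := by
            refine Finset.sum_le_sum fun e _ => ?_
            refine Finset.card_image_le.trans ?_
            rw [Finset.card_powersetCard, e.2]
            obtain ⟨j, rfl⟩ : ∃ j, k = j + 1 := ⟨k - 1, by omega⟩
            rw [Nat.add_sub_cancel, Nat.choose_succ_self_right]
        _ = (star n k g).card * k := by rw [Finset.sum_const, smul_eq_mul]
        _ ≤ n * k := by
            rw [card_star hk hg]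
            exact Nat.mul_le_mul_right _ (Nat.sub_le _ _)
    calc _ ≤ ∑ w ∈ W n k l, n * k := Finset.card_biUnion_le.trans (Finset.sum_le_sum h1)
      _ = (W n k l).card * (n * k) := by rw [Finset.sum_const, smul_eq_mul]
      _ ≤ (n.choose (k - 1) * (n * k) ^ l) * (n * k) := Nat.mul_le_mul_right _ ih
      _ = _ := by ring

theorem W_edge {n k : ℕ} : ∀ {l : ℕ} {f g : Finset (Fin n)} {A : Finset (Ed n k)},
    (f, A, g) ∈ W n k l → ∀ e ∈ A, ∃ l' < l, ∃ A' ⊆ A, ∃ g', (f, A', g') ∈ W n k l'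
      ∧ e ∈ star n k g' := by
  intro l
  induction l with
  | zero =>
    intro f g A h e he
    rw [mem_W_zero] at h
    rw [h.2.1] at he
    exact absurd he (Finset.notMem_empty _)
  | succ l ih =>
    intro f g A h e he
    rw [mem_W_succ] at h
    obtain ⟨A₁, g₁, e₁, hw, he₁, hg, rfl⟩ := h
    rw [Finset.mem_insert] at he
    rcases he with rfl | he
    · exact ⟨l, Nat.lt_succ_self _, A₁, Finset.subset_insert _ _, g₁, hw, he₁⟩
    · obtain ⟨l', hl', A', hA', g', hw', he'⟩ := ih hw e he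
      exact ⟨l', by omega, A', hA'.trans (Finset.subset_insert _ _), g', hw', he'⟩

theorem W_reduce {n k : ℕ} : ∀ (l : ℕ) {f g : Finset (Fin n)} {A : Finset (Ed n k)},
    (f, A, g) ∈ W n k l → ∃ l' ≤ l, ∃ A' ⊆ A, (f, A', g) ∈ W n k l' ∧ A'.card = l' := by
  intro l
  induction l using Nat.strong_induction_on with
  | _ l ih =>
    intro f g A h
    rcases Nat.eq_zero_or_pos l with rfl | hl
    · rw [mem_W_zero] at h
      obtain ⟨h1, rfl, rfl⟩ := h
      exact ⟨0, le_rfl, ∅, Finset.Subset.refl _, mem_W_zero.mpr ⟨h1, rfl, rfl⟩, rfl⟩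
    · obtain ⟨l₀, rfl⟩ : ∃ l₀, l = l₀ + 1 := ⟨l - 1, by omega⟩
      rw [mem_W_succ] at h
      obtain ⟨A₁, g₁, e, hw, he, hg, rfl⟩ := h
      obtain ⟨l₁, hl₁, A₂, hA₂, hw₂, hc⟩ := ih l₀ (Nat.lt_succ_self _) hw
      by_cases hA : e ∈ A₂
      · obtain ⟨l₃, hl₃, A₃, hA₃, g₃, hw₃, he₃⟩ := W_edge hw₂ e hA
        have hw₄ : (f, insert e A₃, g) ∈ W n k (l₃ + 1) :=
          mem_W_succ.mpr ⟨A₃, g₃, e, hw₃, he₃, hg, rfl⟩
        obtain ⟨l₅, hl₅, A₅, hA₅, hw₅, hc₅⟩ := ih (l₃ + 1) (by omega) hw₄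
        refine ⟨l₅, by omega, A₅, ?_, hw₅, hc₅⟩
        refine hA₅.trans (Finset.insert_subset_insert _ (hA₃.trans hA₂))
      · refine ⟨l₁ + 1, by omega, insert e A₂, Finset.insert_subset_insert _ hA₂,
          mem_W_succ.mpr ⟨A₂, g₁, e, hw₂, he, hg, rfl⟩, ?_⟩
        rw [Finset.card_insert_of_notMem hA, hc]

end Pool.Agent.MP1ae8db
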